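import Pool.Agent.Work.SW.PNT

/-!
Primes in arithmetic progressions with small moduli (Siegel–Walfisz).
-/

set_option autoImplicit false

namespace Pool.Agent.SW

open Finset ArithmeticFunction

/-- The principal character. -/
theorem psi_principal (A B : ℕ) : ∃ C : ℝ, 0 < C ∧ ∀ (q : ℕ) [NeZero q], ∀ X : ℝ, 2 ≤ X →
    (q : ℝ) ≤ (Real.log X) ^ B →
      ‖∑ n ∈ Ioc 0 ⌊X⌋₊, (Λ n : ℂ) * (1 : DirichletCharacter ℂ q) n - X‖
        ≤ C * (X / (Real.log X) ^ A) := by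
  obtain ⟨C, hC, hpnt⟩ := pnt A
  obtain ⟨K, hK0, hK⟩ : ∃ K : ℝ, 0 < K ∧ ∀ X : ℝ, 1 ≤ X →
      (Real.log X) ^ (A + B + 1) ≤ K * √X := by
    refine ⟨_, ?_, fun X hX => log_pow_le_sqrt (A + B + 1) X hX⟩
    positivity
  refine ⟨C + 4 * K, by positivity, ?_⟩
  intro q _ X hX hqX
  have hq : (1 : ℝ) ≤ q := by exact_mod_cast Nat.pos_of_ne_zero (NeZero.ne q)
  have hlog : 0 < Real.log X := Real.log_pos (by linarith)
  have hXA : 0 ≤ X / (Real.log X) ^ A := by positivity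
  have h3 := psi_close ⌊X⌋₊ q (Nat.pos_of_ne_zero (NeZero.ne q))
    (fun n => (1 : DirichletCharacter ℂ q) n) (fun _ => 1)
    (fun n => DirichletCharacter.norm_le_one _ _) (fun _ => by simp) (fun n hn => by
      exact MulChar.one_apply ((ZMod.isUnit_iff_coprime n q).mpr hn))
  have h4 : ‖∑ n ∈ Ioc 0 ⌊X⌋₊, (Λ n : ℂ) * 1 - X‖ ≤ C * (X / (Real.log X) ^ A) := by
    have h5 := hpnt X hX
    have h6 : ∑ n ∈ Ioc 0 ⌊X⌋₊, (Λ n : ℂ) * 1 - X = ((∑ n ∈ Ioc 0 ⌊X⌋₊, Λ n - X : ℝ) : ℂ) := by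
      push_cast
      simp
    rw [h6, Complex.norm_real]
    exact h5
  have h6 : 2 * (Real.log (q : ℝ) * Real.log (⌊X⌋₊ : ℝ) / Real.log 2)
      ≤ 4 * K * (X / (Real.log X) ^ A) := by
    have a1 : Real.log (q : ℝ) ≤ (Real.log X) ^ B :=
      (Real.log_le_self (Nat.cast_nonneg _)).trans hqX
    have a2 : Real.log (⌊X⌋₊ : ℝ) ≤ Real.log X := by
      apply Real.log_le_log
      · exact_mod_cast Nat.floor_pos.mpr (by linarith)
      · exact Nat.floor_le (by linarith)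
    have a3 : 1 / 2 ≤ Real.log 2 := by
      have h1 := Real.log_two_gt_d9
      linarith
    have a4 : (Real.log X) ^ (A + B + 1) ≤ K * X := by
      refine (hK X (by linarith)).trans ?_
      gcongr
      rw [Real.sqrt_le_left (by linarith)]
      nlinarith
    calc 2 * (Real.log (q : ℝ) * Real.log (⌊X⌋₊ : ℝ) / Real.log 2)
        ≤ 2 * ((Real.log X) ^ B * Real.log X / (1 / 2)) := by
          gcongr
      _ = 4 * ((Real.log X) ^ (A + B + 1) / (Real.log X) ^ A) := by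
          have : (Real.log X) ^ (A + B + 1) = (Real.log X) ^ A * ((Real.log X) ^ B * Real.log X) := by
            ring
          rw [this, mul_div_cancel_left₀ _ (by positivity)]
          ring
      _ ≤ 4 * (K * X / (Real.log X) ^ A) := by gcongr
      _ = _ := by ring
  calc ‖∑ n ∈ Ioc 0 ⌊X⌋₊, (Λ n : ℂ) * (1 : DirichletCharacter ℂ q) n - X‖
      = ‖(∑ n ∈ Ioc 0 ⌊X⌋₊, (Λ n : ℂ) * (1 : DirichletCharacter ℂ q) n
          - ∑ n ∈ Ioc 0 ⌊X⌋₊, (Λ n : ℂ) * 1) + (∑ n ∈ Ioc 0 ⌊X⌋₊, (Λ n : ℂ) * 1 - X)‖ := by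
        congr 1; ring
    _ ≤ 4 * K * (X / (Real.log X) ^ A) + C * (X / (Real.log X) ^ A) :=
        (norm_add_le _ _).trans (add_le_add (h3.trans h6) h4)
    _ = _ := by ring

/-- **Siegel–Walfisz for arithmetic progressions.** -/
theorem psi_ap (A B : ℕ) : ∃ C : ℝ, 0 < C ∧ ∀ (q : ℕ) [NeZero q] (c : ZMod q), IsUnit c →
    ∀ X : ℝ, 2 ≤ X → (q : ℝ) ≤ (Real.log X) ^ B →
      |∑ n ∈ (Ioc 0 ⌊X⌋₊).filter (fun n : ℕ => (n : ZMod q) = c), Λ n - X / (q.totient : ℝ)|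
        ≤ C * (X / (Real.log X) ^ A) := by
  obtain ⟨C1, hC1, h1⟩ := siegel_walfisz A B
  obtain ⟨C2, hC2, h2⟩ := psi_principal A B
  refine ⟨C1 + C2, by positivity, ?_⟩
  intro q _ c hc X hX hqX
  have hlog : 0 < Real.log X := Real.log_pos (by linarith)
  have hXA : 0 ≤ X / (Real.log X) ^ A := by positivity
  have hφ : (0 : ℝ) < q.totient := by
    exact_mod_cast Nat.totient_pos.mpr (Nat.pos_of_ne_zero (NeZero.ne q))
  have hφc : (q.totient : ℂ) ≠ 0 := by exact_mod_cast hφ.ne'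
  classical
  have h3 : (q.totient : ℂ) * ((∑ n ∈ (Ioc 0 ⌊X⌋₊).filter (fun n : ℕ => (n : ZMod q) = c), Λ n : ℝ) : ℂ)
      = ∑ χ : DirichletCharacter ℂ q, χ c⁻¹ * ∑ n ∈ Ioc 0 ⌊X⌋₊, (Λ n : ℂ) * χ n := by
    have h4 : ∀ χ ∈ (univ : Finset (DirichletCharacter ℂ q)), χ c⁻¹ * ∑ n ∈ Ioc 0 ⌊X⌋₊, (Λ n : ℂ) * χ n
        = ∑ n ∈ Ioc 0 ⌊X⌋₊, (Λ n : ℂ) * (χ c⁻¹ * χ n) := by
      intro χ _
      rw [mul_sum]
      exact sum_congr rfl fun n _ => by ring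
    rw [sum_congr rfl h4, sum_comm, sum_filter, Complex.ofReal_sum, mul_sum]
    refine sum_congr rfl fun n _ => ?_
    rw [← mul_sum, DirichletCharacter.sum_char_inv_mul_char_eq ℂ hc]
    by_cases h5 : c = (n : ZMod q)
    · rw [if_pos h5, if_pos h5.symm]; ring
    · rw [if_neg h5, if_neg (fun h => h5 h.symm)]; simp
  have h4 : (q.totient : ℂ) * ((∑ n ∈ (Ioc 0 ⌊X⌋₊).filter (fun n : ℕ => (n : ZMod q) = c), Λ n : ℝ) : ℂ)
      - X = (∑ n ∈ Ioc 0 ⌊X⌋₊, (Λ n : ℂ) * (1 : DirichletCharacter ℂ q) n - X)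
        + ∑ χ ∈ (univ : Finset (DirichletCharacter ℂ q)).erase 1,
          χ c⁻¹ * ∑ n ∈ Ioc 0 ⌊X⌋₊, (Λ n : ℂ) * χ n := by
    rw [h3, ← add_sum_erase _ _ (mem_univ (1 : DirichletCharacter ℂ q))]
    have hci : IsUnit c⁻¹ := IsUnit.of_mul_eq_one c (ZMod.inv_mul_of_unit c hc)
    rw [MulChar.one_apply hci, one_mul]
    ring
  have h5 : ‖∑ χ ∈ (univ : Finset (DirichletCharacter ℂ q)).erase 1,
          χ c⁻¹ * ∑ n ∈ Ioc 0 ⌊X⌋₊, (Λ n : ℂ) * χ n‖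
      ≤ (q.totient - 1 : ℝ) * (C1 * (X / (Real.log X) ^ A)) := by
    calc ‖∑ χ ∈ (univ : Finset (DirichletCharacter ℂ q)).erase 1,
          χ c⁻¹ * ∑ n ∈ Ioc 0 ⌊X⌋₊, (Λ n : ℂ) * χ n‖
        ≤ ∑ χ ∈ (univ : Finset (DirichletCharacter ℂ q)).erase 1, C1 * (X / (Real.log X) ^ A) := by
          refine norm_sum_le_of_le _ fun χ hχ => ?_
          rw [mem_erase] at hχ
          rw [norm_mul]
          have h6 := h1 q χ hχ.1 X hX hqX
          have h7 := DirichletCharacter.norm_le_one χ c⁻¹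
          calc ‖χ c⁻¹‖ * ‖∑ n ∈ Ioc 0 ⌊X⌋₊, (Λ n : ℂ) * χ n‖
              ≤ 1 * (C1 * (X / (Real.log X) ^ A)) := by gcongr
            _ = _ := one_mul _
      _ = (q.totient - 1 : ℝ) * (C1 * (X / (Real.log X) ^ A)) := by
          rw [sum_const, nsmul_eq_mul, card_erase_of_mem (mem_univ _), card_univ,
            ← Nat.card_eq_fintype_card, DirichletCharacter.card_eq_totient_of_hasEnoughRootsOfUnity,
            Nat.cast_sub (Nat.totient_pos.mpr (Nat.pos_of_ne_zero (NeZero.ne q))), Nat.cast_one]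
  have h6 : |∑ n ∈ (Ioc 0 ⌊X⌋₊).filter (fun n : ℕ => (n : ZMod q) = c), Λ n - X / (q.totient : ℝ)|
      = ‖(q.totient : ℂ) * ((∑ n ∈ (Ioc 0 ⌊X⌋₊).filter (fun n : ℕ => (n : ZMod q) = c), Λ n : ℝ) : ℂ)
      - X‖ / q.totient := by
    have h7 : (q.totient : ℂ) * ((∑ n ∈ (Ioc 0 ⌊X⌋₊).filter (fun n : ℕ => (n : ZMod q) = c), Λ n : ℝ) : ℂ)
      - X = ((q.totient * (∑ n ∈ (Ioc 0 ⌊X⌋₊).filter (fun n : ℕ => (n : ZMod q) = c), Λ n
        - X / (q.totient : ℝ)) : ℝ) : ℂ) := by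
      rw [mul_sub, mul_div_cancel₀ _ hφ.ne']
      push_cast
      ring
    rw [h7, Complex.norm_real, Real.norm_eq_abs, abs_mul, abs_of_pos hφ, mul_div_cancel_left₀ _ hφ.ne']
  rw [h6, h4, div_le_iff₀ hφ]
  have h8 := h2 q X hX hqX
  have hφ1 : (1 : ℝ) ≤ q.totient := by
    exact_mod_cast Nat.totient_pos.mpr (Nat.pos_of_ne_zero (NeZero.ne q))
  calc ‖(∑ n ∈ Ioc 0 ⌊X⌋₊, (Λ n : ℂ) * (1 : DirichletCharacter ℂ q) n - X)
        + ∑ χ ∈ (univ : Finset (DirichletCharacter ℂ q)).erase 1,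
          χ c⁻¹ * ∑ n ∈ Ioc 0 ⌊X⌋₊, (Λ n : ℂ) * χ n‖
      ≤ C2 * (X / (Real.log X) ^ A) + (q.totient - 1 : ℝ) * (C1 * (X / (Real.log X) ^ A)) :=
        (norm_add_le _ _).trans (add_le_add h8 h5)
    _ ≤ (q.totient : ℝ) * (C2 * (X / (Real.log X) ^ A))
        + (q.totient : ℝ) * (C1 * (X / (Real.log X) ^ A)) := by
        have : 0 ≤ C2 * (X / (Real.log X) ^ A) := by positivity
        have : 0 ≤ C1 * (X / (Real.log X) ^ A) := by positivity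
        refine add_le_add ?_ ?_
        · nlinarith
        · nlinarith
    _ = _ := by ring

end Pool.Agent.SW
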