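import Mathlib

/-!
Abel summation bounds and bounded partial sums of Dirichlet characters.
-/

set_option autoImplicit false

namespace Pool.Agent.SW

open Finset

/-- Abel summation identity. -/
theorem abel_id (c g : ℕ → ℂ) (M N : ℕ) (h : M ≤ N) :
    ∑ n ∈ Ioc M N, c n * g n = (∑ k ∈ Ioc M N, c k) * g N
      + ∑ n ∈ Ico (M + 1) N, (∑ k ∈ Ioc M n, c k) * (g n - g (n + 1)) := by
  induction N, h using Nat.le_induction with
  | base => simp
  | succ N hN ih =>
    rw [← Finset.insert_Ioc_right_eq_Ioc_add_one (by omega), sum_insert (by simp),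
      sum_insert (by simp), ih]
    rcases Nat.lt_or_ge M N with h1 | h1
    · rw [sum_Ico_succ_top (by omega)]
      ring
    · have : N = M := by omega
      subst this
      simp

/-- Abel summation bound. -/
theorem abel_bound (c g : ℕ → ℂ) (M N : ℕ) (h : M ≤ N) (B : ℝ)
    (hB : ∀ n, M ≤ n → n ≤ N → ‖∑ k ∈ Ioc M n, c k‖ ≤ B) :
    ‖∑ n ∈ Ioc M N, c n * g n‖ ≤ B * (‖g N‖ + ∑ n ∈ Ico (M + 1) N, ‖g n - g (n + 1)‖) := by
  rw [abel_id c g M N h]
  refine (norm_add_le _ _).trans ?_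
  rw [mul_add, norm_mul, mul_sum]
  gcongr
  · exact hB N h le_rfl
  · refine (norm_sum_le _ _).trans (sum_le_sum fun n hn => ?_)
    rw [mem_Ico] at hn
    rw [norm_mul]
    gcongr
    exact hB n (by omega) (by omega)

/-- For a decreasing nonnegative weight. -/
theorem abel_bound_anti (c : ℕ → ℂ) (g : ℕ → ℝ) (M N : ℕ) (h : M ≤ N) (B : ℝ) (hB0 : 0 ≤ B)
    (hB : ∀ n, M ≤ n → n ≤ N → ‖∑ k ∈ Ioc M n, c k‖ ≤ B)
    (hg : ∀ n, M < n → g (n + 1) ≤ g n) (hg0 : ∀ n, M < n → 0 ≤ g n) :
    ‖∑ n ∈ Ioc M N, c n * (g n : ℂ)‖ ≤ B * g (M + 1) := by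
  rcases Nat.eq_or_lt_of_le h with h1 | h1
  · subst h1
    have := hg0 (M + 1) (by omega)
    simp only [Ioc_self, sum_empty, norm_zero]
    positivity
  refine (abel_bound c (fun n => (g n : ℂ)) M N h B hB).trans ?_
  gcongr
  have h2 : ∀ n ∈ Ico (M + 1) N, ‖(g n : ℂ) - (g (n + 1) : ℂ)‖ = g n - g (n + 1) := by
    intro n hn
    rw [mem_Ico] at hn
    rw [← Complex.ofReal_sub, Complex.norm_real, Real.norm_eq_abs, abs_of_nonneg]
    linarith [hg n (by omega)]
  rw [sum_congr rfl h2, Complex.norm_real, Real.norm_eq_abs, abs_of_nonneg (hg0 N h1)]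
  have h3 : ∑ n ∈ Ico (M + 1) N, (g n - g (n + 1)) = g (M + 1) - g N := by
    have := sum_Ico_sub g (show M + 1 ≤ N by omega)
    have h4 : ∑ n ∈ Ico (M + 1) N, (g n - g (n + 1)) = -∑ n ∈ Ico (M + 1) N, (g (n + 1) - g n) := by
      rw [← sum_neg_distrib]
      exact sum_congr rfl fun _ _ => by ring
    rw [h4, this]
    ring
  rw [h3]
  linarith

/-- Sum over `q` consecutive integers of a function on `ZMod q`. -/
theorem sum_period (q : ℕ) [NeZero q] (f : ZMod q → ℂ) (M : ℕ) :
    ∑ n ∈ Ico M (M + q), f n = ∑ a, f a := by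
  have h1 : ∑ n ∈ Ico M (M + q), f n = ∑ r ∈ (Ico M (M + q)).image (· % q), f r := by
    rw [sum_image]
    · refine sum_congr rfl fun n _ => ?_
      rw [ZMod.natCast_mod]
    · intro a ha b hb hab
      rw [coe_Ico, Set.mem_Ico] at ha hb
      simp only at hab
      have h2 : (a : ℤ) - b = 0 := by
        apply Int.eq_zero_of_abs_lt_dvd (m := (q : ℤ))
        · have := (Nat.modEq_iff_dvd.mp (show b ≡ a [MOD q] from hab.symm))
          exact this
        · rw [abs_lt]
          constructor <;> omega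
      omega
  rw [h1, Nat.image_Ico_mod]
  symm
  refine sum_bij (fun a _ => a.val) ?_ ?_ ?_ ?_
  · intro a _
    rw [mem_range]
    exact ZMod.val_lt a
  · intro a _ b _ hab
    exact ZMod.val_injective q hab
  · intro r hr
    rw [mem_range] at hr
    exact ⟨(r : ZMod q), mem_univ _, ZMod.val_natCast_of_lt hr⟩
  · intro a _
    rw [ZMod.natCast_zmod_val]

/-- Functions on `ZMod q` with mean zero and values in the unit disc have bounded partial sums. -/
theorem norm_sum_le_of_mean_zero (q : ℕ) [NeZero q] (f : ZMod q → ℂ) (hf : ∑ a, f a = 0)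
    (hf1 : ∀ a, ‖f a‖ ≤ 1) (M N : ℕ) : ‖∑ n ∈ Ioc M N, f n‖ ≤ q := by
  have hq : 0 < q := Nat.pos_of_ne_zero (NeZero.ne q)
  have h1 : ∀ k M : ℕ, ∑ n ∈ Ico M (M + k * q), f n = 0 := by
    intro k
    induction k with
    | zero => intro M; simp
    | succ k ih =>
      intro M
      rw [← sum_Ico_consecutive _ (show M ≤ M + k * q by omega)
        (show M + k * q ≤ M + (k + 1) * q by nlinarith), ih M, zero_add]
      have : M + (k + 1) * q = (M + k * q) + q := by ring
      rw [this, sum_period, hf]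
  rcases Nat.lt_or_ge N M with h | h
  · rw [Ioc_eq_empty (by omega), sum_empty, norm_zero]
    exact Nat.cast_nonneg _
  have h2 : Ioc M N = Ico (M + 1) (N + 1) := by
    ext n; simp only [mem_Ioc, mem_Ico]; omega
  rw [h2]
  set k := (N - M) / q with hk
  have h3 : k * q ≤ N - M := Nat.div_mul_le_self _ _
  have h4 : N - M < k * q + q := Nat.lt_div_mul_add hq
  rw [← sum_Ico_consecutive _ (show M + 1 ≤ M + 1 + k * q by omega)
    (show M + 1 + k * q ≤ N + 1 by omega), h1, zero_add]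
  refine (norm_sum_le _ _).trans ?_
  refine (sum_le_sum fun (n : ℕ) _ => hf1 (n : ZMod q)).trans ?_
  rw [sum_const, Nat.card_Ico, nsmul_eq_mul, mul_one]
  exact_mod_cast (by omega : N + 1 - (M + 1 + k * q) ≤ q)

theorem char_sum_le (q : ℕ) [NeZero q] (χ : DirichletCharacter ℂ q) (hχ : χ ≠ 1) (M N : ℕ) :
    ‖∑ n ∈ Ioc M N, χ n‖ ≤ q := by
  apply norm_sum_le_of_mean_zero q (fun a => χ a)
  · exact MulChar.sum_eq_zero_of_ne_one hχ
  · intro a
    exact DirichletCharacter.norm_le_one χ a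

end Pool.Agent.SW
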