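import Pool.Agent.Work.SW.ZBound

/-!
Lower bounds for Dirichlet `L`-functions in `1 < Re s ≤ 2` by the 3-4-1 inequality.
-/

set_option autoImplicit false

namespace Pool.Agent.SW

open Finset

/-- `∑ χ(n) (log n)^j n^{-s}`. -/
noncomputable def Lf {q : ℕ} (χ : DirichletCharacter ℂ q) (j : ℕ) (s : ℂ) : ℂ :=
  LSeries (fun n => χ n * (Real.log n : ℂ) ^ j) s

theorem Lf_zero {q : ℕ} (χ : DirichletCharacter ℂ q) (s : ℂ) :
    Lf χ 0 s = LSeries (fun n => χ n) s := by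
  unfold Lf
  simp

theorem LSeries_hasDeriv {q : ℕ} (hq : q ≠ 0) (χ : DirichletCharacter ℂ q) (s : ℂ)
    (hs : 1 < s.re) : HasDerivAt (Lf χ 0) (-Lf χ 1 s) s := by
  have h1 : LSeries.abscissaOfAbsConv (fun n => χ n) < s.re := by
    rw [DirichletCharacter.absicssaOfAbsConv_eq_one hq χ]
    exact_mod_cast hs
  have h2 := LSeries_hasDerivAt h1
  have h3 : (LSeries fun n => χ n) = Lf χ 0 := by
    funext z
    rw [Lf_zero]
  have h4 : LSeries (LSeries.logMul (fun n => χ n)) s = Lf χ 1 s := by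
    unfold Lf
    congr 1
    funext n
    rw [LSeries.logMul, ← Complex.natCast_log, pow_one, mul_comm]
  rw [h3, h4] at h2
  exact h2

theorem LL_le_two (q t : ℝ) (hq : 1 ≤ q) : LL q (2 * t) ≤ 2 * LL q t := by
  have h := one_le_LL q t hq
  unfold LL at *
  have h1 : q * (|2 * t| + 3) ≤ 2 * (q * (|t| + 3)) := by
    rw [abs_mul, abs_two]
    nlinarith [abs_nonneg t]
  have h2 : 0 < q * (|2 * t| + 3) := by positivity
  have h3 : 0 < q * (|t| + 3) := by positivity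
  calc Real.log (q * (|2 * t| + 3)) ≤ Real.log (2 * (q * (|t| + 3))) := Real.log_le_log h2 h1
    _ = Real.log 2 + Real.log (q * (|t| + 3)) := Real.log_mul (by norm_num) h3.ne'
    _ ≤ _ := by linarith [Real.log_two_lt_d9]

theorem LL_mono (q q' t t' : ℝ) (hq : 1 ≤ q) (hqq : q ≤ q') (ht : |t| ≤ |t'|) :
    LL q t ≤ LL q' t' := by
  unfold LL
  apply Real.log_le_log (by positivity)
  have := abs_nonneg t
  have h0 : 0 ≤ q' := by linarith
  gcongr

/-- The abstract 3-4-1 step. -/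
theorem step341 (C1 D U : ℝ) (hC1 : 1 ≤ C1) (hD : 1 ≤ D) (hU : 1 ≤ U) (f : ℝ → ℂ)
    (h1 : ∀ x : ℝ, 0 < x → x ≤ 1 → 1 ≤ (C1 / x) ^ 3 * ‖f x‖ ^ 4 * U)
    (h2 : ∀ x y : ℝ, 0 < x → x ≤ y → y ≤ 1 → ‖f y - f x‖ ≤ D * (y - x)) (x : ℝ) (hx : 0 < x)
    (hx1 : x ≤ 1) : 1 / (16 * C1 ^ 3 * D ^ 3 * U) ≤ ‖f x‖ := by
  set η := 1 / (16 * C1 ^ 3 * D ^ 4 * U) with hη
  have hη0 : 0 < η := by positivity
  have hη1 : η ≤ 1 := by
    rw [hη, div_le_one (by positivity)]
    have a1 : 1 ≤ C1 ^ 3 := one_le_pow₀ hC1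
    have a2 : 1 ≤ D ^ 4 := one_le_pow₀ hD
    have a3 : 1 ≤ C1 ^ 3 * D ^ 4 := one_le_mul_of_one_le_of_one_le a1 a2
    have a4 : 1 ≤ C1 ^ 3 * D ^ 4 * U := one_le_mul_of_one_le_of_one_le a3 hU
    nlinarith
  have key : ∀ y : ℝ, η ≤ y → y ≤ 1 → 1 / (8 * C1 ^ 3 * D ^ 3 * U) ≤ ‖f y‖ := by
    intro y hy hy1
    have hy0 : 0 < y := lt_of_lt_of_le hη0 hy
    have h3 := h1 y hy0 hy1
    have h4 : (C1 / y) ^ 3 ≤ (C1 / η) ^ 3 := by gcongr
    have h5 : 1 ≤ (C1 / η) ^ 3 * ‖f y‖ ^ 4 * U := by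
      refine h3.trans ?_
      gcongr
    have h6 : (C1 / η) ^ 3 * U = (8 * C1 ^ 3 * D ^ 3 * U) ^ 4 := by
      rw [hη]
      field_simp
      ring
    have h7 : 1 ≤ ((8 * C1 ^ 3 * D ^ 3 * U) * ‖f y‖) ^ 4 := by
      calc 1 ≤ (C1 / η) ^ 3 * ‖f y‖ ^ 4 * U := h5
        _ = ((C1 / η) ^ 3 * U) * ‖f y‖ ^ 4 := by ring
        _ = _ := by rw [h6]; ring
    have h8 : 1 ≤ (8 * C1 ^ 3 * D ^ 3 * U) * ‖f y‖ := by
      by_contra h
      push Not at h
      have := pow_lt_one₀ (by positivity) h (n := 4) (by norm_num)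
      linarith
    rw [div_le_iff₀ (by positivity)]
    linarith
  have hle : 1 / (16 * C1 ^ 3 * D ^ 3 * U) = 1 / (8 * C1 ^ 3 * D ^ 3 * U) - D * η := by
    rw [hη]
    field_simp
    ring
  rcases le_total η x with h | h
  · refine le_trans ?_ (key x h hx1)
    rw [hle]
    have : 0 ≤ D * η := by positivity
    linarith
  · have h3 := key η le_rfl hη1
    have h4 := h2 x η hx h hη1
    have h5 : ‖f η‖ ≤ ‖f x‖ + ‖f η - f x‖ := by
      have := norm_add_le (f x) (f η - f x)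
      rwa [add_sub_cancel] at this
    have h6 : D * (η - x) ≤ D * η := by
      apply mul_le_mul_of_nonneg_left _ (by linarith)
      linarith
    rw [hle]
    linarith

/-- Upper bound for the zeta function on the real axis. -/
noncomputable def C1 : ℝ := CZ 0 * LL 1 0 + 1

theorem C1_pos : 1 ≤ C1 := by
  unfold C1
  have h1 := one_le_LL 1 0 le_rfl
  have h2 := CZ_pos 0
  have : 0 ≤ CZ 0 * LL 1 0 := by positivity
  linarith

theorem norm_term_le_one {q : ℕ} (χ : DirichletCharacter ℂ q) (s : ℂ) (n : ℕ) :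
    ‖LSeries.term (fun n => χ n) s n‖ ≤ ‖LSeries.term (fun _ => (1 : ℂ)) (s.re : ℂ) n‖ := by
  rcases eq_or_ne n 0 with rfl | hn
  · simp
  · rw [LSeries.term_of_ne_zero hn, LSeries.term_of_ne_zero hn, norm_div, norm_div]
    have hn' : (0 : ℝ) < n := by exact_mod_cast Nat.pos_of_ne_zero hn
    have h1 : ‖(n : ℂ) ^ s‖ = ‖(n : ℂ) ^ ((s.re : ℝ) : ℂ)‖ := by
      rw [← Complex.ofReal_natCast, Complex.norm_cpow_eq_rpow_re_of_pos hn',
        Complex.norm_cpow_eq_rpow_re_of_pos hn', Complex.ofReal_re]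
    rw [h1]
    gcongr
    simpa using DirichletCharacter.norm_le_one χ n

theorem norm_Lf_le_zeta {q : ℕ} (χ : DirichletCharacter ℂ q) (s : ℂ) (hs : 1 < s.re)
    (hs2 : s.re ≤ 2) : ‖Lf χ 0 s‖ ≤ C1 / (s.re - 1) := by
  have hsum : Summable fun n => ‖LSeries.term (fun _ => (1 : ℂ)) (s.re : ℂ) n‖ := by
    have : LSeriesSummable (1 : ℕ → ℂ) (s.re : ℂ) := LSeriesSummable_one_iff.mpr (by simpa using hs)
    exact this.norm
  have h1 : ‖Lf χ 0 s‖ ≤ ∑' n, ‖LSeries.term (fun _ => (1 : ℂ)) (s.re : ℂ) n‖ := by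
    rw [Lf_zero]
    refine (norm_tsum_le_tsum_norm ?_).trans ?_
    · exact Summable.of_nonneg_of_le (fun _ => norm_nonneg _) (norm_term_le_one χ s) hsum
    · exact Summable.tsum_le_tsum (norm_term_le_one χ s)
        (Summable.of_nonneg_of_le (fun _ => norm_nonneg _) (norm_term_le_one χ s) hsum) hsum
  have h2 : ∑' n, ‖LSeries.term (fun _ => (1 : ℂ)) (s.re : ℂ) n‖
      = ‖LSeries (fun n => (1 : ℂ) * (Real.log n : ℂ) ^ 0) (s.re : ℂ)‖ := by
    have h3 : ∀ n, LSeries.term (fun n => (1 : ℂ) * (Real.log n : ℂ) ^ 0) (s.re : ℂ) n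
        = ((‖LSeries.term (fun _ => (1 : ℂ)) (s.re : ℂ) n‖ : ℝ) : ℂ) := by
      intro n
      rcases eq_or_ne n 0 with rfl | hn
      · simp
      · rw [LSeries.term_of_ne_zero hn, LSeries.term_of_ne_zero hn, norm_div]
        have hn' : (0 : ℝ) < n := by exact_mod_cast Nat.pos_of_ne_zero hn
        rw [← Complex.ofReal_natCast, Complex.norm_cpow_eq_rpow_re_of_pos hn', Complex.ofReal_re,
          ← Complex.ofReal_cpow hn'.le]
        simp
    have h4 : LSeries (fun n => (1 : ℂ) * (Real.log n : ℂ) ^ 0) (s.re : ℂ)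
        = ((∑' n, ‖LSeries.term (fun _ => (1 : ℂ)) (s.re : ℂ) n‖ : ℝ) : ℂ) := by
      rw [LSeries, tsum_congr h3, Complex.ofReal_tsum]
    rw [h4, Complex.norm_real, Real.norm_eq_abs, abs_of_nonneg]
    exact tsum_nonneg fun _ => norm_nonneg _
  rw [h2] at h1
  refine h1.trans ?_
  have h5 := LSeries_zeta_bound 0 (s.re : ℂ) (by simpa using hs) (by simpa using hs2)
  refine h5.trans ?_
  have hx : 0 < s.re - 1 := by linarith
  have h6 : ‖((s.re : ℝ) : ℂ) - 1‖ = s.re - 1 := by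
    rw [← Complex.ofReal_one, ← Complex.ofReal_sub, Complex.norm_real, Real.norm_eq_abs,
      abs_of_pos hx]
  rw [h6, Complex.ofReal_im]
  simp only [zero_add, pow_one, Nat.factorial_zero, Nat.cast_one]
  rw [le_div_iff₀ hx, add_mul, div_mul_cancel₀ _ hx.ne', C1]
  have h7 : 0 ≤ CZ 0 * LL 1 0 := by
    have h1 := one_le_LL 1 0 le_rfl
    have h2 := CZ_pos 0
    positivity
  nlinarith

/-- Bounds for non-principal characters. -/
theorem norm_Lf_le {q : ℕ} [NeZero q] (χ : DirichletCharacter ℂ q) (hχ : χ ≠ 1) (j : ℕ) (s : ℂ)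
    (hs : 1 < s.re) (hs2 : s.re ≤ 2) : ‖Lf χ j s‖ ≤ CJ j * LL q s.im ^ (j + 1) := by
  have hq : (1 : ℝ) ≤ q := by exact_mod_cast Nat.pos_of_ne_zero (NeZero.ne q)
  exact LSeries_bound j (fun n => χ n) q hq (fun n => DirichletCharacter.norm_le_one χ n)
    (fun M N => char_sum_le q χ hχ M N) s hs hs2

/-- Bound for the principal character. -/
theorem norm_Lf_one_le {q : ℕ} [NeZero q] (s : ℂ) (hs : 1 < s.re) (hs2 : s.re ≤ 2) :
    ‖Lf (1 : DirichletCharacter ℂ q) 0 s‖ ≤ (CJ 0 + CZ 0) * LL q s.im + 1 / ‖s - 1‖ := by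
  have hq : (1 : ℝ) ≤ q := by exact_mod_cast Nat.pos_of_ne_zero (NeZero.ne q)
  have hq0 : (q : ℂ) ≠ 0 := by exact_mod_cast NeZero.ne q
  set m : ℂ := (∑ a : ZMod q, (1 : DirichletCharacter ℂ q) a) / q with hm
  have hval : ∀ a : ZMod q, (1 : DirichletCharacter ℂ q) a = 0 ∨ (1 : DirichletCharacter ℂ q) a = 1 := by
    intro a
    by_cases h : IsUnit a
    · right; exact MulChar.one_apply h
    · left; exact MulChar.map_nonunit _ h
  have hmr : ∃ r : ℝ, 0 ≤ r ∧ r ≤ 1 ∧ m = (r : ℂ) := by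
    classical
    have h1 : (∑ a : ZMod q, (1 : DirichletCharacter ℂ q) a)
        = (((univ : Finset (ZMod q)).filter fun a => (1 : DirichletCharacter ℂ q) a = 1).card : ℂ) := by
      rw [card_filter]
      push_cast
      refine sum_congr rfl fun a _ => ?_
      rcases hval a with h | h <;> simp [h]
    refine ⟨(((univ : Finset (ZMod q)).filter fun a => (1 : DirichletCharacter ℂ q) a = 1).card : ℝ)
      / q, by positivity, ?_, ?_⟩
    · rw [div_le_one (by linarith)]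
      have h2 := card_filter_le (univ : Finset (ZMod q)) fun a => (1 : DirichletCharacter ℂ q) a = 1
      rw [card_univ, ZMod.card] at h2
      exact_mod_cast h2
    · rw [hm, h1]
      push_cast
      rfl
  obtain ⟨r, hr0, hr1, hmr⟩ := hmr
  set c : ℕ → ℂ := fun n => (1 : DirichletCharacter ℂ q) n - m with hc
  have hc1 : ∀ a : ZMod q, ‖(1 : DirichletCharacter ℂ q) a - m‖ ≤ 1 := by
    intro a
    rw [hmr]
    rcases hval a with h | h
    · rw [h, zero_sub, norm_neg, Complex.norm_real, Real.norm_eq_abs, abs_of_nonneg hr0]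
      exact hr1
    · rw [h, ← Complex.ofReal_one, ← Complex.ofReal_sub, Complex.norm_real, Real.norm_eq_abs,
        abs_of_nonneg (by linarith)]
      linarith
  have hcs : ∀ M N, ‖∑ n ∈ Ioc M N, c n‖ ≤ q := by
    intro M N
    apply norm_sum_le_of_mean_zero q (fun a => (1 : DirichletCharacter ℂ q) a - m) _ hc1
    rw [sum_sub_distrib, sum_const, card_univ, ZMod.card, nsmul_eq_mul, hm]
    field_simp
    ring
  have h1 := LSeries_bound 0 c q hq (fun n => hc1 n) hcs s hs hs2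
  have h2 := LSeries_zeta_bound 0 s hs hs2
  have hsum1 : LSeriesSummable (fun n => (1 : DirichletCharacter ℂ q) n) s :=
    DirichletCharacter.LSeriesSummable_of_one_lt_re _ hs
  have hsum2 : LSeriesSummable (1 : ℕ → ℂ) s := LSeriesSummable_one_iff.mpr hs
  have h3 : Lf (1 : DirichletCharacter ℂ q) 0 s
      = LSeries (fun n => c n * (Real.log n : ℂ) ^ 0) s
        + m * LSeries (fun n => (1 : ℂ) * (Real.log n : ℂ) ^ 0) s := by
    rw [Lf_zero]
    simp only [pow_zero, mul_one]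
    have h4 : LSeries (fun _ => (1 : ℂ)) s = LSeries 1 s := rfl
    rw [h4, ← LSeries_smul, ← LSeries_add]
    · apply LSeries_congr
      intro n _
      simp only [hc, Pi.add_apply, Pi.smul_apply, smul_eq_mul, Pi.one_apply, mul_one]
      ring
    · have : c = (fun n : ℕ => (1 : DirichletCharacter ℂ q) n) - m • (1 : ℕ → ℂ) := by
        funext n
        simp [hc]
      rw [this]
      exact hsum1.sub (hsum2.smul m)
    · exact hsum2.smul m
  rw [h3]
  refine (norm_add_le _ _).trans ?_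
  rw [norm_mul]
  have hmn : ‖m‖ ≤ 1 := by
    rw [hmr, Complex.norm_real, Real.norm_eq_abs, abs_of_nonneg hr0]
    exact hr1
  simp only [zero_add, pow_one, Nat.factorial_zero, Nat.cast_one] at h1 h2
  have h5 : LL 1 s.im ≤ LL q s.im := LL_mono 1 q _ _ le_rfl hq le_rfl
  have h6 := CZ_pos 0
  calc _ ≤ CJ 0 * LL q s.im + 1 * (CZ 0 * LL 1 s.im + 1 / ‖s - 1‖) := by
        gcongr
    _ ≤ CJ 0 * LL q s.im + 1 * (CZ 0 * LL q s.im + 1 / ‖s - 1‖) := by gcongr
    _ = _ := by ring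

/-- Mean value estimate for `Lf χ 0`. -/
theorem Lf_lipschitz {q : ℕ} (hq : q ≠ 0) (χ : DirichletCharacter ℂ q) (S : Set ℂ)
    (hS : Convex ℝ S) (hS1 : ∀ s ∈ S, 1 < s.re) (D : ℝ) (hD : ∀ s ∈ S, ‖Lf χ 1 s‖ ≤ D)
    (x y : ℂ) (hx : x ∈ S) (hy : y ∈ S) : ‖Lf χ 0 y - Lf χ 0 x‖ ≤ D * ‖y - x‖ := by
  apply Convex.norm_image_sub_le_of_norm_hasDerivWithin_le (𝕜 := ℂ) (f := Lf χ 0)
    (f' := fun s => -Lf χ 1 s) _ _ hS hx hy
  · intro s hs
    exact (LSeries_hasDeriv hq χ s (hS1 s hs)).hasDerivWithinAt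
  · intro s hs
    rw [norm_neg]
    exact hD s hs

/-- Horizontal segments. -/
def hseg (t : ℝ) : Set ℂ := {s | 1 < s.re ∧ s.re ≤ 2 ∧ s.im = t}

theorem convex_hseg (t : ℝ) : Convex ℝ (hseg t) := by
  intro x hx y hy a b ha hb hab
  obtain ⟨h1, h2, h3⟩ := hx
  obtain ⟨h4, h5, h6⟩ := hy
  have e1 : (a • x + b • y).re = a * x.re + b * y.re := by simp
  have e2 : (a • x + b • y).im = a * x.im + b * y.im := by simp
  refine ⟨?_, ?_, ?_⟩
  · rw [e1]
    rcases eq_or_lt_of_le ha with h | h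
    · rw [← h] at hab ⊢
      have : b = 1 := by linarith
      rw [this]
      linarith
    · nlinarith
  · rw [e1]
    nlinarith
  · rw [e2, h3, h6]
    rw [← add_mul, hab, one_mul]

/-- The 3-4-1 lower bound in terms of an upper bound for `L(χ², 1 + x + 2it)`. -/
theorem lower341 {q : ℕ} [NeZero q] (χ : DirichletCharacter ℂ q) (t : ℝ) (D U : ℝ) (hD1 : 1 ≤ D)
    (hU1 : 1 ≤ U) (hD : ∀ s ∈ hseg t, ‖Lf χ 1 s‖ ≤ D) (hU : ∀ s ∈ hseg (2 * t),
      ‖Lf (χ ^ 2) 0 s‖ ≤ U) (s : ℂ) (hs : s ∈ hseg t) :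
    1 / (16 * C1 ^ 3 * D ^ 3 * U) ≤ ‖Lf χ 0 s‖ := by
  set f : ℝ → ℂ := fun x => Lf χ 0 (1 + x + Complex.I * t) with hf
  have hmem : ∀ x : ℝ, 0 < x → x ≤ 1 → (1 + (x : ℂ) + Complex.I * t) ∈ hseg t := by
    intro x hx hx1
    refine ⟨?_, ?_, ?_⟩ <;> simp <;> linarith
  have h := step341 C1 D U C1_pos hD1 hU1 f ?_ ?_ (s.re - 1) (by linarith [hs.1])
    (by linarith [hs.2.1])
  · have : (1 : ℂ) + ((s.re - 1 : ℝ) : ℂ) + Complex.I * t = s := by
      apply Complex.ext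
      · simp
      · simp [hs.2.2]
    simp only [hf] at h
    rwa [this] at h
  · intro x hx hx1
    have h1 := DirichletCharacter.norm_LSeries_product_ge_one χ hx t
    rw [norm_mul, norm_mul, norm_pow, norm_pow] at h1
    have e1 : ‖LSeries (fun n => (1 : DirichletCharacter ℂ q) n) (1 + (x : ℂ))‖ ≤ C1 / x := by
      have h2 := norm_Lf_le_zeta (1 : DirichletCharacter ℂ q) (1 + (x : ℂ)) (by simpa using hx)
        (by simp; linarith)
      rw [Lf_zero] at h2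
      simpa using h2
    have e2 : LSeries (fun n => χ n) (1 + (x : ℂ) + Complex.I * t) = f x := by
      simp only [hf]
      rw [Lf_zero]
    have e3 : ‖LSeries (fun n => (χ ^ 2) n) (1 + (x : ℂ) + 2 * Complex.I * t)‖ ≤ U := by
      have h2 := hU (1 + (x : ℂ) + 2 * Complex.I * t) (by
        refine ⟨?_, ?_, ?_⟩ <;> simp <;> linarith)
      rwa [Lf_zero] at h2
    rw [e2] at h1
    refine le_trans h1 ?_
    have hC := C1_pos
    have hCx : 0 ≤ C1 / x := by positivity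
    gcongr
  · intro x y hx hxy hy
    have h1 := Lf_lipschitz (NeZero.ne q) χ (hseg t) (convex_hseg t) (fun s hs => hs.1) D hD
      (1 + (x : ℂ) + Complex.I * t) (1 + (y : ℂ) + Complex.I * t) (hmem x hx (hxy.trans hy))
      (hmem y (hx.trans_le hxy) hy)
    refine h1.trans (le_of_eq ?_)
    congr 1
    have : (1 + (y : ℂ) + Complex.I * t) - (1 + (x : ℂ) + Complex.I * t) = ((y - x : ℝ) : ℂ) := by
      push_cast
      ring
    rw [this, Complex.norm_real, Real.norm_eq_abs, abs_of_nonneg (by linarith)]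

end Pool.Agent.SW
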