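import Pool.Agent.Work.SW.SiegelA
import Pool.Agent.Work.SW.Lower

/-!
Siegel's theorem for real Dirichlet characters.
-/

set_option autoImplicit false

namespace Pool.Agent.SW

open Finset Filter

/-- The real part of a character. -/
noncomputable def cre {q : ℕ} (χ : DirichletCharacter ℂ q) (n : ℕ) : ℝ := (χ n).re

theorem real_val {q : ℕ} {χ : DirichletCharacter ℂ q} (h2 : χ ^ 2 = 1) (a : ZMod q) :
    χ a = 0 ∨ χ a = 1 ∨ χ a = -1 := by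
  by_cases ha : IsUnit a
  · right
    have h1 : (χ a) ^ 2 = 1 := by
      have : (χ ^ 2) a = 1 := by rw [h2]; exact MulChar.one_apply ha
      rwa [MulChar.pow_apply' _ (by norm_num)] at this
    exact sq_eq_one_iff_of_side_cond h1
  · left
    exact MulChar.map_nonunit _ ha
where
  sq_eq_one_iff_of_side_cond {z : ℂ} (h : z ^ 2 = 1) : z = 1 ∨ z = -1 := by
    have : (z - 1) * (z + 1) = 0 := by linear_combination h
    rcases mul_eq_zero.mp this with h1 | h1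
    · left; linear_combination h1
    · right; linear_combination h1

theorem coe_cre {q : ℕ} {χ : DirichletCharacter ℂ q} (h2 : χ ^ 2 = 1) (n : ℕ) :
    ((cre χ n : ℝ) : ℂ) = χ n := by
  unfold cre
  rcases real_val h2 (n : ZMod q) with h | h | h <;> rw [h] <;> simp

theorem rc_cre {q : ℕ} [NeZero q] {χ : DirichletCharacter ℂ q} (h2 : χ ^ 2 = 1) (h1 : χ ≠ 1) :
    RC (cre χ) q where
  one := by simp [cre]
  mul := by
    intro m n
    have h : ((cre χ (m * n) : ℝ) : ℂ) = ((cre χ m * cre χ n : ℝ) : ℂ) := by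
      rw [Complex.ofReal_mul, coe_cre h2, coe_cre h2, coe_cre h2]
      push_cast
      rw [map_mul]
    exact_mod_cast h
  abs := by
    intro n
    unfold cre
    exact (Complex.abs_re_le_norm _).trans (DirichletCharacter.norm_le_one χ n)
  sum := by
    intro M N
    have h : ∑ k ∈ Ioc M N, cre χ k = (∑ k ∈ Ioc M N, χ k).re := by
      unfold cre
      rw [Complex.re_sum]
    rw [h]
    exact (Complex.abs_re_le_norm _).trans (char_sum_le q χ h1 M N)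

/-- The `L`-value for `σ > 1`. -/
theorem Lf_eq_Lr {q : ℕ} [NeZero q] {χ : DirichletCharacter ℂ q} (h2 : χ ^ 2 = 1) (h1 : χ ≠ 1)
    (σ : ℝ) (hσ : 1 < σ) : Lf χ 0 (σ : ℂ) = ((Lr (cre χ) σ : ℝ) : ℂ) := by
  have hs : LSeriesSummable (fun n => χ n) (σ : ℂ) :=
    DirichletCharacter.LSeriesSummable_of_one_lt_re _ (by simpa using hσ)
  have h3 := hs.hasSum.tendsto_sum_nat
  have h4 : Tendsto (fun n => ∑ i ∈ range (n + 1), LSeries.term (fun n => χ n) σ i) atTop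
      (nhds (LSeries (fun n => χ n) σ)) := (tendsto_add_atTop_iff_nat 1).mpr h3
  have h5 : ∀ K, ∑ i ∈ range (K + 1), LSeries.term (fun n => χ n) σ i
      = ((Sp (cre χ) σ K : ℝ) : ℂ) := by
    intro K
    rw [sum_range_succ']
    simp only [LSeries.term_zero, add_zero]
    rw [← Nat.Ico_zero_eq_range, sum_Ico_add' (fun k => LSeries.term (fun n => χ n) σ k) 0 K 1]
    have h8 : Ico (0 + 1) (K + 1) = Ioc 0 K := by
      ext n; simp only [mem_Ioc, mem_Ico]; omega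
    rw [h8]
    unfold Sp
    push_cast
    refine sum_congr rfl fun n hn => ?_
    rw [mem_Ioc] at hn
    rw [LSeries.term_of_ne_zero (by omega), coe_cre h2, Complex.ofReal_cpow (Nat.cast_nonneg _)]
    push_cast
    rw [Complex.cpow_neg, div_eq_mul_inv]
  simp only [h5] at h4
  have h6 : Tendsto (fun K => ((Sp (cre χ) σ K : ℝ) : ℂ)) atTop (nhds ((Lr (cre χ) σ : ℝ) : ℂ)) :=
    (Complex.continuous_ofReal.tendsto _).comp (Sp_tendsto (cre χ) q (rc_cre h2 h1).sum σ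
      (by linarith))
  rw [Lf_zero]
  exact tendsto_nhds_unique h4 h6

/-- `L(1, χ) ≠ 0`. -/
theorem Lr_one_ne_zero {q : ℕ} [NeZero q] {χ : DirichletCharacter ℂ q} (h2 : χ ^ 2 = 1)
    (h1 : χ ≠ 1) : Lr (cre χ) 1 ≠ 0 := by
  intro h0
  have hne := DirichletCharacter.LFunction_apply_one_ne_zero h1
  have hcont := (DirichletCharacter.differentiable_LFunction h1).continuous
  have hL : Tendsto (fun σ : ℝ => DirichletCharacter.LFunction χ (σ : ℂ))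
      (nhdsWithin 1 (Set.Ioi 1)) (nhds (DirichletCharacter.LFunction χ 1)) := by
    have h3 : Tendsto (fun σ : ℝ => DirichletCharacter.LFunction χ (σ : ℂ)) (nhds 1)
        (nhds (DirichletCharacter.LFunction χ ((1 : ℝ) : ℂ))) :=
      (hcont.comp Complex.continuous_ofReal).tendsto 1
    rw [Complex.ofReal_one] at h3
    exact h3.mono_left nhdsWithin_le_nhds
  have hR : Tendsto (fun σ : ℝ => ((Lr (cre χ) σ : ℝ) : ℂ)) (nhdsWithin 1 (Set.Ioi 1))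
      (nhds ((Lr (cre χ) 1 : ℝ) : ℂ)) := by
    apply (Complex.continuous_ofReal.tendsto _).comp
    have h3 := Lr_continuousOn (cre χ) q (rc_cre h2 h1).sum (1 / 2) (by norm_num)
    have h4 := h3 1 (by norm_num)
    exact h4.mono_left (nhdsWithin_mono _ (fun x hx => by
      have : (1 : ℝ) < x := hx
      show (1 / 2 : ℝ) ≤ x
      linarith))
  have heq : (fun σ : ℝ => DirichletCharacter.LFunction χ (σ : ℂ))
      =ᶠ[nhdsWithin 1 (Set.Ioi 1)] fun σ : ℝ => ((Lr (cre χ) σ : ℝ) : ℂ) := by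
    filter_upwards [self_mem_nhdsWithin] with σ hσ
    have hσ' : (1 : ℝ) < σ := hσ
    rw [DirichletCharacter.LFunction_eq_LSeries χ (by simpa using hσ'), ← Lf_zero,
      Lf_eq_Lr h2 h1 σ hσ']
  have h5 := tendsto_nhds_unique (hL.congr' heq) hR
  rw [h0] at h5
  exact hne (by simpa using h5)

theorem Lr_ne_zero_of_gt {q : ℕ} [NeZero q] {χ : DirichletCharacter ℂ q} (h2 : χ ^ 2 = 1)
    (h1 : χ ≠ 1) (σ : ℝ) (hσ : 1 < σ) : Lr (cre χ) σ ≠ 0 := by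
  intro h0
  have h3 := DirichletCharacter.LSeries_ne_zero_of_one_lt_re χ (s := (σ : ℂ)) (by simpa using hσ)
  rw [← Lf_zero, Lf_eq_Lr h2 h1 σ hσ, h0] at h3
  exact h3 (by simp)

theorem Lr_two_nonneg {q : ℕ} [NeZero q] {χ : DirichletCharacter ℂ q} (h2 : χ ^ 2 = 1)
    (h1 : χ ≠ 1) : 0 ≤ Lr (cre χ) 2 := by
  have hrc := rc_cre h2 h1
  apply ge_of_tendsto (Sp_tendsto (cre χ) q hrc.sum 2 (by norm_num))
  filter_upwards [eventually_ge_atTop 1] with N hN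
  have h3 : Sp (cre χ) 2 N = cre χ 1 * ((1 : ℕ) : ℝ) ^ (-2 : ℝ)
      + ∑ n ∈ Ioc 1 N, cre χ n * (n : ℝ) ^ (-2 : ℝ) := by
    unfold Sp
    rw [← Ioc_union_Ioc_eq_Ioc (Nat.zero_le 1) hN, sum_union (Ioc_disjoint_Ioc_of_le le_rfl)]
    congr 1
    have : Ioc 0 1 = {1} := rfl
    rw [this, sum_singleton]
  have h4 : |∑ n ∈ Ioc 1 N, cre χ n * (n : ℝ) ^ (-2 : ℝ)| ≤ 1 := by
    refine (abs_sum_le_sum_abs _ _).trans ?_
    have h5 : ∀ n ∈ Ioc 1 N, |cre χ n * (n : ℝ) ^ (-2 : ℝ)| ≤ ((n : ℝ) ^ 2)⁻¹ := by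
      intro n _
      rw [abs_mul, abs_of_nonneg (by positivity : (0 : ℝ) ≤ (n : ℝ) ^ (-2 : ℝ)),
        Real.rpow_neg (Nat.cast_nonneg _)]
      have := hrc.abs n
      have h6 : ((n : ℝ) ^ (2 : ℝ)) = (n : ℝ) ^ 2 := by norm_num
      rw [h6]
      calc |cre χ n| * ((n : ℝ) ^ 2)⁻¹ ≤ 1 * ((n : ℝ) ^ 2)⁻¹ := by gcongr
        _ = _ := one_mul _
    refine (sum_le_sum h5).trans ?_
    have h7 := sum_Ioc_inv_sq_le_sub (α := ℝ) (k := 1) (n := N) (by norm_num) hN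
    refine h7.trans ?_
    have : (0 : ℝ) ≤ (N : ℝ)⁻¹ := by positivity
    simp
  rw [h3, hrc.one]
  have := (abs_le.mp h4).1
  simp only [Nat.cast_one, Real.one_rpow, one_mul]
  linarith

/-- Positivity from non-vanishing. -/
theorem Lr_pos_of_ne {q : ℕ} [NeZero q] {χ : DirichletCharacter ℂ q} (h2 : χ ^ 2 = 1)
    (h1 : χ ≠ 1) (a : ℝ) (ha : 0 < a) (hne : ∀ x, a ≤ x → x ≤ 2 → Lr (cre χ) x ≠ 0) (x : ℝ)
    (hx : a ≤ x) (hx2 : x ≤ 2) : 0 < Lr (cre χ) x := by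
  by_contra hcon
  push Not at hcon
  have hcont := Lr_continuousOn (cre χ) q (rc_cre h2 h1).sum a ha
  have hc : ContinuousOn (Lr (cre χ)) (Set.Icc x 2) :=
    hcont.mono (fun y hy => hx.trans hy.1)
  have h3 := intermediate_value_Icc hx2 hc ⟨hcon, Lr_two_nonneg h2 h1⟩
  obtain ⟨z, hz, hz0⟩ := h3
  exact hne z (hx.trans hz.1) hz.2 hz0

theorem Lr_one_pos {q : ℕ} [NeZero q] {χ : DirichletCharacter ℂ q} (h2 : χ ^ 2 = 1)
    (h1 : χ ≠ 1) : 0 < Lr (cre χ) 1 := by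
  apply Lr_pos_of_ne h2 h1 1 one_pos _ 1 le_rfl (by norm_num)
  intro x hx _
  rcases eq_or_lt_of_le hx with h | h
  · rw [← h]; exact Lr_one_ne_zero h2 h1
  · exact Lr_ne_zero_of_gt h2 h1 x h

/-- The product of two characters, as a character modulo the product. -/
noncomputable def prodChar {q1 q2 : ℕ} (χ1 : DirichletCharacter ℂ q1)
    (χ2 : DirichletCharacter ℂ q2) : DirichletCharacter ℂ (q1 * q2) :=
  DirichletCharacter.changeLevel (dvd_mul_right q1 q2) χ1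
    * DirichletCharacter.changeLevel (dvd_mul_left q2 q1) χ2

theorem prodChar_apply {q1 q2 : ℕ} (χ1 : DirichletCharacter ℂ q1)
    (χ2 : DirichletCharacter ℂ q2) (n : ℕ) : prodChar χ1 χ2 n = χ1 n * χ2 n := by
  unfold prodChar
  rw [MulChar.mul_apply]
  by_cases h : Nat.Coprime n (q1 * q2)
  · have h' : IsCoprime (n : ℤ) ((q1 * q2 : ℕ) : ℤ) := by
      rw [Int.isCoprime_iff_gcd_eq_one]
      exact_mod_cast h
    have e1 := DirichletCharacter.changeLevel_eq_cast_of_dvd' χ1 (dvd_mul_right q1 q2) h'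
    have e2 := DirichletCharacter.changeLevel_eq_cast_of_dvd' χ2 (dvd_mul_left q2 q1) h'
    push_cast at e1 e2
    rw [e1, e2]
  · have h3 : ¬ IsUnit ((n : ℕ) : ZMod (q1 * q2)) := by
      rw [ZMod.isUnit_iff_coprime]
      exact h
    rw [MulChar.map_nonunit _ h3, zero_mul]
    rw [Nat.coprime_mul_iff_right, not_and_or] at h
    rcases h with h | h
    · have h4 : ¬ IsUnit ((n : ℕ) : ZMod q1) := by
        rw [ZMod.isUnit_iff_coprime]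
        exact h
      rw [MulChar.map_nonunit _ h4, zero_mul]
    · have h4 : ¬ IsUnit ((n : ℕ) : ZMod q2) := by
        rw [ZMod.isUnit_iff_coprime]
        exact h
      rw [MulChar.map_nonunit _ h4, mul_zero]

theorem prodChar_sq {q1 q2 : ℕ} {χ1 : DirichletCharacter ℂ q1}
    {χ2 : DirichletCharacter ℂ q2} (h1 : χ1 ^ 2 = 1) (h2 : χ2 ^ 2 = 1) :
    (prodChar χ1 χ2) ^ 2 = 1 := by
  unfold prodChar
  rw [mul_pow, ← map_pow, ← map_pow, h1, h2, map_one, map_one, one_mul]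

theorem cre_prodChar {q1 q2 : ℕ} {χ1 : DirichletCharacter ℂ q1}
    {χ2 : DirichletCharacter ℂ q2} (h1 : χ1 ^ 2 = 1) (h2 : χ2 ^ 2 = 1) (n : ℕ) :
    cre (prodChar χ1 χ2) n = cre χ1 n * cre χ2 n := by
  have h : ((cre (prodChar χ1 χ2) n : ℝ) : ℂ) = ((cre χ1 n * cre χ2 n : ℝ) : ℂ) := by
    rw [coe_cre (prodChar_sq h1 h2), Complex.ofReal_mul, coe_cre h1, coe_cre h2, prodChar_apply]
  exact_mod_cast h

theorem Lr_one_le {c : ℕ → ℝ} {Q : ℕ} (h : RC c Q) (hQ : 1 ≤ Q) :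
    Lr c 1 ≤ 2 + Real.log Q := by
  have h1 := Lr_spec c Q h.sum 1 one_pos Q
  have hQ0 : (0 : ℝ) < Q := by exact_mod_cast hQ
  have h2 : (Q : ℝ) * ((Q : ℝ) + 1) ^ (-1 : ℝ) ≤ 1 := by
    rw [Real.rpow_neg_one, ← div_eq_mul_inv, div_le_one (by positivity)]
    linarith
  have h3 : Sp c 1 Q ≤ 1 + Real.log Q := by
    have h4 : Sp c 1 Q ≤ ∑ n ∈ Ioc 0 Q, (n : ℝ)⁻¹ := by
      unfold Sp
      refine sum_le_sum fun n _ => ?_
      rw [Real.rpow_neg_one]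
      calc c n * (n : ℝ)⁻¹ ≤ 1 * (n : ℝ)⁻¹ := by
            gcongr
            exact (le_abs_self _).trans (h.abs n)
        _ = _ := one_mul _
    exact h4.trans (sum_inv_le' Q)
  have := (abs_le.mp h1).1
  linarith

theorem EW_le (β : ℝ) (Q1 : ℝ) (hQ1 : 1 ≤ Q1) (Q2 : ℝ) (hQ2 : 1 ≤ Q2) :
    EW β Q1 Q2 (Q1 * Q2) ≤ EW β Q1 1 Q1 * Q2 ^ 2 := by
  have h1 : EH Q2 (Q1 * Q2) ≤ EH 1 Q1 * Q2 ^ 2 := by
    unfold EH
    nlinarith [mul_nonneg (by linarith : 0 ≤ Q2) (by linarith : 0 ≤ Q2 - 1),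
      mul_nonneg (mul_nonneg (by linarith : 0 ≤ Q1) (by linarith : 0 ≤ Q2))
        (by linarith : 0 ≤ Q2 - 1)]
  have h2 : EG β Q1 ≤ EG β Q1 * Q2 ^ 2 := by
    apply le_mul_of_one_le_right
    · unfold EG
      positivity
    · exact one_le_pow₀ hQ2
  unfold EW
  have h3 : 0 ≤ |1 / (1 - β)| * Q1 := by positivity
  have h4 : 0 ≤ |Zr β| * Q1 := by positivity
  calc _ ≤ 2 * (|1 / (1 - β)| * Q1) * (EH 1 Q1 * Q2 ^ 2) + 2 * (|Zr β| * Q1) * (EH 1 Q1 * Q2 ^ 2)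
        + EG β Q1 * Q2 ^ 2 * (16 * 16) + 4 * (EH 1 Q1 * Q2 ^ 2) * (16 * 16) := by
        gcongr
    _ = _ := by ring

/-- Siegel's lower bound at a fixed pair `(χ₁, β)`. -/
theorem siegel_fixed (ε : ℝ) (hε : 0 < ε) {q1 : ℕ} [NeZero q1] {χ1 : DirichletCharacter ℂ q1}
    (h11 : χ1 ^ 2 = 1) (h12 : χ1 ≠ 1) (β : ℝ) (hβ : 31 / 32 ≤ β) (hβ1 : β < 1)
    (hβε : 1 - β ≤ 5 * ε / 128) :
    ∃ c : ℝ, 0 < c ∧ ∀ (q2 : ℕ) [NeZero q2] (χ2 : DirichletCharacter ℂ q2), χ2 ^ 2 = 1 → χ2 ≠ 1 →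
      prodChar χ1 χ2 ≠ 1 →
      0 ≤ Lr (cre χ1) β * (Lr (cre χ2) β * Lr (cre (prodChar χ1 χ2)) β) →
      c * (q2 : ℝ) ^ (-ε) ≤ Lr (cre χ2) 1 := by
  have hβ' : 0 < 1 - β := by linarith
  have hQ1 : (1 : ℝ) ≤ q1 := by exact_mod_cast Nat.pos_of_ne_zero (NeZero.ne q1)
  set CW := EW β q1 1 q1 with hCW
  have hCW1 : 1 ≤ CW := by
    rw [hCW]
    unfold EW EG EH
    have : (0:ℝ) ≤ q1 := by linarith
    have h5 : 0 ≤ 2 * (|1 / (1 - β)| * (q1 : ℝ)) * (2 * 1 * q1 + 16 * 1 + 64 * q1)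
      + 2 * (|Zr β| * q1) * (2 * 1 * q1 + 16 * 1 + 64 * q1)
      + (2 * |1 / (1 - β)| * q1 + 2 * |Zr β| * q1 + 4 * q1 * 16) * (16 * 16)
      + 4 * (2 * 1 * q1 + 16 * 1 + 64 * q1) * (16 * 16) := by positivity
    linarith
  set L1 := Lr (cre χ1) 1 with hL1
  have hL1pos : 0 < L1 := Lr_one_pos h11 h12
  set D := 2 + Real.log q1 + 2 / ε with hD
  have hD0 : 0 < D := by
    have : 0 ≤ Real.log q1 := Real.log_nonneg hQ1
    positivity
  set κ := 32 / 5 * (1 - β) with hκ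
  have hκ0 : 0 < κ := by positivity
  have hκε : 2 * κ ≤ ε / 2 := by rw [hκ]; linarith
  refine ⟨(1 - β) / 2 * (2 * CW) ^ (-κ) / (L1 * D), by positivity, ?_⟩
  intro q2 _ χ2 h21 h22 h33 hsign
  have hQ2 : (1 : ℝ) ≤ q2 := by exact_mod_cast Nat.pos_of_ne_zero (NeZero.ne q2)
  have hQ20 : (0 : ℝ) < q2 := by linarith
  have : NeZero (q1 * q2) := ⟨Nat.mul_ne_zero (NeZero.ne q1) (NeZero.ne q2)⟩
  have h31 := prodChar_sq h11 h21
  have rc1 := rc_cre h11 h12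
  have rc2 := rc_cre h21 h22
  have rc3 := rc_cre h31 h33
  have hcore := siegel_core rc1 rc2 rc3 (cre_prodChar h11 h21) β hβ hβ1 hsign
  set L2 := Lr (cre χ2) 1 with hL2
  set L3 := Lr (cre (prodChar χ1 χ2)) 1 with hL3
  have hL2pos : 0 < L2 := Lr_one_pos h21 h22
  have hL3pos : 0 < L3 := Lr_one_pos h31 h33
  have hL3le : L3 ≤ D * (q2 : ℝ) ^ (ε / 2) := by
    have h3 := Lr_one_le rc3 (Nat.pos_of_ne_zero (NeZero.ne (q1 * q2)))
    have h4 : Real.log ((q1 * q2 : ℕ) : ℝ) = Real.log q1 + Real.log q2 := by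
      push_cast
      exact Real.log_mul (by linarith) (by linarith)
    rw [h4] at h3
    have h5 := Real.log_le_rpow_div hQ20.le (show 0 < ε / 2 by positivity)
    have h6 : (1 : ℝ) ≤ (q2 : ℝ) ^ (ε / 2) := Real.one_le_rpow hQ2 (by positivity)
    have h7 : 0 ≤ Real.log q1 := Real.log_nonneg hQ1
    have h8 : (q2 : ℝ) ^ (ε / 2) / (ε / 2) = 2 / ε * (q2 : ℝ) ^ (ε / 2) := by
      field_simp
    rw [h8] at h5
    calc L3 ≤ 2 + (Real.log q1 + Real.log q2) := h3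
      _ ≤ (2 + Real.log q1) * (q2 : ℝ) ^ (ε / 2) + 2 / ε * (q2 : ℝ) ^ (ε / 2) := by
          have : 2 + Real.log q1 ≤ (2 + Real.log q1) * (q2 : ℝ) ^ (ε / 2) :=
            le_mul_of_one_le_right (by linarith) h6
          linarith
      _ = _ := by rw [hD]; ring
  have hEW : 2 * EW β (q1 : ℝ) (q2 : ℝ) ((q1 * q2 : ℕ) : ℝ) ≤ 2 * CW * (q2 : ℝ) ^ 2 := by
    push_cast
    have := EW_le β q1 hQ1 q2 hQ2
    linarith
  have hEW0 : 0 < 2 * EW β (q1 : ℝ) (q2 : ℝ) ((q1 * q2 : ℕ) : ℝ) := by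
    unfold EW EG EH
    have h1 : (0 : ℝ) ≤ q1 := by linarith
    have h2 : (0 : ℝ) ≤ ((q1 * q2 : ℕ) : ℝ) := Nat.cast_nonneg _
    have h5 : 0 ≤ 2 * (|1 / (1 - β)| * (q1 : ℝ)) * (2 * q2 * ((q1 * q2 : ℕ) : ℝ) + 16 * q2
        + 64 * ((q1 * q2 : ℕ) : ℝ))
      + 2 * (|Zr β| * q1) * (2 * q2 * ((q1 * q2 : ℕ) : ℝ) + 16 * q2 + 64 * ((q1 * q2 : ℕ) : ℝ))
      + (2 * |1 / (1 - β)| * q1 + 2 * |Zr β| * q1 + 4 * q1 * 16) * (16 * 16)
      + 4 * (2 * q2 * ((q1 * q2 : ℕ) : ℝ) + 16 * q2 + 64 * ((q1 * q2 : ℕ) : ℝ)) * (16 * 16) := by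
      positivity
    linarith
  have h1 : (2 * CW) ^ (-κ) * (q2 : ℝ) ^ (-(ε / 2))
      ≤ (2 * EW β (q1 : ℝ) (q2 : ℝ) ((q1 * q2 : ℕ) : ℝ)) ^ (-κ) := by
    calc (2 * CW) ^ (-κ) * (q2 : ℝ) ^ (-(ε / 2))
        ≤ (2 * CW) ^ (-κ) * (q2 : ℝ) ^ (-(2 * κ)) := by
          gcongr
      _ = (2 * CW * (q2 : ℝ) ^ 2) ^ (-κ) := by
          have h9 : ((q2 : ℝ) ^ 2) ^ (-κ) = (q2 : ℝ) ^ (-(2 * κ)) := by
            rw [← Real.rpow_natCast (q2 : ℝ) 2, ← Real.rpow_mul hQ20.le]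
            congr 1
            push_cast
            ring
          rw [← h9, Real.mul_rpow (x := 2 * CW) (by positivity) (by positivity)]
      _ ≤ _ := Real.rpow_le_rpow_of_nonpos hEW0 hEW (by linarith)
  have h2 : (1 - β) / 2 * ((2 * CW) ^ (-κ) * (q2 : ℝ) ^ (-(ε / 2))) ≤ L1 * (L2 * L3) := by
    refine le_trans ?_ hcore
    gcongr
  have h3 : L1 * (L2 * L3) ≤ L1 * (L2 * (D * (q2 : ℝ) ^ (ε / 2))) := by gcongr
  have h4 := h2.trans h3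
  have hqp : 0 < (q2 : ℝ) ^ (ε / 2) := by positivity
  have h5 : (q2 : ℝ) ^ (-ε) = (q2 : ℝ) ^ (-(ε / 2)) / (q2 : ℝ) ^ (ε / 2) := by
    rw [← Real.rpow_sub hQ20]
    congr 1
    ring
  rw [h5]
  have h6 : (1 - β) / 2 * (2 * CW) ^ (-κ) / (L1 * D) * ((q2 : ℝ) ^ (-(ε / 2)) / (q2 : ℝ) ^ (ε / 2))
      = ((1 - β) / 2 * ((2 * CW) ^ (-κ) * (q2 : ℝ) ^ (-(ε / 2)))) / (L1 * D * (q2 : ℝ) ^ (ε / 2)) := by
    field_simp
  rw [h6, div_le_iff₀ (by positivity)]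
  linarith

/-- **Siegel's theorem**: either there are no non-principal real characters at all, or there is a
fixed non-principal real character `χ₁` such that `L(1, χ) ≥ c q^{-ε}` for all non-principal real
`χ` for which `χ₁ χ` is non-principal. -/
theorem siegel (ε : ℝ) (hε : 0 < ε) :
    (∀ (q : ℕ) [NeZero q] (χ : DirichletCharacter ℂ q), χ ^ 2 = 1 → χ = 1) ∨
    ∃ (q1 : ℕ) (_ : NeZero q1) (χ1 : DirichletCharacter ℂ q1), χ1 ^ 2 = 1 ∧ χ1 ≠ 1 ∧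
      ∃ c : ℝ, 0 < c ∧ ∀ (q2 : ℕ) [NeZero q2] (χ2 : DirichletCharacter ℂ q2), χ2 ^ 2 = 1 → χ2 ≠ 1 →
        prodChar χ1 χ2 ≠ 1 → c * (q2 : ℝ) ^ (-ε) ≤ Lr (cre χ2) 1 := by
  by_cases hno : ∀ (q : ℕ) [NeZero q] (χ : DirichletCharacter ℂ q), χ ^ 2 = 1 → χ = 1
  · left; exact hno
  right
  push Not at hno
  obtain ⟨q0, hq0, χ0, h01, h02⟩ := hno
  set b0 : ℝ := max (31 / 32) (1 - 5 * ε / 128) with hb0
  have hb1 : 31 / 32 ≤ b0 := le_max_left _ _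
  have hb2 : 1 - 5 * ε / 128 ≤ b0 := le_max_right _ _
  have hb3 : b0 < 1 := max_lt (by norm_num) (by linarith)
  by_cases hA : ∃ (q1 : ℕ) (_ : NeZero q1) (χ1 : DirichletCharacter ℂ q1) (β : ℝ), χ1 ^ 2 = 1 ∧
      χ1 ≠ 1 ∧ b0 ≤ β ∧ β < 1 ∧ Lr (cre χ1) β = 0
  · obtain ⟨q1, hq1, χ1, β, h11, h12, hβ0, hβ1, hz⟩ := hA
    obtain ⟨c, hc, H⟩ := siegel_fixed ε hε h11 h12 β (by linarith) hβ1 (by linarith)
    refine ⟨q1, hq1, χ1, h11, h12, c, hc, ?_⟩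
    intro q2 _ χ2 h21 h22 h33
    apply H q2 χ2 h21 h22 h33
    rw [hz, zero_mul]
  · push Not at hA
    obtain ⟨c, hc, H⟩ := siegel_fixed ε hε h01 h02 b0 hb1 hb3 (by linarith)
    refine ⟨q0, hq0, χ0, h01, h02, c, hc, ?_⟩
    intro q2 _ χ2 h21 h22 h33
    apply H q2 χ2 h21 h22 h33
    have hpos : ∀ (q : ℕ) [NeZero q] (χ : DirichletCharacter ℂ q), χ ^ 2 = 1 → χ ≠ 1 →
        0 < Lr (cre χ) b0 := by
      intro q _ χ h1 h2
      apply Lr_pos_of_ne h1 h2 b0 (by linarith) _ b0 le_rfl (by linarith)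
      intro x hx hx2
      rcases lt_trichotomy x 1 with h | h | h
      · exact hA q inferInstance χ x h1 h2 hx h
      · rw [h]; exact Lr_one_ne_zero h1 h2
      · exact Lr_ne_zero_of_gt h1 h2 x h
    have : NeZero (q0 * q2) := ⟨Nat.mul_ne_zero (NeZero.ne q0) (NeZero.ne q2)⟩
    have e1 := hpos q0 χ0 h01 h02
    have e2 := hpos q2 χ2 h21 h22
    have e3 := hpos (q0 * q2) (prodChar χ0 χ2) (prodChar_sq h01 h21) h33
    positivity

end Pool.Agent.SW
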