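import Pool.Agent.Work.SW.Lower

/-!
Bounds for `∑ Λ(n) χ(n) (log n)^k n^{-s}` from bounds for the derivatives of `L(s, χ)` and a lower
bound for `L(s, χ)`.
-/

set_option autoImplicit false

namespace Pool.Agent.SW

open Finset ArithmeticFunction

theorem summable_of_log (f : ℕ → ℂ) (k : ℕ) (hf : ∀ n, ‖f n‖ ≤ (Real.log n) ^ k) (s : ℂ)
    (hs : 1 < s.re) : LSeriesSummable f s := by
  obtain ⟨x, hx1, hx2⟩ := exists_between hs
  apply LSeriesSummable_of_isBigO_rpow hx2
  have h1 : (fun n : ℕ => (Real.log n) ^ k) =o[Filter.atTop] fun n : ℕ => (n : ℝ) ^ (x - 1) := by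
    have h2 := isLittleO_log_rpow_rpow_atTop (k : ℝ) (show 0 < x - 1 by linarith)
    have h3 := h2.comp_tendsto tendsto_natCast_atTop_atTop
    refine h3.congr' ?_ ?_
    · filter_upwards with n
      simp
    · filter_upwards with n
      rfl
  refine Asymptotics.IsBigO.trans ?_ h1.isBigO
  apply Asymptotics.IsBigO.of_bound 1
  filter_upwards with n
  rw [one_mul]
  exact (hf n).trans (le_abs_self _)

/-- `∑ Λ(n) χ(n) (log n)^k n^{-s}`. -/
noncomputable def Af {q : ℕ} (χ : DirichletCharacter ℂ q) (k : ℕ) (s : ℂ) : ℂ :=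
  LSeries (fun n => (Λ n : ℂ) * χ n * (Real.log n : ℂ) ^ k) s

theorem norm_af_le {q : ℕ} (χ : DirichletCharacter ℂ q) (k : ℕ) (n : ℕ) :
    ‖(Λ n : ℂ) * χ n * (Real.log n : ℂ) ^ k‖ ≤ (Real.log n) ^ (k + 1) := by
  have hlog : 0 ≤ Real.log n := Real.log_natCast_nonneg n
  rw [norm_mul, norm_mul, norm_pow, Complex.norm_real, Complex.norm_real, Real.norm_eq_abs,
    Real.norm_eq_abs, abs_of_nonneg hlog, abs_of_nonneg vonMangoldt_nonneg]
  calc Λ n * ‖χ n‖ * (Real.log n) ^ k ≤ Real.log n * 1 * (Real.log n) ^ k := by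
        gcongr
        · exact vonMangoldt_le_log
        · exact DirichletCharacter.norm_le_one χ n
    _ = _ := by ring

theorem norm_lf_le {q : ℕ} (χ : DirichletCharacter ℂ q) (k : ℕ) (n : ℕ) :
    ‖χ n * (Real.log n : ℂ) ^ k‖ ≤ (Real.log n) ^ k := by
  have hlog : 0 ≤ Real.log n := Real.log_natCast_nonneg n
  rw [norm_mul, norm_pow, Complex.norm_real, Real.norm_eq_abs, abs_of_nonneg hlog]
  calc ‖χ n‖ * (Real.log n) ^ k ≤ 1 * (Real.log n) ^ k := by
        gcongr
        exact DirichletCharacter.norm_le_one χ n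
    _ = _ := one_mul _

/-- The coefficient identity. -/
theorem coeff_id {q : ℕ} (χ : DirichletCharacter ℂ q) (k n : ℕ) :
    χ n * (Real.log n : ℂ) ^ (k + 1) = ∑ j ∈ range (k + 1), (k.choose j : ℂ) *
      ∑ p ∈ n.divisorsAntidiagonal, ((Λ p.1 : ℂ) * χ p.1 * (Real.log p.1 : ℂ) ^ j)
        * (χ p.2 * (Real.log p.2 : ℂ) ^ (k - j)) := by
  rcases eq_or_ne n 0 with rfl | hn
  · simp
  have h1 : ∀ j ∈ range (k + 1), (k.choose j : ℂ) *
      ∑ p ∈ n.divisorsAntidiagonal, ((Λ p.1 : ℂ) * χ p.1 * (Real.log p.1 : ℂ) ^ j)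
        * (χ p.2 * (Real.log p.2 : ℂ) ^ (k - j))
      = ∑ p ∈ n.divisorsAntidiagonal, (χ n * (Λ p.1 : ℂ)) *
        ((Real.log p.1 : ℂ) ^ j * (Real.log p.2 : ℂ) ^ (k - j) * (k.choose j : ℂ)) := by
    intro j _
    rw [mul_sum]
    refine sum_congr rfl fun p hp => ?_
    have hp1 := (Nat.mem_divisorsAntidiagonal.mp hp).1
    rw [← hp1, Nat.cast_mul, map_mul]
    ring
  rw [sum_congr rfl h1, sum_comm]
  have h2 : ∀ p ∈ n.divisorsAntidiagonal, ∑ j ∈ range (k + 1), (χ n * (Λ p.1 : ℂ)) *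
        ((Real.log p.1 : ℂ) ^ j * (Real.log p.2 : ℂ) ^ (k - j) * (k.choose j : ℂ))
      = χ n * (Real.log n : ℂ) ^ k * (Λ p.1 : ℂ) := by
    intro p hp
    have hp1 := (Nat.mem_divisorsAntidiagonal.mp hp)
    rw [← mul_sum, ← add_pow]
    have h3 : (Real.log p.1 : ℂ) + (Real.log p.2 : ℂ) = (Real.log n : ℂ) := by
      rw [← Complex.ofReal_add, ← Real.log_mul, ← Nat.cast_mul, hp1.1]
      · intro h
        have : p.1 = 0 := by exact_mod_cast h
        rw [this, zero_mul] at hp1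
        exact hp1.2 hp1.1.symm
      · intro h
        have : p.2 = 0 := by exact_mod_cast h
        rw [this, mul_zero] at hp1
        exact hp1.2 hp1.1.symm
    rw [h3]
    ring
  rw [sum_congr rfl h2, ← mul_sum]
  have h4 : ∑ p ∈ n.divisorsAntidiagonal, (Λ p.1 : ℂ) = (Real.log n : ℂ) := by
    rw [← Complex.ofReal_sum, Nat.sum_divisorsAntidiagonal (fun i _ => Λ i), vonMangoldt_sum]
  rw [h4]
  ring

theorem Lf_succ {q : ℕ} (χ : DirichletCharacter ℂ q) (k : ℕ) (s : ℂ) (hs : 1 < s.re) :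
    Lf χ (k + 1) s = ∑ j ∈ range (k + 1), (k.choose j : ℂ) * (Af χ j s * Lf χ (k - j) s) := by
  have hA : ∀ j, LSeriesSummable (fun n => (Λ n : ℂ) * χ n * (Real.log n : ℂ) ^ j) s :=
    fun j => summable_of_log _ (j + 1) (norm_af_le χ j) s hs
  have hL : ∀ j, LSeriesSummable (fun n => χ n * (Real.log n : ℂ) ^ j) s :=
    fun j => summable_of_log _ j (norm_lf_le χ j) s hs
  have h1 : ∀ j ∈ range (k + 1), (k.choose j : ℂ) * (Af χ j s * Lf χ (k - j) s)
      = LSeries ((k.choose j : ℂ) • LSeries.convolution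
          (fun n => (Λ n : ℂ) * χ n * (Real.log n : ℂ) ^ j)
          (fun n => χ n * (Real.log n : ℂ) ^ (k - j))) s := by
    intro j _
    rw [LSeries_smul, LSeries_convolution' (hA j) (hL (k - j))]
    rfl
  rw [sum_congr rfl h1, ← LSeries_sum]
  · unfold Lf
    apply LSeries_congr
    intro n _
    rw [coeff_id, Finset.sum_apply]
    refine sum_congr rfl fun j _ => ?_
    rw [Pi.smul_apply, smul_eq_mul, LSeries.convolution_def]
  · intro j _
    exact ((hA j).convolution (hL (k - j))).smul _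

/-- The abstract bound: `‖A_k‖ ≤ C_k (M/δ)^{k+1}`. -/
noncomputable def CA : ℕ → ℝ
  | k => 1 + ∑ j : Fin k, (k.choose j : ℝ) * CA j

theorem CA_pos (k : ℕ) : 1 ≤ CA k := by
  induction k using Nat.strong_induction_on with
  | _ k ih =>
    rw [CA]
    have : 0 ≤ ∑ j : Fin k, (k.choose j : ℝ) * CA j := by
      apply sum_nonneg
      intro j _
      have := ih j j.2
      positivity
    linarith

theorem Af_bound {q : ℕ} (χ : DirichletCharacter ℂ q) (s : ℂ) (hs : 1 < s.re) (M δ : ℝ)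
    (hM : 1 ≤ M) (hδ : 0 < δ) (hδ1 : δ ≤ 1) (hlow : δ ≤ ‖Lf χ 0 s‖) (k : ℕ)
    (hup : ∀ j, j ≤ k + 1 → ‖Lf χ j s‖ ≤ M) : ‖Af χ k s‖ ≤ CA k * (M / δ) ^ (k + 1) := by
  induction k using Nat.strong_induction_on with
  | _ k ih =>
    have h0 := Lf_succ χ k s hs
    rw [sum_range_succ, Nat.sub_self, Nat.choose_self, Nat.cast_one, one_mul] at h0
    have h1 : Af χ k s * Lf χ 0 s = Lf χ (k + 1) s
        - ∑ j ∈ range k, (k.choose j : ℂ) * (Af χ j s * Lf χ (k - j) s) := by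
      rw [h0]
      ring
    have hR : 1 ≤ M / δ := by
      rw [le_div_iff₀ hδ]
      linarith
    have h2 : ‖Af χ k s‖ * ‖Lf χ 0 s‖ ≤ M * (1 + ∑ j : Fin k, (k.choose j : ℝ) * CA j)
        * (M / δ) ^ k := by
      rw [← norm_mul, h1]
      refine (norm_sub_le _ _).trans ?_
      have h3 : ‖∑ j ∈ range k, (k.choose j : ℂ) * (Af χ j s * Lf χ (k - j) s)‖
          ≤ ∑ j ∈ range k, (k.choose j : ℝ) * CA j * ((M / δ) ^ k * M) := by
        refine (norm_sum_le _ _).trans (sum_le_sum fun j hj => ?_)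
        rw [mem_range] at hj
        rw [norm_mul, norm_mul, Complex.norm_natCast]
        have h4 := ih j hj (fun i hi => hup i (by omega))
        have h5 := hup (k - j) (by omega)
        have h6 : (M / δ) ^ (j + 1) ≤ (M / δ) ^ k := pow_le_pow_right₀ hR (by omega)
        have h7 := CA_pos j
        calc _ ≤ (k.choose j : ℝ) * ((CA j * (M / δ) ^ (j + 1)) * M) := by gcongr
          _ ≤ (k.choose j : ℝ) * ((CA j * (M / δ) ^ k) * M) := by gcongr
          _ = _ := by ring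
      rw [← Fin.sum_univ_eq_sum_range (fun j => (k.choose j : ℝ) * CA j * ((M / δ) ^ k * M)) k,
        ← sum_mul] at h3
      have h8 : ‖Lf χ (k + 1) s‖ ≤ M * (M / δ) ^ k := by
        refine (hup (k + 1) le_rfl).trans ?_
        apply le_mul_of_one_le_right (by linarith)
        exact one_le_pow₀ hR
      calc _ ≤ M * (M / δ) ^ k + (∑ j : Fin k, (k.choose j : ℝ) * CA j) * ((M / δ) ^ k * M) :=
            add_le_add h8 h3
        _ = _ := by ring
    have h9 : ‖Af χ k s‖ * δ ≤ M * (1 + ∑ j : Fin k, (k.choose j : ℝ) * CA j) * (M / δ) ^ k := by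
      refine le_trans ?_ h2
      gcongr
    rw [← le_div_iff₀ hδ] at h9
    refine h9.trans (le_of_eq ?_)
    conv_rhs => rw [CA]
    rw [pow_succ]
    ring

end Pool.Agent.SW
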