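import Pool.Agent.Work.SW.Perron
import Pool.Agent.Work.SW.LogDer

/-!
From bounds for the Dirichlet series `∑ b(n) (log n)^k n^{-s}` on `1 < Re s ≤ 2` to bounds for
`∑_{n ≤ X} b(n)`.
-/

set_option autoImplicit false

namespace Pool.Agent.SW

open Finset

theorem one_le_log {X : ℝ} (hX : 3 ≤ X) : 1 ≤ Real.log X := by
  rw [Real.le_log_iff_exp_le (by linarith)]
  linarith [Real.exp_one_lt_d9]

theorem rpow_sigma (X : ℝ) (hX : 3 ≤ X) : X ^ (1 + 1 / Real.log X) ≤ 3 * X := by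
  have hX0 : 0 < X := by linarith
  have hlog := one_le_log hX
  rw [Real.rpow_add hX0, Real.rpow_one, Real.rpow_def_of_pos hX0,
    mul_one_div_cancel (by linarith)]
  nlinarith [Real.exp_one_lt_d9]

theorem sum_bound (a : ℕ → ℂ) (k : ℕ) (ha : ∀ n, ‖a n‖ ≤ (Real.log n) ^ k) (M : ℝ) (hM0 : 0 ≤ M)
    (hM : ∀ σ y : ℝ, 1 < σ → σ ≤ 2 → ‖LSeries a ((σ : ℂ) + y * Complex.I)‖ ≤ M * √(|y| + 3))
    (X H : ℝ) (hX : 3 ≤ X) (hH : 1 ≤ H) (hHX : H ≤ X) :
    ‖∑ n ∈ Ioc 0 ⌊X⌋₊, a n‖ ≤ 27 * KP * M * X ^ 2 / H + 2 * H * (Real.log (2 * X)) ^ k := by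
  have hX0 : 0 < X := by linarith
  have hH0 : 0 < H := by linarith
  have hlog := one_le_log hX
  set σ := 1 + 1 / Real.log X with hσ
  have hσ1 : 1 < σ := by
    rw [hσ]
    have : 0 < 1 / Real.log X := by positivity
    linarith
  have hσ2 : σ ≤ 2 := by
    rw [hσ]
    have : 1 / Real.log X ≤ 1 := by rw [div_le_one (by linarith)]; exact hlog
    linarith
  have hsum : LSeriesSummable a σ := summable_of_log a k ha σ (by simpa using hσ1)
  have hP := fun Y hY => perron_bound a σ hσ1 hsum M hM0 (fun y => hM σ y hσ1 hσ2) Y hY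
  have hKP := KP_nonneg
  set S : ℝ → ℂ := fun Y => ∑ n ∈ Ioc 0 ⌊Y⌋₊, a n * ((Y - n : ℝ) : ℂ) with hS
  have hSn : ∀ Y : ℝ, 0 < Y → ‖S Y‖ ≤ Y * (KP * M * Y ^ σ) := by
    intro Y hY
    have h1 : S Y = (Y : ℂ) * ∑ n ∈ Ioc 0 ⌊Y⌋₊, a n * ((1 - n / Y : ℝ) : ℂ) := by
      simp only [hS]
      rw [mul_sum]
      refine sum_congr rfl fun n _ => ?_
      have hYc : (Y : ℂ) ≠ 0 := by exact_mod_cast hY.ne'
      push_cast
      field_simp
    rw [h1, norm_mul, Complex.norm_real, Real.norm_eq_abs, abs_of_pos hY]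
    gcongr
    exact hP Y hY
  have hXσ : X ^ σ ≤ 3 * X := rpow_sigma X hX
  have hS1 : ‖S X‖ ≤ 3 * KP * M * X ^ 2 := by
    refine (hSn X hX0).trans ?_
    calc X * (KP * M * X ^ σ) ≤ X * (KP * M * (3 * X)) := by gcongr
      _ = _ := by ring
  have hS2 : ‖S (X + H)‖ ≤ 24 * KP * M * X ^ 2 := by
    refine (hSn (X + H) (by linarith)).trans ?_
    have h1 : (X + H) ^ σ ≤ 12 * X := by
      calc (X + H) ^ σ ≤ (2 * X) ^ σ := by
            apply Real.rpow_le_rpow (by linarith) (by linarith) (by linarith)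
        _ = 2 ^ σ * X ^ σ := Real.mul_rpow (by norm_num) hX0.le
        _ ≤ 2 ^ (2 : ℝ) * (3 * X) := by
            gcongr
            norm_num
        _ = 12 * X := by norm_num; ring
    calc (X + H) * (KP * M * (X + H) ^ σ) ≤ (2 * X) * (KP * M * (12 * X)) := by
          gcongr
          linarith
      _ = _ := by ring
  have hfl : ⌊X⌋₊ ≤ ⌊X + H⌋₊ := Nat.floor_mono (by linarith)
  have hdiff : S (X + H) - S X = (H : ℂ) * ∑ n ∈ Ioc 0 ⌊X⌋₊, a n
      + ∑ n ∈ Ioc ⌊X⌋₊ ⌊X + H⌋₊, a n * ((X + H - n : ℝ) : ℂ) := by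
    simp only [hS]
    have h1 : Ioc 0 ⌊X + H⌋₊ = Ioc 0 ⌊X⌋₊ ∪ Ioc ⌊X⌋₊ ⌊X + H⌋₊ := by
      rw [Ioc_union_Ioc_eq_Ioc (Nat.zero_le _) hfl]
    rw [h1, sum_union (Ioc_disjoint_Ioc_of_le le_rfl), mul_sum, add_sub_right_comm,
      ← sum_sub_distrib]
    congr 1
    refine sum_congr rfl fun n _ => ?_
    push_cast
    ring
  have hE : ‖∑ n ∈ Ioc ⌊X⌋₊ ⌊X + H⌋₊, a n * ((X + H - n : ℝ) : ℂ)‖
      ≤ H * (2 * H * (Real.log (2 * X)) ^ k) := by
    refine (norm_sum_le _ _).trans ?_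
    have h1 : ∀ n ∈ Ioc ⌊X⌋₊ ⌊X + H⌋₊, ‖a n * ((X + H - n : ℝ) : ℂ)‖
        ≤ (Real.log (2 * X)) ^ k * H := by
      intro n hn
      rw [mem_Ioc] at hn
      have h2 : X < n := (Nat.floor_lt hX0.le).mp hn.1
      have h3 : (n : ℝ) ≤ X + H := (Nat.le_floor_iff (by linarith)).mp hn.2
      rw [norm_mul, Complex.norm_real, Real.norm_eq_abs, abs_of_nonneg (by linarith)]
      have h4 : Real.log n ≤ Real.log (2 * X) := Real.log_le_log (by linarith) (by linarith)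
      have h5 : 0 ≤ Real.log n := Real.log_natCast_nonneg n
      have h6 : 0 ≤ Real.log (2 * X) := h5.trans h4
      have h7 := ha n
      have h8 : (Real.log n) ^ k ≤ (Real.log (2 * X)) ^ k := by gcongr
      apply mul_le_mul (h7.trans h8) (by linarith) (by linarith) (by positivity)
    refine (sum_le_sum h1).trans ?_
    rw [sum_const, Nat.card_Ioc, nsmul_eq_mul]
    have h9 : ((⌊X + H⌋₊ - ⌊X⌋₊ : ℕ) : ℝ) ≤ 2 * H := by
      rw [Nat.cast_sub hfl]
      have e1 := Nat.floor_le (show 0 ≤ X + H by linarith)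
      have e2 := Nat.lt_floor_add_one X
      linarith
    have h10 : 0 ≤ Real.log (2 * X) := Real.log_nonneg (by linarith)
    calc _ ≤ (2 * H) * ((Real.log (2 * X)) ^ k * H) := by gcongr
      _ = _ := by ring
  have hB : H * ‖∑ n ∈ Ioc 0 ⌊X⌋₊, a n‖ ≤ 27 * KP * M * X ^ 2
      + H * (2 * H * (Real.log (2 * X)) ^ k) := by
    have h1 : (H : ℂ) * ∑ n ∈ Ioc 0 ⌊X⌋₊, a n
        = S (X + H) - S X - ∑ n ∈ Ioc ⌊X⌋₊ ⌊X + H⌋₊, a n * ((X + H - n : ℝ) : ℂ) := by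
      rw [hdiff]
      ring
    have h2 : H * ‖∑ n ∈ Ioc 0 ⌊X⌋₊, a n‖ = ‖(H : ℂ) * ∑ n ∈ Ioc 0 ⌊X⌋₊, a n‖ := by
      rw [norm_mul, Complex.norm_real, Real.norm_eq_abs, abs_of_pos hH0]
    rw [h2, h1]
    refine (norm_sub_le _ _).trans ?_
    refine add_le_add ((norm_sub_le _ _).trans ?_) hE
    linarith
  rw [← le_sub_iff_add_le] at *
  have h3 : ‖∑ n ∈ Ioc 0 ⌊X⌋₊, a n‖ ≤ (27 * KP * M * X ^ 2
      + H * (2 * H * (Real.log (2 * X)) ^ k)) / H := by
    rw [le_div_iff₀ hH0]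
    linarith
  refine h3.trans (le_of_eq ?_)
  field_simp

/-- Removing the weight `(log n)^k`. -/
theorem remove_log (b : ℕ → ℂ) (hb : ∀ n, ‖b n‖ ≤ Real.log n) (k : ℕ) (T X : ℝ) (hX : 9 ≤ X)
    (hT0 : 0 ≤ T)
    (hT : ∀ u : ℝ, √X ≤ u → u ≤ X → ‖∑ n ∈ Ioc 0 ⌊u⌋₊, b n * (Real.log n : ℂ) ^ k‖ ≤ T) :
    ‖∑ n ∈ Ioc 0 ⌊X⌋₊, b n‖ ≤ √X * Real.log X + 2 ^ (k + 1) * T / (Real.log X) ^ k := by
  have hX0 : 0 < X := by linarith
  have hs3 : 3 ≤ √X := Real.le_sqrt_of_sq_le (by linarith)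
  have hsX : √X ≤ X := by
    rw [Real.sqrt_le_left hX0.le]
    nlinarith
  have hs0 : 0 < √X := by linarith
  set m := ⌊√X⌋₊ with hm
  have hmX : m ≤ ⌊X⌋₊ := Nat.floor_mono hsX
  have hm3 : 3 ≤ m := Nat.le_floor (by exact_mod_cast hs3)
  have hsplit : ∑ n ∈ Ioc 0 ⌊X⌋₊, b n = ∑ n ∈ Ioc 0 m, b n + ∑ n ∈ Ioc m ⌊X⌋₊, b n := by
    rw [← sum_union (Ioc_disjoint_Ioc_of_le le_rfl), Ioc_union_Ioc_eq_Ioc (Nat.zero_le _) hmX]
  rw [hsplit]
  refine (norm_add_le _ _).trans (add_le_add ?_ ?_)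
  · refine (norm_sum_le _ _).trans ?_
    have h1 : ∀ n ∈ Ioc 0 m, ‖b n‖ ≤ Real.log X := by
      intro n hn
      rw [mem_Ioc] at hn
      refine (hb n).trans ?_
      have h2 : (n : ℝ) ≤ √X := (Nat.le_floor_iff hs0.le).mp hn.2
      apply Real.log_le_log (by exact_mod_cast hn.1) (h2.trans hsX)
    refine (sum_le_sum h1).trans ?_
    rw [sum_const, Nat.card_Ioc, nsmul_eq_mul, Nat.sub_zero]
    have h3 : (m : ℝ) ≤ √X := Nat.floor_le hs0.le
    have h4 : 0 ≤ Real.log X := Real.log_nonneg (by linarith)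
    gcongr
  · -- Abel summation
    set c : ℕ → ℂ := fun n => b n * (Real.log n : ℂ) ^ k with hc
    set g : ℕ → ℝ := fun n => ((Real.log n) ^ k)⁻¹ with hg
    have hlogpos : ∀ n : ℕ, m < n → 0 < Real.log n := by
      intro n hn
      apply Real.log_pos
      have : 1 < n := by omega
      exact_mod_cast this
    have h1 : ∑ n ∈ Ioc m ⌊X⌋₊, b n = ∑ n ∈ Ioc m ⌊X⌋₊, c n * (g n : ℂ) := by
      refine sum_congr rfl fun n hn => ?_
      rw [mem_Ioc] at hn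
      have h2 : (Real.log n : ℂ) ≠ 0 := by exact_mod_cast (hlogpos n hn.1).ne'
      simp only [hc, hg]
      rw [Complex.ofReal_inv, Complex.ofReal_pow]
      field_simp
    rw [h1]
    have hpart : ∀ n, m ≤ n → n ≤ ⌊X⌋₊ → ‖∑ j ∈ Ioc m n, c j‖ ≤ 2 * T := by
      intro n hn hn'
      have h2 : ∑ j ∈ Ioc m n, c j = ∑ j ∈ Ioc 0 n, c j - ∑ j ∈ Ioc 0 m, c j := by
        rw [← Ioc_union_Ioc_eq_Ioc (Nat.zero_le _) hn, sum_union (Ioc_disjoint_Ioc_of_le le_rfl)]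
        ring
      rw [h2]
      have h3 : ‖∑ j ∈ Ioc 0 m, c j‖ ≤ T := hT (√X) le_rfl hsX
      have h4 : ‖∑ j ∈ Ioc 0 n, c j‖ ≤ T := by
        rcases Nat.eq_or_lt_of_le hn with h | h
        · rw [← h]; exact h3
        · have h5 := hT n (by
            have : √X < n := (Nat.floor_lt hs0.le).mp h
            linarith) ((Nat.le_floor_iff hX0.le).mp hn')
          rwa [Nat.floor_natCast] at h5
      refine (norm_sub_le _ _).trans ?_
      linarith
    have h2 := abel_bound_anti c g m ⌊X⌋₊ hmX (2 * T) (by linarith) hpart ?_ ?_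
    · refine h2.trans ?_
      have h3 : √X < (m + 1 : ℕ) := by push_cast; exact Nat.lt_floor_add_one _
      have h4 : Real.log (√X) ≤ Real.log ((m + 1 : ℕ) : ℝ) := Real.log_le_log hs0 h3.le
      have h5 : Real.log (√X) = Real.log X / 2 := Real.log_sqrt hX0.le
      have hlogX : 0 < Real.log X := Real.log_pos (by linarith)
      simp only [hg]
      calc 2 * T * ((Real.log ((m + 1 : ℕ) : ℝ)) ^ k)⁻¹
          ≤ 2 * T * ((Real.log X / 2) ^ k)⁻¹ := by
            have h6 : (Real.log X / 2) ^ k ≤ (Real.log ((m + 1 : ℕ) : ℝ)) ^ k := by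
              rw [← h5]
              apply pow_le_pow_left₀ _ h4
              rw [h5]
              positivity
            have h7 : 0 < (Real.log X / 2) ^ k := by positivity
            have := inv_anti₀ h7 h6
            gcongr
        _ = 2 ^ (k + 1) * T / (Real.log X) ^ k := by
            rw [div_pow, inv_div]
            ring
    · intro n hn
      simp only [hg]
      have h6 := hlogpos n hn
      apply inv_anti₀ (by positivity)
      apply pow_le_pow_left₀ h6.le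
      apply Real.log_le_log (by exact_mod_cast (by omega : 0 < n))
      push_cast
      linarith
    · intro n hn
      simp only [hg]
      have h6 := hlogpos n hn
      positivity

/-- Final form: a bound for `∑_{n ≤ X} b(n)` from the growth of the twisted series. -/
theorem final_bound (b : ℕ → ℂ) (hb : ∀ n, ‖b n‖ ≤ Real.log n) (A : ℕ) (M : ℝ) (hM0 : 0 ≤ M)
    (hM : ∀ σ y : ℝ, 1 < σ → σ ≤ 2 →
      ‖LSeries (fun n => b n * (Real.log n : ℂ) ^ (2 * A + 2)) ((σ : ℂ) + y * Complex.I)‖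
        ≤ M * √(|y| + 3))
    (X : ℝ) (hX : 9 ≤ X) (hX2 : (Real.log X) ^ (A + 1) ≤ √X) :
    ‖∑ n ∈ Ioc 0 ⌊X⌋₊, b n‖ ≤ √X * Real.log X
      + 2 ^ (2 * A + 3) * (27 * KP * M / Real.log X + 2 ^ (2 * A + 4)) * (X / (Real.log X) ^ A) := by
  have hX0 : 0 < X := by linarith
  have hlog : 1 ≤ Real.log X := one_le_log (by linarith)
  have hlog0 : 0 < Real.log X := by linarith
  set k := 2 * A + 2 with hk
  set ℓ := Real.log X with hℓ
  have hKP := KP_nonneg
  set T := X * (27 * KP * M * ℓ ^ (A + 1) + 2 * (2 * ℓ) ^ (k + 1) / ℓ ^ (A + 1)) with hT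
  have hT0 : 0 ≤ T := by positivity
  have hs3 : 3 ≤ √X := Real.le_sqrt_of_sq_le (by linarith)
  have h1 := remove_log b hb k T X hX hT0 ?_
  · refine h1.trans ?_
    have h2 : 2 ^ (k + 1) * T / ℓ ^ k
        = 2 ^ (2 * A + 3) * (27 * KP * M / ℓ + 2 ^ (2 * A + 4)) * (X / ℓ ^ A) := by
      rw [hT, hk, mul_pow]
      have e1 : ℓ ^ (2 * A + 2) = ℓ ^ A * ℓ ^ A * ℓ ^ 2 := by ring
      have e2 : ℓ ^ (2 * A + 2 + 1) = ℓ ^ A * ℓ ^ A * ℓ ^ 3 := by ring
      have e3 : ℓ ^ (A + 1) = ℓ ^ A * ℓ := by ring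
      rw [e1, e2, e3]
      have hA : ℓ ^ A ≠ 0 := by positivity
      field_simp
      ring
    rw [h2]
  · intro u hu hu'
    have hu3 : 3 ≤ u := by linarith
    have hu0 : 0 < u := by linarith
    set H := u / ℓ ^ (A + 1) with hH
    have hH1 : 1 ≤ H := by
      rw [hH, le_div_iff₀ (by positivity)]
      linarith
    have hHu : H ≤ u := by
      rw [hH]
      exact div_le_self hu0.le (one_le_pow₀ hlog)
    have hnorm : ∀ n : ℕ, ‖b n * (Real.log n : ℂ) ^ k‖ ≤ (Real.log n) ^ (k + 1) := by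
      intro n
      have : 0 ≤ Real.log n := Real.log_natCast_nonneg n
      rw [norm_mul, norm_pow, Complex.norm_real, Real.norm_eq_abs, abs_of_nonneg this]
      calc ‖b n‖ * Real.log n ^ k ≤ Real.log n * Real.log n ^ k :=
            mul_le_mul_of_nonneg_right (hb n) (by positivity)
        _ = _ := by ring
    have h2 := sum_bound (fun n => b n * (Real.log n : ℂ) ^ k) (k + 1) hnorm M hM0 hM u H hu3 hH1 hHu
    refine h2.trans ?_
    have h3 : Real.log (2 * u) ≤ 2 * ℓ := by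
      calc Real.log (2 * u) ≤ Real.log (2 * X) := Real.log_le_log (by positivity) (by linarith)
        _ = Real.log 2 + ℓ := Real.log_mul (by norm_num) hX0.ne'
        _ ≤ 2 * ℓ := by linarith [Real.log_two_lt_d9]
    have h4 : 0 ≤ Real.log (2 * u) := Real.log_nonneg (by linarith)
    have h5 : 27 * KP * M * u ^ 2 / H = 27 * KP * M * ℓ ^ (A + 1) * u := by
      rw [hH]
      field_simp
    rw [h5, hT]
    calc 27 * KP * M * ℓ ^ (A + 1) * u + 2 * H * (Real.log (2 * u)) ^ (k + 1)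
        ≤ 27 * KP * M * ℓ ^ (A + 1) * X + 2 * (X / ℓ ^ (A + 1)) * (2 * ℓ) ^ (k + 1) := by
          have h6 : H ≤ X / ℓ ^ (A + 1) := by
            rw [hH]
            gcongr
          gcongr
      _ = _ := by ring

end Pool.Agent.SW
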