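import Pool.Agent.Work.SW.Growth
import Pool.Agent.Work.SW.Unsmooth

/-!
The Siegel–Walfisz theorem for all non-principal Dirichlet characters.
-/

set_option autoImplicit false

namespace Pool.Agent.SW

open Finset ArithmeticFunction

theorem norm_sum_trivial (b : ℕ → ℂ) (hb : ∀ n, ‖b n‖ ≤ Real.log n) (X : ℝ) (hX : 1 ≤ X) :
    ‖∑ n ∈ Ioc 0 ⌊X⌋₊, b n‖ ≤ X * Real.log X := by
  have hlog : 0 ≤ Real.log X := Real.log_nonneg hX
  calc ‖∑ n ∈ Ioc 0 ⌊X⌋₊, b n‖ ≤ ∑ n ∈ Ioc 0 ⌊X⌋₊, Real.log X := by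
        refine norm_sum_le_of_le _ fun n hn => (hb n).trans ?_
        rw [mem_Ioc] at hn
        apply Real.log_le_log (by exact_mod_cast hn.1)
        exact (Nat.cast_le.mpr hn.2).trans (Nat.floor_le (by linarith))
    _ = (⌊X⌋₊ : ℝ) * Real.log X := by rw [sum_const, Nat.card_Ioc, nsmul_eq_mul, Nat.sub_zero]
    _ ≤ X * Real.log X := by
        gcongr
        exact Nat.floor_le (by linarith)

theorem final_all (A : ℕ) : ∃ C : ℝ, 0 < C ∧ ∀ (b : ℕ → ℂ), (∀ n, ‖b n‖ ≤ Real.log n) →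
    ∀ M : ℝ, 0 ≤ M → (∀ σ y : ℝ, 1 < σ → σ ≤ 2 →
      ‖LSeries (fun n => b n * (Real.log n : ℂ) ^ (2 * A + 2)) ((σ : ℂ) + y * Complex.I)‖
        ≤ M * √(|y| + 3)) →
    ∀ X : ℝ, 2 ≤ X → ‖∑ n ∈ Ioc 0 ⌊X⌋₊, b n‖ ≤ C * (1 + M / Real.log X) *
      (X / (Real.log X) ^ A) := by
  have hKP := KP_nonneg
  -- constants
  obtain ⟨K, hK0, hK⟩ : ∃ K : ℝ, 0 < K ∧ ∀ X : ℝ, 1 ≤ X →
      (Real.log X) ^ (2 * (A + 1)) ≤ K * √X := by
    refine ⟨_, ?_, fun X hX => log_pow_le_sqrt (2 * (A + 1)) X hX⟩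
    positivity
  set E : ℝ := 2 ^ (2 * A + 3) * (27 * KP + 2 ^ (2 * A + 4)) with hE
  have hE0 : 0 ≤ E := by positivity
  set C : ℝ := K + 3 ^ (A + 1) + 1 + E with hC
  have hC0 : 0 < C := by positivity
  refine ⟨C, hC0, ?_⟩
  intro b hb M hM0 hM X hX
  have hlog : 0 < Real.log X := Real.log_pos (by linarith)
  have hMl : 0 ≤ M / Real.log X := by positivity
  have hXA : 0 ≤ X / (Real.log X) ^ A := by positivity
  have htriv := norm_sum_trivial b hb X (by linarith)
  have hX1 : X * Real.log X = (Real.log X) ^ (A + 1) * (X / (Real.log X) ^ A) := by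
    rw [pow_succ]
    field_simp
  have h30 : (0 : ℝ) < 3 ^ (A + 1) := by positivity
  have hCC : C ≤ C * (1 + M / Real.log X) := by nlinarith
  by_cases h9 : X < 9
  · rw [hX1] at htriv
    refine htriv.trans ?_
    gcongr
    have h1 : Real.log X ≤ 3 := by
      have h2 : Real.log X ≤ Real.log 9 := Real.log_le_log (by linarith) h9.le
      have h3 : Real.log 9 = 2 * Real.log 3 := by
        rw [show (9 : ℝ) = 3 ^ 2 by norm_num, Real.log_pow]; norm_num
      have h4 : Real.log 3 ≤ 3 / 2 := by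
        have := Real.log_le_sub_one_of_pos (show (0 : ℝ) < 3 / 2 by norm_num)
        have h5 : Real.log 3 = Real.log (3 / 2) + Real.log 2 := by
          rw [← Real.log_mul (by norm_num) (by norm_num)]; norm_num
        have h6 := Real.log_two_lt_d9
        linarith
      linarith
    calc (Real.log X) ^ (A + 1) ≤ 3 ^ (A + 1) := by gcongr
      _ ≤ C := by rw [hC]; linarith
      _ ≤ C * (1 + M / Real.log X) := hCC
  push Not at h9
  by_cases h10 : √X < (Real.log X) ^ (A + 1)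
  · rw [hX1] at htriv
    refine htriv.trans ?_
    gcongr
    have h1 := hK X (by linarith)
    have h2 : (Real.log X) ^ (A + 1) * (Real.log X) ^ (A + 1) ≤ K * (Real.log X) ^ (A + 1) := by
      calc (Real.log X) ^ (A + 1) * (Real.log X) ^ (A + 1) = (Real.log X) ^ (2 * (A + 1)) := by
            ring
        _ ≤ K * √X := h1
        _ ≤ K * (Real.log X) ^ (A + 1) := by gcongr
    have h3 : (Real.log X) ^ (A + 1) ≤ K := le_of_mul_le_mul_right h2 (by positivity)
    calc (Real.log X) ^ (A + 1) ≤ C := by rw [hC]; linarith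
      _ ≤ C * (1 + M / Real.log X) := hCC
  push Not at h10
  have h := final_bound b hb A M hM0 hM X h9 h10
  have h1 : √X * Real.log X ≤ 1 * (X / (Real.log X) ^ A) := by
    rw [one_mul, le_div_iff₀ (by positivity)]
    calc √X * Real.log X * (Real.log X) ^ A = √X * (Real.log X) ^ (A + 1) := by ring
      _ ≤ √X * √X := by gcongr
      _ = X := Real.mul_self_sqrt (by linarith)
  have h2 : (2 : ℝ) ^ (2 * A + 3) * (27 * KP * M / Real.log X + 2 ^ (2 * A + 4))
      ≤ E * (1 + M / Real.log X) := by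
    have h3 : 27 * KP * M / Real.log X = 27 * KP * (M / Real.log X) := by ring
    have h4 : (0 : ℝ) ≤ 2 ^ (2 * A + 4) := by positivity
    have h5 : 27 * KP * M / Real.log X + 2 ^ (2 * A + 4)
        ≤ (27 * KP + 2 ^ (2 * A + 4)) * (1 + M / Real.log X) := by
      rw [h3]
      nlinarith [mul_nonneg h4 hMl, mul_nonneg hKP hMl]
    calc (2 : ℝ) ^ (2 * A + 3) * (27 * KP * M / Real.log X + 2 ^ (2 * A + 4))
        ≤ 2 ^ (2 * A + 3) * ((27 * KP + 2 ^ (2 * A + 4)) * (1 + M / Real.log X)) := by gcongr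
      _ = E * (1 + M / Real.log X) := by rw [hE]; ring
  calc ‖∑ n ∈ Ioc 0 ⌊X⌋₊, b n‖ ≤ √X * Real.log X
      + 2 ^ (2 * A + 3) * (27 * KP * M / Real.log X + 2 ^ (2 * A + 4))
        * (X / (Real.log X) ^ A) := h
    _ ≤ 1 * (X / (Real.log X) ^ A) + E * (1 + M / Real.log X) * (X / (Real.log X) ^ A) := by
        gcongr
    _ ≤ (1 + M / Real.log X) * (X / (Real.log X) ^ A)
        + E * (1 + M / Real.log X) * (X / (Real.log X) ^ A) := by
        gcongr
        linarith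
    _ = (1 + E) * (1 + M / Real.log X) * (X / (Real.log X) ^ A) := by ring
    _ ≤ C * (1 + M / Real.log X) * (X / (Real.log X) ^ A) := by
        gcongr
        rw [hC]; linarith

theorem norm_lam_chi_le {q : ℕ} (χ : DirichletCharacter ℂ q) (n : ℕ) :
    ‖(Λ n : ℂ) * χ n‖ ≤ Real.log n := by
  have := norm_af_le χ 0 n
  simpa using this

/-- The core form of the Siegel-Walfisz theorem. -/
theorem sw_core (A : ℕ) (η : ℝ) (hη : 0 < η) : ∃ δ : ℝ, 0 < δ ∧ ∀ c : ℝ, 0 < c → ∃ C : ℝ, 0 < C ∧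
    ∀ (q : ℕ) [NeZero q] (χ : DirichletCharacter ℂ q), χ ≠ 1 →
      (χ ^ 2 = 1 → c * (q : ℝ) ^ (-δ) ≤ Lr (cre χ) 1) → ∀ X : ℝ, 2 ≤ X →
      ‖∑ n ∈ Ioc 0 ⌊X⌋₊, (Λ n : ℂ) * χ n‖ ≤ C * (1 + (q : ℝ) ^ η / Real.log X) *
        (X / (Real.log X) ^ A) := by
  set k := 2 * A + 2 with hk
  obtain ⟨C1, hC1, hAf⟩ := Af_growth k
  set m := (k + 13) * (k + 1) with hm
  set ε : ℝ := min (η / 2) (1 / 2) with hε
  have hε0 : 0 < ε := by rw [hε]; positivity
  have hε1 : ε ≤ 1 / 2 := min_le_right _ _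
  have hε2 : ε ≤ η / 2 := min_le_left _ _
  obtain ⟨C2, hC2, hLLp⟩ := LL_pow_le m ε hε0 hε1
  obtain ⟨C4, hC4, hfin⟩ := final_all A
  set δ : ℝ := η / (2 * (k + 1)) with hδ
  have hδ0 : 0 < δ := by positivity
  refine ⟨δ, hδ0, ?_⟩
  intro c hc
  set c' : ℝ := min 1 c with hc'
  have hc'0 : 0 < c' := lt_min one_pos hc
  set C3 : ℝ := C1 / c' ^ (k + 1) * C2 with hC3
  have hC30 : 0 < C3 := by positivity
  refine ⟨C4 * (1 + C3), by positivity, ?_⟩
  intro q _ χ hχ hL X hX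
  have hq : (1 : ℝ) ≤ q := by exact_mod_cast Nat.pos_of_ne_zero (NeZero.ne q)
  have hq0 : (0 : ℝ) < q := by linarith
  have hlog : 0 < Real.log X := Real.log_pos (by linarith)
  set lam : ℝ := c' * (q : ℝ) ^ (-δ) with hlam
  have hlam0 : 0 < lam := by positivity
  have hqd : (q : ℝ) ^ (-δ) ≤ 1 := Real.rpow_le_one_of_one_le_of_nonpos hq (by linarith)
  have hlam1 : lam ≤ 1 := by
    rw [hlam]
    exact mul_le_one₀ (min_le_left _ _) (by positivity) hqd
  have hlamL : χ ^ 2 = 1 → lam ≤ Lr (cre χ) 1 := fun h2 => by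
    refine le_trans ?_ (hL h2)
    rw [hlam]
    gcongr
    exact min_le_right _ _
  have hM : ∀ σ y : ℝ, 1 < σ → σ ≤ 2 →
      ‖LSeries (fun n => (Λ n : ℂ) * χ n * (Real.log n : ℂ) ^ (2 * A + 2))
        ((σ : ℂ) + y * Complex.I)‖ ≤ (C3 * (q : ℝ) ^ η) * √(|y| + 3) := by
    intro σ y h1 h2
    have hre : ((σ : ℂ) + y * Complex.I).re = σ := by simp
    have him : ((σ : ℂ) + y * Complex.I).im = y := by simp
    have h3 := hAf q χ hχ lam hlam0 hlam1 hlamL ((σ : ℂ) + y * Complex.I) (by rwa [hre])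
      (by rwa [hre])
    rw [him] at h3
    have h4 : LSeries (fun n => (Λ n : ℂ) * χ n * (Real.log n : ℂ) ^ (2 * A + 2))
        ((σ : ℂ) + y * Complex.I) = Af χ k ((σ : ℂ) + y * Complex.I) := rfl
    rw [h4]
    refine h3.trans ?_
    have h5 := hLLp q y hq
    have h6 : C1 / lam ^ (k + 1) = C1 / c' ^ (k + 1) * (q : ℝ) ^ (δ * (k + 1)) := by
      rw [hlam, mul_pow, ← Real.rpow_natCast ((q : ℝ) ^ (-δ)) (k + 1), ← Real.rpow_mul hq0.le,
        Nat.cast_add, Nat.cast_one, neg_mul, Real.rpow_neg hq0.le]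
      field_simp
    have h7 : (q : ℝ) ^ (δ * (k + 1)) * (q : ℝ) ^ ε ≤ (q : ℝ) ^ η := by
      rw [← Real.rpow_add hq0]
      apply Real.rpow_le_rpow_of_exponent_le hq
      have h8 : δ * (k + 1) = η / 2 := by
        rw [hδ]
        have : (k : ℝ) + 1 ≠ 0 := by positivity
        field_simp
      linarith
    calc C1 / lam ^ (k + 1) * LL q y ^ m
        ≤ C1 / c' ^ (k + 1) * (q : ℝ) ^ (δ * (k + 1)) * (C2 * (q : ℝ) ^ ε * √(|y| + 3)) := by
          rw [h6]; gcongr
      _ = C3 * ((q : ℝ) ^ (δ * (k + 1)) * (q : ℝ) ^ ε) * √(|y| + 3) := by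
          rw [hC3]; ring
      _ ≤ C3 * (q : ℝ) ^ η * √(|y| + 3) := by gcongr
  have h := hfin (fun n => (Λ n : ℂ) * χ n) (norm_lam_chi_le χ) (C3 * (q : ℝ) ^ η)
    (by positivity) hM X hX
  refine h.trans ?_
  have hXA : 0 ≤ X / (Real.log X) ^ A := by positivity
  rw [mul_assoc C4 (1 + C3)]
  gcongr
  have h9 : 0 ≤ (q : ℝ) ^ η / Real.log X := by positivity
  rw [mul_div_assoc]
  nlinarith

/-- The `n` with a common factor with `Q` contribute little to `ψ`. -/
theorem nc_sum_le (N Q : ℕ) (hQ : 0 < Q) :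
    ∑ n ∈ (Ioc 0 N).filter (fun n => ¬ n.Coprime Q), Λ n ≤ Real.log Q * Real.log N / Real.log 2 := by
  rcases Nat.eq_zero_or_pos N with rfl | hN
  · simp
  have hlog2 : 0 < Real.log 2 := Real.log_pos (by norm_num)
  have hlogN : 0 ≤ Real.log N := Real.log_natCast_nonneg N
  have h1 : ∑ n ∈ (Ioc 0 N).filter (fun n => ¬ n.Coprime Q), Λ n
      ≤ ∑ p ∈ Q.primeFactors, ∑ n ∈ (Ioc 0 N).filter (fun n => p ∣ n), Λ n := by
    have h0 : ∀ p ∈ Q.primeFactors, ∑ n ∈ (Ioc 0 N).filter (fun n => p ∣ n), Λ n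
        = ∑ n ∈ Ioc 0 N, if p ∣ n then Λ n else 0 := fun p _ => sum_filter _ _
    rw [sum_congr rfl h0, sum_comm, sum_filter]
    refine sum_le_sum fun n _ => ?_
    have hnn : ∀ p ∈ Q.primeFactors, 0 ≤ if p ∣ n then Λ n else 0 := fun p _ => by
      split_ifs
      · exact vonMangoldt_nonneg
      · exact le_rfl
    by_cases hc : n.Coprime Q
    · rw [if_neg (not_not.mpr hc)]
      exact sum_nonneg hnn
    · rw [if_pos hc]
      obtain ⟨p, hp, hpn, hpQ⟩ := Nat.Prime.not_coprime_iff_dvd.mp hc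
      have h1 := single_le_sum hnn (Nat.mem_primeFactors.mpr ⟨hp, hpQ, hQ.ne'⟩)
      rwa [if_pos hpn] at h1
  have h2 : ∀ p ∈ Q.primeFactors, ∑ n ∈ (Ioc 0 N).filter (fun n => p ∣ n), Λ n ≤ Real.log N := by
    intro p hp
    have hpp : p.Prime := Nat.prime_of_mem_primeFactors hp
    have h3 : ∑ n ∈ (Ioc 0 N).filter (fun n => p ∣ n), Λ n
        ≤ ∑ n ∈ (Icc 1 (Nat.log p N)).image (fun k => p ^ k), Λ n := by
      rw [← sum_filter_ne_zero]
      apply sum_le_sum_of_subset_of_nonneg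
      · intro n hn
        rw [mem_filter, mem_filter, mem_Ioc] at hn
        obtain ⟨⟨⟨hn0, hnN⟩, hpn⟩, hL⟩ := hn
        rw [vonMangoldt_ne_zero_iff, isPrimePow_nat_iff] at hL
        obtain ⟨r, k, hr, hk, rfl⟩ := hL
        have hpr : p = r := (Nat.prime_dvd_prime_iff_eq hpp hr).mp (hpp.dvd_of_dvd_pow hpn)
        subst hpr
        rw [mem_image]
        exact ⟨k, mem_Icc.mpr ⟨hk, Nat.le_log_of_pow_le hpp.one_lt hnN⟩, rfl⟩
      · intro n _ _
        exact vonMangoldt_nonneg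
    refine h3.trans ?_
    rw [sum_image (fun a _ b _ h => Nat.pow_right_injective hpp.two_le h)]
    calc ∑ k ∈ Icc 1 (Nat.log p N), Λ (p ^ k) = ∑ k ∈ Icc 1 (Nat.log p N), Real.log p := by
          refine sum_congr rfl fun k hk => ?_
          rw [mem_Icc] at hk
          rw [vonMangoldt_apply_pow (by omega), vonMangoldt_apply_prime hpp]
      _ = Real.log ((p ^ (Nat.log p N) : ℕ) : ℝ) := by
          rw [sum_const, Nat.card_Icc, nsmul_eq_mul, Nat.cast_pow, Real.log_pow]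
          simp
      _ ≤ Real.log N := by
          apply Real.log_le_log
          · exact_mod_cast pow_pos hpp.pos _
          · exact_mod_cast Nat.pow_log_le_self p hN.ne'
  have h4 : (Q.primeFactors.card : ℝ) * Real.log 2 ≤ Real.log Q := by
    have h5 : 2 ^ Q.primeFactors.card ≤ Q := by
      calc 2 ^ Q.primeFactors.card ≤ ∏ p ∈ Q.primeFactors, p := by
            rw [← prod_const]
            exact prod_le_prod (fun _ _ => by norm_num)
              (fun p hp => (Nat.prime_of_mem_primeFactors hp).two_le)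
        _ ≤ Q := Nat.le_of_dvd hQ (Nat.prod_primeFactors_dvd Q)
    have h6 : Real.log ((2 ^ Q.primeFactors.card : ℕ) : ℝ) ≤ Real.log Q := by
      apply Real.log_le_log
      · positivity
      · exact_mod_cast h5
    rw [Nat.cast_pow, Real.log_pow] at h6
    exact_mod_cast h6
  calc ∑ n ∈ (Ioc 0 N).filter (fun n => ¬ n.Coprime Q), Λ n
      ≤ ∑ p ∈ Q.primeFactors, Real.log N := h1.trans (sum_le_sum h2)
    _ = Q.primeFactors.card * Real.log N := by rw [sum_const, nsmul_eq_mul]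
    _ ≤ Real.log Q / Real.log 2 * Real.log N := by
        gcongr
        rw [le_div_iff₀ hlog2]
        exact h4
    _ = _ := by ring

/-- Characters which agree on the integers coprime to `Q` have almost the same `ψ`. -/
theorem psi_close (N Q : ℕ) (hQ : 0 < Q) (f g : ℕ → ℂ) (hf : ∀ n, ‖f n‖ ≤ 1) (hg : ∀ n, ‖g n‖ ≤ 1)
    (h : ∀ n, n.Coprime Q → f n = g n) :
    ‖∑ n ∈ Ioc 0 N, (Λ n : ℂ) * f n - ∑ n ∈ Ioc 0 N, (Λ n : ℂ) * g n‖
      ≤ 2 * (Real.log Q * Real.log N / Real.log 2) := by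
  rw [← sum_sub_distrib]
  calc ‖∑ n ∈ Ioc 0 N, ((Λ n : ℂ) * f n - (Λ n : ℂ) * g n)‖
      ≤ ∑ n ∈ Ioc 0 N, if ¬ n.Coprime Q then 2 * Λ n else 0 := by
        refine norm_sum_le_of_le _ fun n _ => ?_
        by_cases hc : n.Coprime Q
        · rw [if_neg (not_not.mpr hc), h n hc, sub_self, norm_zero]
        · rw [if_pos hc, ← mul_sub, norm_mul, Complex.norm_real, Real.norm_eq_abs,
            abs_of_nonneg vonMangoldt_nonneg, mul_comm]
          exact mul_le_mul_of_nonneg_right ((norm_sub_le _ _).trans (by linarith [hf n, hg n]))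
            vonMangoldt_nonneg
    _ = 2 * ∑ n ∈ (Ioc 0 N).filter (fun n => ¬ n.Coprime Q), Λ n := by
        rw [← sum_filter, mul_sum]
    _ ≤ _ := by
        gcongr
        exact nc_sum_le N Q hQ

/-- **The Siegel–Walfisz theorem.** -/
theorem siegel_walfisz (A B : ℕ) : ∃ C : ℝ, 0 < C ∧ ∀ (q : ℕ) [NeZero q]
    (χ : DirichletCharacter ℂ q), χ ≠ 1 → ∀ X : ℝ, 2 ≤ X → (q : ℝ) ≤ (Real.log X) ^ B →
      ‖∑ n ∈ Ioc 0 ⌊X⌋₊, (Λ n : ℂ) * χ n‖ ≤ C * (X / (Real.log X) ^ A) := by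
  set η : ℝ := 1 / (B + 1) with hη
  have hη0 : 0 < η := by positivity
  obtain ⟨δ, hδ, hcore⟩ := sw_core A η hη0
  -- the factor
  have hfac : ∀ (q : ℕ) [NeZero q] (X : ℝ), 2 ≤ X → (q : ℝ) ≤ (Real.log X) ^ B →
      1 + (q : ℝ) ^ η / Real.log X ≤ 3 := by
    intro q _ X hX hqX
    have hq : (1 : ℝ) ≤ q := by exact_mod_cast Nat.pos_of_ne_zero (NeZero.ne q)
    have hlog : 0 < Real.log X := Real.log_pos (by linarith)
    have hlog2 : 1 / 2 ≤ Real.log X := by
      have h1 := Real.log_two_gt_d9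
      have h2 : Real.log 2 ≤ Real.log X := Real.log_le_log (by norm_num) hX
      linarith
    have h3 : (q : ℝ) ^ η ≤ 2 * Real.log X := by
      rcases le_total 1 (Real.log X) with h1 | h1
      · calc (q : ℝ) ^ η ≤ ((Real.log X) ^ B) ^ η := by gcongr
          _ = (Real.log X) ^ ((B : ℝ) * η) := by
              rw [← Real.rpow_natCast, ← Real.rpow_mul hlog.le]
          _ ≤ (Real.log X) ^ (1 : ℝ) := by
              apply Real.rpow_le_rpow_of_exponent_le h1
              rw [hη, mul_one_div, div_le_one (by positivity)]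
              linarith
          _ = Real.log X := Real.rpow_one _
          _ ≤ 2 * Real.log X := by linarith
      · have h4 : (q : ℝ) ≤ 1 := hqX.trans (pow_le_one₀ hlog.le h1)
        have h5 : (q : ℝ) = 1 := le_antisymm h4 hq
        rw [h5, Real.one_rpow]
        linarith
    have h4 : (q : ℝ) ^ η / Real.log X ≤ 2 := by rwa [div_le_iff₀ hlog]
    linarith
  rcases siegel δ hδ with hno | ⟨q1, hq1, χ1, h11, h12, c, hc, hs⟩
  · obtain ⟨C, hC, h⟩ := hcore 1 one_pos
    refine ⟨C * 3, by positivity, ?_⟩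
    intro q _ χ hχ X hX hqX
    have hlog : 0 < Real.log X := Real.log_pos (by linarith)
    refine (h q χ hχ (fun h2 => absurd (hno q χ h2) hχ) X hX).trans ?_
    gcongr
    exact hfac q X hX hqX
  · obtain ⟨C, hC, h⟩ := hcore c hc
    -- the fixed character
    have hq1r : (1 : ℝ) ≤ q1 := by exact_mod_cast Nat.pos_of_ne_zero (NeZero.ne q1)
    have hL1 : 0 < Lr (cre χ1) 1 := Lr_one_pos h11 h12
    obtain ⟨C', hC', h'⟩ := hcore (Lr (cre χ1) 1 * (q1 : ℝ) ^ δ) (by positivity)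
    -- powers of log
    obtain ⟨K, hK0, hK⟩ : ∃ K : ℝ, 0 < K ∧ ∀ X : ℝ, 1 ≤ X →
        (Real.log X) ^ (A + B + 1) ≤ K * √X := by
      refine ⟨_, ?_, fun X hX => log_pow_le_sqrt (A + B + 1) X hX⟩
      positivity
    set C5 : ℝ := C' * (1 + (q1 : ℝ) ^ η / (1 / 2)) with hC5
    refine ⟨C * 3 + C5 + 8 * (q1 + 1) * K, by positivity, ?_⟩
    intro q _ χ hχ X hX hqX
    have hlog : 0 < Real.log X := Real.log_pos (by linarith)
    have hXA : 0 ≤ X / (Real.log X) ^ A := by positivity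
    by_cases hgood : χ ^ 2 = 1 → prodChar χ1 χ ≠ 1
    · refine (h q χ hχ (fun h2 => hs q χ h2 hχ (hgood h2)) X hX).trans ?_
      have h3 := hfac q X hX hqX
      have h4 : C * (1 + (q : ℝ) ^ η / Real.log X) ≤ C * 3 := by gcongr
      have h5 : C * (1 + (q : ℝ) ^ η / Real.log X) ≤ C * 3 + C5 + 8 * (q1 + 1) * K := by
        have : 0 ≤ C5 + 8 * (q1 + 1) * K := by positivity
        linarith
      gcongr
    · rw [Classical.not_imp, not_not] at hgood
      obtain ⟨h2, hprod⟩ := hgood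
      have hq : (1 : ℝ) ≤ q := by exact_mod_cast Nat.pos_of_ne_zero (NeZero.ne q)
      -- `χ = χ1` on integers coprime to `q1 q`
      have heq : ∀ n : ℕ, n.Coprime (q1 * q) → χ n = χ1 n := by
        intro n hn
        have hu : IsUnit ((n : ℕ) : ZMod (q1 * q)) := by
          rw [ZMod.isUnit_iff_coprime]; exact hn
        have hu2 : IsUnit ((n : ℕ) : ZMod q) := by
          rw [ZMod.isUnit_iff_coprime]; exact Nat.Coprime.coprime_mul_left_right hn
        have e1 := prodChar_apply χ1 χ n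
        rw [hprod, MulChar.one_apply hu] at e1
        have e2 : χ n * χ n = 1 := by
          have e3 : (χ ^ 2) ((n : ℕ) : ZMod q) = χ n ^ 2 := MulChar.pow_apply' χ two_ne_zero _
          rw [h2, MulChar.one_apply hu2] at e3
          rw [← sq, ← e3]
        calc χ n = 1 * χ n := (one_mul _).symm
          _ = χ1 n * (χ n * χ n) := by rw [e1]; ring
          _ = χ1 n := by rw [e2, mul_one]
      have h3 := psi_close ⌊X⌋₊ (q1 * q) (Nat.mul_pos (Nat.pos_of_ne_zero (NeZero.ne q1))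
        (Nat.pos_of_ne_zero (NeZero.ne q))) (fun n => χ n) (fun n => χ1 n)
        (fun n => DirichletCharacter.norm_le_one χ n)
        (fun n => DirichletCharacter.norm_le_one χ1 n) heq
      have h4 := h' q1 χ1 h12 (fun _ => by
        rw [mul_assoc, ← Real.rpow_add (by linarith), add_neg_cancel, Real.rpow_zero, mul_one]) X hX
      have hlog2 : 1 / 2 ≤ Real.log X := by
        have h1 := Real.log_two_gt_d9
        have h2 : Real.log 2 ≤ Real.log X := Real.log_le_log (by norm_num) hX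
        linarith
      have h5 : C' * (1 + (q1 : ℝ) ^ η / Real.log X) ≤ C5 := by
        rw [hC5]
        gcongr
      have h6 : 2 * (Real.log ((q1 * q : ℕ) : ℝ) * Real.log (⌊X⌋₊ : ℝ) / Real.log 2)
          ≤ 4 * q1 * K * (X / (Real.log X) ^ A) := by
        have a1 : Real.log ((q1 * q : ℕ) : ℝ) ≤ q1 * (Real.log X) ^ B := by
          calc Real.log ((q1 * q : ℕ) : ℝ) ≤ ((q1 * q : ℕ) : ℝ) :=
                Real.log_le_self (Nat.cast_nonneg _)
            _ = q1 * q := by push_cast; ring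
            _ ≤ q1 * (Real.log X) ^ B := by gcongr
        have a2 : Real.log (⌊X⌋₊ : ℝ) ≤ Real.log X := by
          apply Real.log_le_log
          · exact_mod_cast Nat.floor_pos.mpr (by linarith)
          · exact Nat.floor_le (by linarith)
        have a3 : 1 / 2 ≤ Real.log 2 := by
          have h1 := Real.log_two_gt_d9
          linarith
        have a4 : (Real.log X) ^ (A + B + 1) ≤ K * X := by
          refine (hK X (by linarith)).trans ?_
          gcongr
          rw [Real.sqrt_le_left (by linarith)]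
          nlinarith
        calc 2 * (Real.log ((q1 * q : ℕ) : ℝ) * Real.log (⌊X⌋₊ : ℝ) / Real.log 2)
            ≤ 2 * ((q1 * (Real.log X) ^ B) * Real.log X / (1 / 2)) := by
              gcongr
          _ = 4 * q1 * ((Real.log X) ^ (A + B + 1) / (Real.log X) ^ A) := by
              have : (Real.log X) ^ (A + B + 1) = (Real.log X) ^ A * ((Real.log X) ^ B * Real.log X) := by
                ring
              rw [this, mul_div_cancel_left₀ _ (by positivity)]
              ring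
          _ ≤ 4 * q1 * (K * X / (Real.log X) ^ A) := by gcongr
          _ = _ := by ring
      calc ‖∑ n ∈ Ioc 0 ⌊X⌋₊, (Λ n : ℂ) * χ n‖
          = ‖∑ n ∈ Ioc 0 ⌊X⌋₊, (Λ n : ℂ) * χ1 n + (∑ n ∈ Ioc 0 ⌊X⌋₊, (Λ n : ℂ) * χ n
            - ∑ n ∈ Ioc 0 ⌊X⌋₊, (Λ n : ℂ) * χ1 n)‖ := by congr 1; ring
        _ ≤ ‖∑ n ∈ Ioc 0 ⌊X⌋₊, (Λ n : ℂ) * χ1 n‖ + ‖∑ n ∈ Ioc 0 ⌊X⌋₊, (Λ n : ℂ) * χ n
            - ∑ n ∈ Ioc 0 ⌊X⌋₊, (Λ n : ℂ) * χ1 n‖ := norm_add_le _ _
        _ ≤ C5 * (X / (Real.log X) ^ A) + 4 * q1 * K * (X / (Real.log X) ^ A) := by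
            refine add_le_add (h4.trans ?_) (h3.trans h6)
            gcongr
        _ = (C5 + 4 * q1 * K) * (X / (Real.log X) ^ A) := by ring
        _ ≤ _ := by
            refine mul_le_mul_of_nonneg_right ?_ hXA
            have : 0 ≤ C * 3 := by positivity
            have h9 : 4 * (q1 : ℝ) * K ≤ 8 * (q1 + 1) * K :=
              mul_le_mul_of_nonneg_right (by linarith) hK0.le
            linarith

end Pool.Agent.SW
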