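import Pool.Agent.Work.SW.Walfisz

/-!
The prime number theorem with an error term smaller than any power of the logarithm.
-/

set_option autoImplicit false

namespace Pool.Agent.SW

open Finset ArithmeticFunction

/-- The entire function `(s - 1) ζ(s)`. -/
noncomputable abbrev Zf : ℂ → ℂ := DirichletCharacter.LFunctionTrivChar₁ 1

theorem Zf_of_ne {s : ℂ} (hs : s ≠ 1) : Zf s = (s - 1) * riemannZeta s := by
  unfold Zf DirichletCharacter.LFunctionTrivChar₁
  rw [Function.update_of_ne hs, DirichletCharacter.LFunctionTrivChar,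
    DirichletCharacter.LFunction_modOne_eq]

theorem Zf_one : Zf 1 = 1 := by
  unfold Zf DirichletCharacter.LFunctionTrivChar₁
  rw [Function.update_self]
  simp

theorem differentiable_Zf : Differentiable ℂ Zf :=
  DirichletCharacter.differentiable_LFunctionTrivChar₁ 1

theorem Zf_ne_zero {s : ℂ} (hs : 1 ≤ s.re) : Zf s ≠ 0 := by
  rcases eq_or_ne s 1 with rfl | h
  · rw [Zf_one]; exact one_ne_zero
  · rw [Zf_of_ne h]
    exact mul_ne_zero (sub_ne_zero_of_ne h) (riemannZeta_ne_zero_of_one_le_re hs)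

/-- The analytic continuation of `-ζ'/ζ - ζ`. -/
noncomputable def Gf (s : ℂ) : ℂ := -deriv Zf s / Zf s - dslope Zf 1 s

theorem analyticAt_Gf {s : ℂ} (hs : 1 ≤ s.re) : AnalyticAt ℂ Gf s := by
  unfold Gf
  have h1 : AnalyticAt ℂ Zf s := differentiable_Zf.analyticAt s
  have h2 : Differentiable ℂ (dslope Zf 1) := by
    rw [← differentiableOn_univ]
    exact (Complex.differentiableOn_dslope Filter.univ_mem).mpr differentiable_Zf.differentiableOn
  exact (h1.deriv.neg.div h1 (Zf_ne_zero hs)).sub (h2.analyticAt s)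

theorem Gf_eq {s : ℂ} (hs : 1 < s.re) :
    Gf s = -deriv riemannZeta s / riemannZeta s - riemannZeta s := by
  have hs1 : s ≠ 1 := by
    intro h
    rw [h] at hs
    simp at hs
  have hs2 : s - 1 ≠ 0 := sub_ne_zero_of_ne hs1
  have hz : riemannZeta s ≠ 0 := riemannZeta_ne_zero_of_one_le_re hs.le
  have hd : deriv Zf s = (s - 1) * deriv riemannZeta s + riemannZeta s := by
    have h1 := DirichletCharacter.deriv_LFunctionTrivChar₁_apply_of_ne_one 1 hs1
    rw [h1]
    have h2 : DirichletCharacter.LFunctionTrivChar 1 = riemannZeta := by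
      rw [DirichletCharacter.LFunctionTrivChar, DirichletCharacter.LFunction_modOne_eq]
    rw [h2]
  unfold Gf
  rw [dslope_of_ne _ hs1, slope_def_field, Zf_one, hd, Zf_of_ne hs1]
  field_simp
  ring

/-- The coefficients `Λ(n) - 1`. -/
noncomputable def fP (n : ℕ) : ℂ := (Λ n : ℂ) - 1

theorem LSeriesSummable_fP {s : ℂ} (hs : 1 < s.re) : LSeriesSummable fP s := by
  have h1 : LSeriesSummable (fun n => (Λ n : ℂ)) s :=
    ArithmeticFunction.LSeriesSummable_vonMangoldt hs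
  have h2 : LSeriesSummable (fun _ => (1 : ℂ)) s := LSeriesSummable_one_iff.mpr hs
  exact h1.sub h2

theorem abscissa_fP_le : LSeries.abscissaOfAbsConv fP ≤ 1 := by
  apply LSeries.abscissaOfAbsConv_le_of_forall_lt_LSeriesSummable'
  intro y hy
  apply LSeriesSummable_fP
  rw [Complex.ofReal_re]
  exact_mod_cast hy

theorem LSeries_fP {s : ℂ} (hs : 1 < s.re) : LSeries fP s = Gf s := by
  have h1 : LSeriesSummable (fun n => (Λ n : ℂ)) s :=
    ArithmeticFunction.LSeriesSummable_vonMangoldt hs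
  have h2 : LSeriesSummable (fun _ => (1 : ℂ)) s := LSeriesSummable_one_iff.mpr hs
  have h3 : LSeries fP s = LSeries (fun n => (Λ n : ℂ)) s - LSeries (fun _ => (1 : ℂ)) s :=
    LSeries_sub h1 h2
  rw [h3, Gf_eq hs, ArithmeticFunction.LSeries_vonMangoldt_eq_deriv_riemannZeta_div hs]
  congr 1
  exact LSeries_one_eq_riemannZeta hs

theorem logMul_iter (f : ℕ → ℂ) (k n : ℕ) :
    (LSeries.logMul^[k] f) n = f n * (Real.log n : ℂ) ^ k := by
  induction k with
  | zero => simp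
  | succ k ih =>
    rw [Function.iterate_succ_apply', LSeries.logMul, ih, ← Complex.natCast_log, pow_succ]
    ring

theorem LSeries_fP_log {s : ℂ} (hs : 1 < s.re) (k : ℕ) :
    LSeries (fun n => fP n * (Real.log n : ℂ) ^ k) s = (-1) ^ k * iteratedDeriv k Gf s := by
  have h1 : LSeries.abscissaOfAbsConv fP < s.re :=
    lt_of_le_of_lt abscissa_fP_le (by exact_mod_cast hs)
  have h2 := LSeries_iteratedDeriv k h1
  have h3 : LSeries fP =ᶠ[nhds s] Gf := by
    refine Filter.eventuallyEq_iff_exists_mem.mpr ⟨{z | 1 < z.re},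
      (isOpen_lt continuous_const Complex.continuous_re).mem_nhds hs, fun z hz => LSeries_fP hz⟩
  rw [h3.iteratedDeriv_eq] at h2
  rw [h2, ← mul_assoc, ← mul_pow]
  norm_num
  congr 1
  funext n
  rw [logMul_iter, Complex.natCast_log]

/-- Boundedness near the real axis. -/
theorem bound_near (k : ℕ) : ∃ K : ℝ, 0 < K ∧ ∀ s : ℂ, 1 < s.re → s.re ≤ 2 → |s.im| ≤ 1 →
    ‖LSeries (fun n => fP n * (Real.log n : ℂ) ^ k) s‖ ≤ K := by
  have hK : IsCompact (Set.Icc (1 : ℝ) 2 ×ℂ Set.Icc (-1 : ℝ) 1) :=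
    isCompact_Icc.reProdIm isCompact_Icc
  have hc : ContinuousOn (iteratedDeriv k Gf) (Set.Icc (1 : ℝ) 2 ×ℂ Set.Icc (-1 : ℝ) 1) := by
    intro s hs
    rw [Complex.mem_reProdIm] at hs
    have h1 : AnalyticAt ℂ Gf s := analyticAt_Gf hs.1.1
    have h2 : AnalyticAt ℂ (deriv^[k] Gf) s := h1.iterated_deriv k
    rw [iteratedDeriv_eq_iterate]
    exact h2.continuousAt.continuousWithinAt
  obtain ⟨K, hKb⟩ := hK.exists_bound_of_continuousOn hc
  refine ⟨max K 1, by positivity, ?_⟩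
  intro s h1 h2 h3
  rw [LSeries_fP_log h1, norm_mul, norm_pow, norm_neg, norm_one, one_pow, one_mul]
  refine (hKb s ?_).trans (le_max_left _ _)
  rw [Complex.mem_reProdIm]
  exact ⟨⟨h1.le, h2⟩, abs_le.mp h3⟩

/-- Bounds for `ζ` and its derivatives away from the real axis. -/
theorem norm_Lf_triv_le (j : ℕ) (s : ℂ) (hs : 1 < s.re) (hs2 : s.re ≤ 2) (ht : 1 ≤ |s.im|) :
    ‖Lf (1 : DirichletCharacter ℂ 1) j s‖ ≤ (CZ j + j.factorial) * LL 1 s.im ^ (j + 1) := by
  have h := LSeries_zeta_bound j s hs hs2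
  have hLL := one_le_LL 1 s.im le_rfl
  have h1 : 1 ≤ ‖s - 1‖ := by
    have h2 : |(s - 1).im| ≤ ‖s - 1‖ := Complex.abs_im_le_norm _
    rw [Complex.sub_im, Complex.one_im, sub_zero] at h2
    linarith
  have h3 : Lf (1 : DirichletCharacter ℂ 1) j s
      = LSeries (fun n => (1 : ℂ) * (Real.log n : ℂ) ^ j) s := by
    unfold Lf
    congr 1
    funext n
    rw [MulChar.one_apply (isUnit_of_subsingleton _)]
  rw [h3]
  refine h.trans ?_
  have h4 : (j.factorial : ℝ) / ‖s - 1‖ ^ (j + 1) ≤ j.factorial * LL 1 s.im ^ (j + 1) := by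
    calc (j.factorial : ℝ) / ‖s - 1‖ ^ (j + 1) ≤ j.factorial / 1 := by
          gcongr
          exact one_le_pow₀ h1
      _ = j.factorial * 1 := by ring
      _ ≤ j.factorial * LL 1 s.im ^ (j + 1) := by
          gcongr
          exact one_le_pow₀ hLL
  rw [add_mul]
  gcongr

theorem growth_far (k : ℕ) : ∃ C : ℝ, 0 < C ∧ ∃ m : ℕ, ∀ s : ℂ, 1 < s.re → s.re ≤ 2 → 1 ≤ |s.im| →
    ‖Af (1 : DirichletCharacter ℂ 1) k s‖ ≤ C * LL 1 s.im ^ m := by
  set CM : ℝ := ∑ j ∈ range (k + 2), (CZ j + j.factorial) with hCM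
  have hf : ∀ j : ℕ, (0 : ℝ) ≤ (j.factorial : ℝ) := fun j => Nat.cast_nonneg _
  have hle : ∀ j, j < k + 2 → CZ j + j.factorial ≤ CM := fun j hj =>
    single_le_sum (f := fun j => CZ j + (j.factorial : ℝ)) (fun i _ => by
      linarith [CZ_pos i, hf i]) (mem_range.mpr hj)
  have hCM1 : 1 ≤ CM := by
    have h1 := hle 0 (by omega)
    have h2 := CZ_pos 0
    have h3 := hf 0
    linarith
  have hCA := CA_pos k
  have hC1 := C1_pos
  set D0 : ℝ := CZ 1 + (Nat.factorial 1 : ℝ) with hD0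
  set U0 : ℝ := CZ 0 + (Nat.factorial 0 : ℝ) with hU0
  have hD01 : 1 ≤ D0 := by rw [hD0]; linarith [CZ_pos 1, hf 1]
  have hU01 : 1 ≤ U0 := by rw [hU0]; linarith [CZ_pos 0, hf 0]
  set E : ℝ := 16 * C1 ^ 3 * D0 ^ 3 * (2 * U0) with hE
  have hE1 : 1 ≤ E := by
    rw [hE]
    have a1 : 1 ≤ C1 ^ 3 := one_le_pow₀ hC1
    have a2 : 1 ≤ D0 ^ 3 := one_le_pow₀ hD01
    have a3 : 1 ≤ C1 ^ 3 * D0 ^ 3 := one_le_mul_of_one_le_of_one_le a1 a2
    nlinarith [one_le_mul_of_one_le_of_one_le a3 hU01]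
  refine ⟨CA k * (CM * E) ^ (k + 1), by positivity, (k + 2 + 7) * (k + 1), ?_⟩
  intro s h1 h2 ht
  have hLL := one_le_LL 1 s.im le_rfl
  have hlow : 1 / (E * LL 1 s.im ^ 7) ≤ ‖Lf (1 : DirichletCharacter ℂ 1) 0 s‖ := by
    have h := lower341 (1 : DirichletCharacter ℂ 1) s.im (D0 * LL 1 s.im ^ 2)
      (2 * U0 * LL 1 s.im) ?_ ?_ ?_ ?_ s (mem_hseg s h1 h2)
    · refine le_trans (le_of_eq ?_) h
      rw [hE]
      congr 1
      ring
    · exact one_le_mul_of_one_le_of_one_le hD01 (one_le_pow₀ hLL)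
    · exact one_le_mul_of_one_le_of_one_le (by linarith) hLL
    · intro z hz
      have h3 := norm_Lf_triv_le 1 z hz.1 hz.2.1 (by rw [hz.2.2]; exact ht)
      rwa [hz.2.2] at h3
    · intro z hz
      rw [one_pow]
      have h3 := norm_Lf_triv_le 0 z hz.1 hz.2.1 (by
        rw [hz.2.2, abs_mul, abs_two]; linarith)
      rw [hz.2.2, zero_add, pow_one] at h3
      refine h3.trans ?_
      have h4 := LL_le_two 1 s.im le_rfl
      calc U0 * LL 1 (2 * s.im) ≤ U0 * (2 * LL 1 s.im) := by gcongr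
        _ = _ := by ring
  have hδ0 : 0 < 1 / (E * LL 1 s.im ^ 7) := by positivity
  have hδ1 : 1 / (E * LL 1 s.im ^ 7) ≤ 1 := by
    rw [div_le_one (by positivity)]
    exact one_le_mul_of_one_le_of_one_le hE1 (one_le_pow₀ hLL)
  have h := Af_bound (1 : DirichletCharacter ℂ 1) s h1 (CM * LL 1 s.im ^ (k + 2))
    (1 / (E * LL 1 s.im ^ 7))
    (one_le_mul_of_one_le_of_one_le hCM1 (one_le_pow₀ hLL)) hδ0 hδ1 hlow k (fun j hj => by
      refine (norm_Lf_triv_le j s h1 h2 ht).trans ?_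
      have h3 := hle j (by omega)
      have h4 : LL 1 s.im ^ (j + 1) ≤ LL 1 s.im ^ (k + 2) := pow_le_pow_right₀ hLL (by omega)
      have h5 := CZ_pos j
      have h6 := hf j
      gcongr)
  refine h.trans (le_of_eq ?_)
  rw [div_div_eq_mul_div, div_one, pow_mul, mul_assoc (CA k), ← mul_pow]
  congr 2
  rw [pow_add]
  ring

/-- The coefficients, with the term `n = 1` removed. -/
noncomputable def bP (n : ℕ) : ℂ := if n ≤ 1 then 0 else (Λ n : ℂ) - 1

theorem norm_bP_le (n : ℕ) : ‖bP n‖ ≤ Real.log n := by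
  have hlog : 0 ≤ Real.log n := Real.log_natCast_nonneg n
  unfold bP
  split_ifs with h
  · rw [norm_zero]; exact hlog
  · push Not at h
    have h1 : (Λ n : ℂ) - 1 = ((Λ n - 1 : ℝ) : ℂ) := by push_cast; ring
    rw [h1, Complex.norm_real, Real.norm_eq_abs, abs_le]
    have h2 : Λ n ≤ Real.log n := vonMangoldt_le_log
    have h3 : 0 ≤ Λ n := vonMangoldt_nonneg
    have hl2 := Real.log_two_gt_d9
    refine ⟨?_, by linarith⟩
    rcases Nat.lt_or_ge 2 n with h4 | h4
    · have h5 : Real.log 3 ≤ Real.log n :=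
        Real.log_le_log (by norm_num) (by exact_mod_cast h4)
      have h6 : 1 ≤ Real.log 3 := by
        rw [Real.le_log_iff_exp_le (by norm_num)]
        have := Real.exp_one_lt_d9
        linarith
      linarith
    · have h5 : n = 2 := by omega
      subst h5
      rw [vonMangoldt_apply_prime Nat.prime_two]
      push_cast
      linarith

theorem LSeries_bP (k : ℕ) (hk : k ≠ 0) (s : ℂ) :
    LSeries (fun n => bP n * (Real.log n : ℂ) ^ k) s
      = LSeries (fun n => fP n * (Real.log n : ℂ) ^ k) s := by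
  apply LSeries_congr
  intro n hn
  unfold bP fP
  split_ifs with h
  · have : n = 1 := by omega
    subst this
    simp [hk]
  · rfl

theorem LSeries_fP_far (k : ℕ) (s : ℂ) (hs : 1 < s.re) :
    LSeries (fun n => fP n * (Real.log n : ℂ) ^ k) s
      = Af (1 : DirichletCharacter ℂ 1) k s - LSeries (fun n => (1 : ℂ) * (Real.log n : ℂ) ^ k) s := by
  have h1 : LSeriesSummable (fun n => (Λ n : ℂ) * (1 : DirichletCharacter ℂ 1) n
      * (Real.log n : ℂ) ^ k) s :=
    summable_of_log _ (k + 1) (norm_af_le (1 : DirichletCharacter ℂ 1) k) s hs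
  have h2 : LSeriesSummable (fun n => (1 : ℂ) * (Real.log n : ℂ) ^ k) s := by
    apply summable_of_log _ k _ s hs
    intro n
    rw [one_mul, norm_pow, Complex.norm_real, Real.norm_eq_abs,
      abs_of_nonneg (Real.log_natCast_nonneg n)]
  unfold Af
  rw [← LSeries_sub h1 h2]
  congr 1
  funext n
  rw [Pi.sub_apply, MulChar.one_apply (isUnit_of_subsingleton _)]
  unfold fP
  ring

/-- **Prime number theorem** with a power of the logarithm saved. -/
theorem pnt (A : ℕ) : ∃ C : ℝ, 0 < C ∧ ∀ X : ℝ, 2 ≤ X →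
    |∑ n ∈ Ioc 0 ⌊X⌋₊, Λ n - X| ≤ C * (X / (Real.log X) ^ A) := by
  set k := 2 * A + 2 with hk
  obtain ⟨C4, hC4, hfin⟩ := final_all A
  obtain ⟨K, hK, hnear⟩ := bound_near k
  obtain ⟨C2, hC2, m, hfar⟩ := growth_far k
  obtain ⟨C3, hC3, hLL1⟩ := LL_pow_le m (1 / 2) (by norm_num) le_rfl
  obtain ⟨C5, hC5, hLL2⟩ := LL_pow_le (k + 1) (1 / 2) (by norm_num) le_rfl
  have hCZ := CZ_pos k
  set M : ℝ := K + C2 * C3 + (CZ k + k.factorial) * C5 with hM
  have hM0 : 0 < M := by positivity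
  have hMb : ∀ σ y : ℝ, 1 < σ → σ ≤ 2 →
      ‖LSeries (fun n => bP n * (Real.log n : ℂ) ^ (2 * A + 2)) ((σ : ℂ) + y * Complex.I)‖
        ≤ M * √(|y| + 3) := by
    intro σ y h1 h2
    have hre : ((σ : ℂ) + y * Complex.I).re = σ := by simp
    have him : ((σ : ℂ) + y * Complex.I).im = y := by simp
    set s : ℂ := (σ : ℂ) + y * Complex.I with hs
    have hsq : 1 ≤ √(|y| + 3) := by
      rw [Real.one_le_sqrt]
      linarith [abs_nonneg y]
    rw [LSeries_bP _ (by omega)]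
    rcases le_total |y| 1 with hy | hy
    · refine (hnear s (by rwa [hre]) (by rwa [hre]) (by rwa [him])).trans ?_
      calc K ≤ M := by
            rw [hM]
            have : 0 ≤ C2 * C3 + (CZ k + k.factorial) * C5 := by positivity
            linarith
        _ = M * 1 := (mul_one _).symm
        _ ≤ M * √(|y| + 3) := by gcongr
    · rw [LSeries_fP_far _ s (by rwa [hre])]
      refine (norm_sub_le _ _).trans ?_
      have e1 := hfar s (by rwa [hre]) (by rwa [hre]) (by rwa [him])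
      have e2 := norm_Lf_triv_le k s (by rwa [hre]) (by rwa [hre]) (by rwa [him])
      have e3 : Lf (1 : DirichletCharacter ℂ 1) k s
          = LSeries (fun n => (1 : ℂ) * (Real.log n : ℂ) ^ (2 * A + 2)) s := by
        unfold Lf
        congr 1
        funext n
        rw [MulChar.one_apply (isUnit_of_subsingleton _)]
      rw [e3, him] at e2
      rw [him] at e1
      have e4 := hLL1 1 y le_rfl
      have e5 := hLL2 1 y le_rfl
      rw [Real.one_rpow, mul_one] at e4 e5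
      calc ‖Af (1 : DirichletCharacter ℂ 1) (2 * A + 2) s‖
          + ‖LSeries (fun n => (1 : ℂ) * (Real.log n : ℂ) ^ (2 * A + 2)) s‖
          ≤ C2 * LL 1 y ^ m + (CZ k + k.factorial) * LL 1 y ^ (k + 1) := add_le_add e1 e2
        _ ≤ C2 * (C3 * √(|y| + 3)) + (CZ k + k.factorial) * (C5 * √(|y| + 3)) := by gcongr
        _ = (C2 * C3 + (CZ k + k.factorial) * C5) * √(|y| + 3) := by ring
        _ ≤ M * √(|y| + 3) := by
            gcongr
            rw [hM]
            linarith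
  -- the small constant
  obtain ⟨K6, hK6, hK6b⟩ : ∃ K : ℝ, 0 < K ∧ ∀ X : ℝ, 1 ≤ X → (Real.log X) ^ A ≤ K * √X := by
    refine ⟨_, ?_, fun X hX => log_pow_le_sqrt A X hX⟩
    positivity
  refine ⟨C4 * (1 + M * 2) + 2 * K6, by positivity, ?_⟩
  intro X hX
  have hlog : 0 < Real.log X := Real.log_pos (by linarith)
  have hlog2 : 1 / 2 ≤ Real.log X := by
    have h1 := Real.log_two_gt_d9
    have h2 : Real.log 2 ≤ Real.log X := Real.log_le_log (by norm_num) hX
    linarith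
  have hXA : 0 ≤ X / (Real.log X) ^ A := by positivity
  have h := hfin bP norm_bP_le M hM0.le hMb X hX
  have h1 : C4 * (1 + M / Real.log X) ≤ C4 * (1 + M * 2) := by
    gcongr
    rw [div_le_iff₀ hlog]
    nlinarith
  have hfl : 2 ≤ ⌊X⌋₊ := Nat.le_floor (by exact_mod_cast hX)
  have h2 : ∑ n ∈ Ioc 0 ⌊X⌋₊, bP n = ((∑ n ∈ Ioc 0 ⌊X⌋₊, Λ n - (⌊X⌋₊ - 1) : ℝ) : ℂ) := by
    have h3 : ∀ n ∈ Ioc 0 ⌊X⌋₊, bP n = ((Λ n - 1 + if n = 1 then 1 else 0 : ℝ) : ℂ) := by
      intro n hn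
      rw [mem_Ioc] at hn
      unfold bP
      by_cases h4 : n = 1
      · subst h4
        simp
      · rw [if_neg (by omega), if_neg h4]
        push_cast
        ring
    rw [sum_congr rfl h3, ← Complex.ofReal_sum, sum_add_distrib, sum_sub_distrib, sum_ite_eq',
      if_pos (mem_Ioc.mpr ⟨by norm_num, by omega⟩)]
    simp
    ring
  rw [h2, Complex.norm_real, Real.norm_eq_abs] at h
  have h4 : |((⌊X⌋₊ : ℝ) - 1) - X| ≤ 2 := by
    have a1 := Nat.floor_le (show 0 ≤ X by linarith)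
    have a2 := Nat.lt_floor_add_one X
    rw [abs_le]
    constructor <;> linarith
  have h5 : 2 ≤ 2 * K6 * (X / (Real.log X) ^ A) := by
    rw [mul_assoc]
    have h6 : 1 ≤ K6 * (X / (Real.log X) ^ A) := by
      rw [← mul_div_assoc, le_div_iff₀ (by positivity), one_mul]
      refine (hK6b X (by linarith)).trans ?_
      gcongr
      rw [Real.sqrt_le_left (by linarith)]
      nlinarith
    linarith
  calc |∑ n ∈ Ioc 0 ⌊X⌋₊, Λ n - X|
      = |(∑ n ∈ Ioc 0 ⌊X⌋₊, Λ n - (⌊X⌋₊ - 1)) + (((⌊X⌋₊ : ℝ) - 1) - X)| := by congr 1; ring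
    _ ≤ |∑ n ∈ Ioc 0 ⌊X⌋₊, Λ n - (⌊X⌋₊ - 1)| + |((⌊X⌋₊ : ℝ) - 1) - X| := abs_add_le _ _
    _ ≤ C4 * (1 + M * 2) * (X / (Real.log X) ^ A) + 2 * K6 * (X / (Real.log X) ^ A) := by
        refine add_le_add (h.trans ?_) (h4.trans h5)
        gcongr
    _ = _ := by ring

end Pool.Agent.SW
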