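import Mathlib

/-!
A smoothed Perron formula: `∑ a(n) (1 - n/X)_+` as a vertical integral, and bounds for
`∑_{n ≤ X} a(n)`.
-/

set_option autoImplicit false

namespace Pool.Agent.SW

open Finset MeasureTheory

/-- `(1 - u)` on `(0, 1]`, `0` elsewhere. -/
noncomputable def tri (u : ℝ) : ℂ :=
  Set.indicator (Set.Ioc 0 1) (fun _ => (1 : ℂ)) u - Set.indicator (Set.Ioc 0 1)
    (fun t : ℝ => (t : ℂ) ^ (1 : ℂ)) u

theorem tri_eq (u : ℝ) (hu : 0 < u) : tri u = ((max 0 (1 - u) : ℝ) : ℂ) := by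
  unfold tri
  by_cases h : u ≤ 1
  · have hm : u ∈ Set.Ioc (0 : ℝ) 1 := ⟨hu, h⟩
    rw [Set.indicator_of_mem hm, Set.indicator_of_mem hm, Complex.cpow_one,
      max_eq_right (by linarith)]
    push_cast
    ring
  · have h1 : u ∉ Set.Ioc (0 : ℝ) 1 := fun h' => h h'.2
    rw [Set.indicator_of_notMem h1, Set.indicator_of_notMem h1, max_eq_left (by linarith)]
    simp

theorem hasMellin_tri (s : ℂ) (hs : 0 < s.re) : HasMellin tri s (1 / (s * (s + 1))) := by
  have h1 := hasMellin_one_Ioc hs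
  have h2 := hasMellin_cpow_Ioc 1 (s := s) (by simp; linarith)
  have h3 := hasMellin_sub h1.1 h2.1
  have hs0 : s ≠ 0 := by
    intro h
    rw [h] at hs
    simp at hs
  have hs1 : s + 1 ≠ 0 := by
    intro h
    have : (s + 1).re = 0 := by rw [h]; simp
    simp at this
    linarith
  have h4 : (1 : ℂ) / (s * (s + 1)) = 1 / s - 1 / (s + 1) := by
    field_simp
    ring
  rw [h4, ← h1.2, ← h2.2]
  exact h3

theorem continuousAt_tri (u : ℝ) (hu : 0 < u) : ContinuousAt tri u := by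
  have h1 : ContinuousAt (fun u : ℝ => ((max 0 (1 - u) : ℝ) : ℂ)) u := by fun_prop
  refine h1.congr ?_
  filter_upwards [lt_mem_nhds hu] with v hv
  exact (tri_eq v hv).symm

/-- The kernel. -/
noncomputable def ker (σ y : ℝ) : ℂ :=
  1 / (((σ : ℂ) + y * Complex.I) * ((σ : ℂ) + y * Complex.I + 1))

theorem ker_ne (σ y : ℝ) (hσ : 0 < σ) :
    ((σ : ℂ) + y * Complex.I) * ((σ : ℂ) + y * Complex.I + 1) ≠ 0 := by
  apply mul_ne_zero
  · intro h
    have := congrArg Complex.re h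
    simp at this
    linarith
  · intro h
    have := congrArg Complex.re h
    simp at this
    linarith

theorem norm_ker_le (σ y : ℝ) (hσ : 1 ≤ σ) : ‖ker σ y‖ ≤ (1 + y ^ 2)⁻¹ := by
  unfold ker
  rw [norm_div, norm_one, one_div, norm_mul]
  apply inv_anti₀ (by positivity)
  have h1 : 1 + y ^ 2 ≤ ‖(σ : ℂ) + y * Complex.I‖ ^ 2 := by
    rw [← Complex.normSq_eq_norm_sq, Complex.normSq_apply]
    simp
    nlinarith
  have h2 : ‖(σ : ℂ) + y * Complex.I‖ ≤ ‖(σ : ℂ) + y * Complex.I + 1‖ := by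
    rw [← sq_le_sq₀ (norm_nonneg _) (norm_nonneg _), ← Complex.normSq_eq_norm_sq,
      ← Complex.normSq_eq_norm_sq, Complex.normSq_apply, Complex.normSq_apply]
    simp
    nlinarith
  calc 1 + y ^ 2 ≤ ‖(σ : ℂ) + y * Complex.I‖ * ‖(σ : ℂ) + y * Complex.I‖ := by rw [← sq]; exact h1
    _ ≤ _ := by gcongr

theorem continuous_ker (σ : ℝ) (hσ : 0 < σ) : Continuous (ker σ) := by
  unfold ker
  apply Continuous.div continuous_const (by fun_prop)
  intro y
  exact ker_ne σ y hσ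

theorem integrable_ker (σ : ℝ) (hσ : 1 ≤ σ) : Integrable (ker σ) := by
  refine Integrable.mono' integrable_inv_one_add_sq
    (continuous_ker σ (by linarith)).aestronglyMeasurable ?_
  filter_upwards with y
  exact norm_ker_le σ y hσ

/-- The kernel formula. -/
theorem kernel_formula (σ : ℝ) (hσ : 1 ≤ σ) (x : ℝ) (hx : 0 < x) :
    ((max 0 (1 - x) : ℝ) : ℂ) = (1 / (2 * Real.pi) : ℝ) •
      ∫ y : ℝ, (x : ℂ) ^ (-((σ : ℂ) + y * Complex.I)) * ker σ y := by
  have hσ0 : 0 < σ := by linarith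
  have hmel : ∀ y : ℝ, mellin tri ((σ : ℂ) + y * Complex.I) = ker σ y := by
    intro y
    exact (hasMellin_tri ((σ : ℂ) + y * Complex.I) (by simpa using hσ0)).2
  have h := mellinInv_mellin_eq σ tri hx (hasMellin_tri (σ : ℂ) (by simpa using hσ0)).1 ?_
    (continuousAt_tri x hx)
  · rw [← tri_eq x hx, ← h, mellinInv]
    congr 2
    funext y
    rw [hmel, smul_eq_mul]
  · unfold Complex.VerticalIntegrable
    simp only [hmel]
    exact integrable_ker σ hσ

theorem sqrt_le_rpow (y : ℝ) : √(|y| + 3) ≤ 2 * (1 + y ^ 2) ^ ((1 : ℝ) / 4) := by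
  have h0 : 0 ≤ 1 + y ^ 2 := by positivity
  have h1 : |y| + 3 ≤ 4 * √(1 + y ^ 2) := by
    have h2 : (|y| + 3) / 4 ≤ √(1 + y ^ 2) := by
      apply Real.le_sqrt_of_sq_le
      have : |y| ^ 2 = y ^ 2 := sq_abs y
      nlinarith [sq_nonneg (|y| - 1), abs_nonneg y]
    linarith
  calc √(|y| + 3) ≤ √(4 * √(1 + y ^ 2)) := Real.sqrt_le_sqrt h1
    _ = √4 * √√(1 + y ^ 2) := Real.sqrt_mul (by norm_num) _
    _ = 2 * (1 + y ^ 2) ^ ((1 : ℝ) / 4) := by
      have : √(4 : ℝ) = 2 := by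
        rw [show (4 : ℝ) = 2 ^ 2 by norm_num]
        exact Real.sqrt_sq (by norm_num)
      rw [this, Real.sqrt_eq_rpow, Real.sqrt_eq_rpow, ← Real.rpow_mul h0]
      norm_num

/-- The constant `∫ 2 (1+y²)^{-3/4} dy`. -/
noncomputable def KP : ℝ := ∫ y : ℝ, 2 * (1 + ‖y‖ ^ 2) ^ (-(3 / 2 : ℝ) / 2)

theorem integrable_KP : Integrable fun y : ℝ => 2 * (1 + ‖y‖ ^ 2) ^ (-(3 / 2 : ℝ) / 2) := by
  apply Integrable.const_mul
  apply integrable_rpow_neg_one_add_norm_sq
  norm_num

theorem KP_nonneg : 0 ≤ KP := integral_nonneg fun y => by positivity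

/-- The smoothed sum is bounded. -/
theorem perron_bound (a : ℕ → ℂ) (σ : ℝ) (hσ : 1 < σ) (ha : LSeriesSummable a σ) (M : ℝ)
    (hM0 : 0 ≤ M) (hM : ∀ y : ℝ, ‖LSeries a ((σ : ℂ) + y * Complex.I)‖ ≤ M * √(|y| + 3)) (X : ℝ)
    (hX : 0 < X) :
    ‖∑ n ∈ Ioc 0 ⌊X⌋₊, a n * ((1 - n / X : ℝ) : ℂ)‖ ≤ KP * M * X ^ σ := by
  have hXc : (X : ℂ) ≠ 0 := by exact_mod_cast hX.ne'
  set F : ℕ → ℝ → ℂ := fun n y => LSeries.term a ((σ : ℂ) + y * Complex.I) n
    * ((X : ℂ) ^ ((σ : ℂ) + y * Complex.I) * ker σ y) with hF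
  have hnormX : ∀ y : ℝ, ‖(X : ℂ) ^ ((σ : ℂ) + y * Complex.I)‖ = X ^ σ := by
    intro y
    rw [Complex.norm_cpow_eq_rpow_re_of_pos hX]
    simp
  have hterm : ∀ n (y : ℝ), ‖LSeries.term a ((σ : ℂ) + y * Complex.I) n‖
      = ‖LSeries.term a (σ : ℂ) n‖ := by
    intro n y
    rcases eq_or_ne n 0 with rfl | hn
    · simp
    · rw [LSeries.term_of_ne_zero hn, LSeries.term_of_ne_zero hn, norm_div, norm_div]
      have hn' : (0 : ℝ) < n := by exact_mod_cast Nat.pos_of_ne_zero hn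
      rw [← Complex.ofReal_natCast, Complex.norm_cpow_eq_rpow_re_of_pos hn',
        Complex.norm_cpow_eq_rpow_re_of_pos hn']
      simp
  have hFnorm : ∀ n y, ‖F n y‖ = ‖LSeries.term a (σ : ℂ) n‖ * X ^ σ * ‖ker σ y‖ := by
    intro n y
    simp only [hF]
    rw [norm_mul, norm_mul, hterm, hnormX]
    ring
  have hFcont : ∀ n, Continuous (F n) := by
    intro n
    simp only [hF]
    have h1 : Continuous fun y : ℝ => LSeries.term a ((σ : ℂ) + y * Complex.I) n := by
      rcases eq_or_ne n 0 with rfl | hn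
      · simp only [LSeries.term_zero]
        exact continuous_const
      · have hn' : (n : ℂ) ≠ 0 := by exact_mod_cast hn
        have : (fun y : ℝ => LSeries.term a ((σ : ℂ) + y * Complex.I) n)
            = fun y : ℝ => a n / (n : ℂ) ^ ((σ : ℂ) + y * Complex.I) := by
          funext y
          rw [LSeries.term_of_ne_zero hn]
        rw [this]
        apply Continuous.div continuous_const
        · exact Continuous.const_cpow (by fun_prop) (Or.inl hn')
        · intro y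
          exact (Complex.cpow_ne_zero_iff_of_exponent_ne_zero (by
            intro h
            have := congrArg Complex.re h
            simp at this
            linarith)).mpr hn'
    have h2 : Continuous fun y : ℝ => (X : ℂ) ^ ((σ : ℂ) + y * Complex.I) :=
      Continuous.const_cpow (by fun_prop) (Or.inl hXc)
    exact h1.mul (h2.mul (continuous_ker σ (by linarith)))
  have hFint : ∀ n, Integrable (F n) := by
    intro n
    refine Integrable.mono' ((integrable_ker σ hσ.le).norm.const_mul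
      (‖LSeries.term a (σ : ℂ) n‖ * X ^ σ)) (hFcont n).aestronglyMeasurable ?_
    filter_upwards with y
    rw [hFnorm]
  have hFsum : Summable fun n => ∫ y, ‖F n y‖ := by
    simp only [hFnorm]
    simp only [integral_const_mul]
    exact (ha.norm.mul_right _).mul_right _
  have hsum : HasSum (fun n => ∫ y, F n y) (∫ y, ∑' n, F n y) :=
    hasSum_integral_of_summable_integral_norm hFint hFsum
  -- identify the integrals of `F n`
  have hker : ∀ n, (1 / (2 * Real.pi) : ℝ) • ∫ y, F n y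
      = if n ∈ Ioc 0 ⌊X⌋₊ then a n * ((1 - n / X : ℝ) : ℂ) else 0 := by
    intro n
    rcases eq_or_ne n 0 with rfl | hn
    · simp [hF]
    · have hn' : (0 : ℝ) < n := by exact_mod_cast Nat.pos_of_ne_zero hn
      have hnc : (n : ℂ) ≠ 0 := by exact_mod_cast hn
      have h1 : ∀ y : ℝ, F n y = a n * (((n / X : ℝ) : ℂ) ^ (-((σ : ℂ) + y * Complex.I))
          * ker σ y) := by
        intro y
        simp only [hF]
        rw [LSeries.term_of_ne_zero hn]
        have h2 : ((n / X : ℝ) : ℂ) ^ (-((σ : ℂ) + y * Complex.I))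
            = (X : ℂ) ^ ((σ : ℂ) + y * Complex.I) / (n : ℂ) ^ ((σ : ℂ) + y * Complex.I) := by
          rw [div_eq_mul_inv (n : ℝ) X, Complex.ofReal_mul,
            Complex.mul_cpow_ofReal_nonneg hn'.le (by positivity), Complex.ofReal_inv,
            Complex.inv_cpow _ _ (by
              rw [Complex.arg_ofReal_of_nonneg hX.le]
              exact Real.pi_pos.ne), Complex.cpow_neg, Complex.cpow_neg, inv_inv,
            Complex.ofReal_natCast, div_eq_mul_inv, mul_comm]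
        rw [h2]
        ring
      simp only [h1]
      rw [integral_const_mul, ← mul_smul_comm, ← kernel_formula σ hσ.le (n / X) (by positivity)]
      split_ifs with h
      · rw [mem_Ioc] at h
        have h3 : (n : ℝ) ≤ X := (Nat.le_floor_iff hX.le).mp h.2
        rw [max_eq_right]
        rw [sub_nonneg, div_le_one hX]
        exact h3
      · have h3 : X < n := by
          rw [mem_Ioc] at h
          by_contra h4
          push Not at h4
          exact h ⟨Nat.pos_of_ne_zero hn, Nat.le_floor h4⟩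
        rw [max_eq_left, Complex.ofReal_zero, mul_zero]
        rw [sub_nonpos, one_le_div hX]
        exact h3.le
  have hsum2 : HasSum (fun n => (1 / (2 * Real.pi) : ℝ) • ∫ y, F n y)
      ((1 / (2 * Real.pi) : ℝ) • ∫ y, ∑' n, F n y) := hsum.const_smul (1 / (2 * Real.pi) : ℝ)
  simp only [hker] at hsum2
  have hfin : HasSum (fun n => if n ∈ Ioc 0 ⌊X⌋₊ then a n * ((1 - n / X : ℝ) : ℂ) else 0)
      (∑ n ∈ Ioc 0 ⌊X⌋₊, a n * ((1 - n / X : ℝ) : ℂ)) := by
    have h6 : HasSum (fun n => if n ∈ Ioc 0 ⌊X⌋₊ then a n * ((1 - n / X : ℝ) : ℂ) else 0)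
        (∑ n ∈ Ioc 0 ⌊X⌋₊, if n ∈ Ioc 0 ⌊X⌋₊ then a n * ((1 - n / X : ℝ) : ℂ) else 0) :=
      hasSum_sum_of_ne_finset_zero fun n hn => if_neg hn
    rwa [sum_congr rfl (fun n hn => if_pos hn)] at h6
  rw [hfin.unique hsum2, norm_smul]
  have hpi : ‖(1 / (2 * Real.pi) : ℝ)‖ ≤ 1 := by
    rw [Real.norm_eq_abs, abs_of_nonneg (by positivity), div_le_one (by positivity)]
    linarith [Real.pi_gt_three]
  have hbd : ∀ y : ℝ, ‖∑' n, F n y‖ ≤ (M * X ^ σ) * (2 * (1 + ‖y‖ ^ 2) ^ (-(3 / 2 : ℝ) / 2)) := by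
    intro y
    have h1 : ∑' n, F n y = LSeries a ((σ : ℂ) + y * Complex.I)
        * ((X : ℂ) ^ ((σ : ℂ) + y * Complex.I) * ker σ y) := by
      simp only [hF]
      rw [tsum_mul_right]
      rfl
    rw [h1, norm_mul, norm_mul, hnormX]
    have h2 := norm_ker_le σ y hσ.le
    have h3 := sqrt_le_rpow y
    have h4 : (1 + y ^ 2)⁻¹ * (1 + y ^ 2) ^ ((1 : ℝ) / 4) = (1 + ‖y‖ ^ 2) ^ (-(3 / 2 : ℝ) / 2) := by
      have h0 : 0 < 1 + y ^ 2 := by positivity
      rw [← Real.rpow_neg_one, ← Real.rpow_add h0, Real.norm_eq_abs, sq_abs]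
      norm_num
    calc ‖LSeries a ((σ : ℂ) + y * Complex.I)‖ * (X ^ σ * ‖ker σ y‖)
        ≤ (M * (2 * (1 + y ^ 2) ^ ((1 : ℝ) / 4))) * (X ^ σ * (1 + y ^ 2)⁻¹) := by
          gcongr
          exact (hM y).trans (by gcongr)
      _ = (M * X ^ σ) * (2 * ((1 + y ^ 2)⁻¹ * (1 + y ^ 2) ^ ((1 : ℝ) / 4))) := by ring
      _ = _ := by rw [h4]
  have h5 : ‖∫ y, ∑' n, F n y‖ ≤ (M * X ^ σ) * KP := by
    refine (norm_integral_le_of_norm_le (integrable_KP.const_mul (M * X ^ σ)) ?_).trans ?_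
    · filter_upwards with y
      exact hbd y
    · rw [integral_const_mul, KP]
  calc _ ≤ 1 * ((M * X ^ σ) * KP) := by
        gcongr
    _ = _ := by ring

end Pool.Agent.SW
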