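import Pool.Agent.Work.SW.SiegelB
import Pool.Agent.Work.SW.LogDer

/-!
Lower bounds for `L(s, χ)` on `1 < Re s ≤ 2` for all non-principal characters, and the resulting
growth bounds for `∑ Λ(n) χ(n) (log n)^k n^{-s}`.
-/

set_option autoImplicit false

namespace Pool.Agent.SW

open Finset Filter

theorem mem_hseg (s : ℂ) (h1 : 1 < s.re) (h2 : s.re ≤ 2) : s ∈ hseg s.im := ⟨h1, h2, rfl⟩

theorem norm_Lf_le' {q : ℕ} [NeZero q] (χ : DirichletCharacter ℂ q) (hχ : χ ≠ 1) (j : ℕ) (t : ℝ)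
    (s : ℂ) (hs : s ∈ hseg t) : ‖Lf χ j s‖ ≤ CJ j * LL q t ^ (j + 1) := by
  have := norm_Lf_le χ hχ j s hs.1 hs.2.1
  rwa [hs.2.2] at this

/-- Complex characters. -/
theorem lower_complex {q : ℕ} [NeZero q] (χ : DirichletCharacter ℂ q) (hχ : χ ≠ 1)
    (hχ2 : χ ^ 2 ≠ 1) (s : ℂ) (h1 : 1 < s.re) (h2 : s.re ≤ 2) :
    1 / (32 * C1 ^ 3 * CJ 1 ^ 3 * CJ 0) / LL q s.im ^ 7 ≤ ‖Lf χ 0 s‖ := by
  have hq : (1 : ℝ) ≤ q := by exact_mod_cast Nat.pos_of_ne_zero (NeZero.ne q)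
  have hLL := one_le_LL q s.im hq
  have hC1 := C1_pos
  have hJ0 := CJ_pos 0
  have hJ1 := CJ_pos 1
  have h := lower341 χ s.im (CJ 1 * LL q s.im ^ 2) (CJ 0 * (2 * LL q s.im)) ?_ ?_
    (fun z hz => norm_Lf_le' χ hχ 1 s.im z hz) ?_ s (mem_hseg s h1 h2)
  · refine le_trans (le_of_eq ?_) h
    field_simp
    ring
  · exact one_le_mul_of_one_le_of_one_le hJ1 (one_le_pow₀ hLL)
  · exact one_le_mul_of_one_le_of_one_le hJ0 (by linarith)
  · intro z hz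
    have h3 := norm_Lf_le' (χ ^ 2) hχ2 0 (2 * s.im) z hz
    rw [zero_add, pow_one] at h3
    refine h3.trans ?_
    gcongr
    exact LL_le_two q s.im hq

/-- Real characters away from the real axis. -/
theorem lower_real_far {q : ℕ} [NeZero q] (χ : DirichletCharacter ℂ q) (hχ : χ ≠ 1)
    (hχ2 : χ ^ 2 = 1) (τ : ℝ) (hτ : 0 < τ) (hτ1 : τ ≤ 1) (s : ℂ) (h1 : 1 < s.re) (h2 : s.re ≤ 2)
    (ht : τ ≤ |s.im|) :
    1 / (16 * C1 ^ 3 * CJ 1 ^ 3 * (2 * (CJ 0 + CZ 0) + 1)) * τ / LL q s.im ^ 7 ≤ ‖Lf χ 0 s‖ := by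
  have hq : (1 : ℝ) ≤ q := by exact_mod_cast Nat.pos_of_ne_zero (NeZero.ne q)
  have hLL := one_le_LL q s.im hq
  have hC1 := C1_pos
  have hJ0 := CJ_pos 0
  have hJ1 := CJ_pos 1
  have hZ0 := CZ_pos 0
  have hK : 1 ≤ 2 * (CJ 0 + CZ 0) + 1 := by linarith
  have h := lower341 χ s.im (CJ 1 * LL q s.im ^ 2) ((2 * (CJ 0 + CZ 0) + 1) * LL q s.im / τ) ?_ ?_
    (fun z hz => norm_Lf_le' χ hχ 1 s.im z hz) ?_ s (mem_hseg s h1 h2)
  · refine le_trans (le_of_eq ?_) h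
    field_simp
  · exact one_le_mul_of_one_le_of_one_le hJ1 (one_le_pow₀ hLL)
  · rw [le_div_iff₀ hτ, one_mul]
    exact hτ1.trans (one_le_mul_of_one_le_of_one_le hK hLL)
  · intro z hz
    rw [hχ2]
    refine (norm_Lf_one_le z hz.1 hz.2.1).trans ?_
    rw [hz.2.2]
    have h3 : LL q (2 * s.im) ≤ 2 * LL q s.im := LL_le_two q s.im hq
    have h4 : τ ≤ ‖z - 1‖ := by
      have h5 : |(z - 1).im| ≤ ‖z - 1‖ := Complex.abs_im_le_norm _
      rw [Complex.sub_im, Complex.one_im, sub_zero, hz.2.2, abs_mul, abs_two] at h5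
      linarith [abs_nonneg s.im]
    have h5 : 1 / ‖z - 1‖ ≤ 1 / τ := one_div_le_one_div_of_le hτ h4
    calc (CJ 0 + CZ 0) * LL q (2 * s.im) + 1 / ‖z - 1‖
        ≤ (CJ 0 + CZ 0) * (2 * LL q s.im) + 1 / τ := by gcongr
      _ ≤ (CJ 0 + CZ 0) * (2 * LL q s.im) / τ + LL q s.im / τ := by
          have h6 : (CJ 0 + CZ 0) * (2 * LL q s.im) ≤ (CJ 0 + CZ 0) * (2 * LL q s.im) / τ := by
            rw [le_div_iff₀ hτ]
            apply mul_le_of_le_one_right _ hτ1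
            positivity
          have h7 : 1 / τ ≤ LL q s.im / τ := by gcongr
          linarith
      _ = _ := by ring

/-- Real characters on the real axis: lower bound in terms of `L(1, χ)`. -/
theorem lower_real_axis {q : ℕ} [NeZero q] (χ : DirichletCharacter ℂ q) (hχ : χ ≠ 1)
    (hχ2 : χ ^ 2 = 1) (σ : ℝ) (h1 : 1 < σ) (h2 : σ ≤ 2) :
    Lr (cre χ) 1 / (2 * C1 * CJ 1 * LL q 0 ^ 2) ≤ ‖Lf χ 0 (σ : ℂ)‖ := by
  have hq : (1 : ℝ) ≤ q := by exact_mod_cast Nat.pos_of_ne_zero (NeZero.ne q)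
  have hLL := one_le_LL q 0 hq
  have hC1 := C1_pos
  have hJ1 := CJ_pos 1
  set D := CJ 1 * LL q 0 ^ 2 with hD
  have hD1 : 1 ≤ D := one_le_mul_of_one_le_of_one_le hJ1 (one_le_pow₀ hLL)
  set L1 := Lr (cre χ) 1 with hL1
  have hL1pos : 0 < L1 := Lr_one_pos hχ2 hχ
  have hrc := rc_cre hχ2 hχ
  -- Lipschitz
  have hlip : L1 - D * (σ - 1) ≤ Lr (cre χ) σ := by
    have h3 : Tendsto (fun x : ℝ => Lr (cre χ) x - D * (σ - x)) (nhdsWithin 1 (Set.Ioi 1))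
        (nhds (L1 - D * (σ - 1))) := by
      have h4 : Tendsto (Lr (cre χ)) (nhdsWithin 1 (Set.Ioi 1)) (nhds L1) := by
        have h5 := Lr_continuousOn (cre χ) q hrc.sum (1 / 2) (by norm_num)
        exact (h5 1 (by norm_num)).mono_left (nhdsWithin_mono _ (fun x hx => by
          have : (1 : ℝ) < x := hx
          show (1 / 2 : ℝ) ≤ x
          linarith))
      have h6 : Tendsto (fun x : ℝ => D * (σ - x)) (nhdsWithin 1 (Set.Ioi 1))
          (nhds (D * (σ - 1))) := by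
        apply Tendsto.mono_left _ nhdsWithin_le_nhds
        exact (Continuous.tendsto (by fun_prop) 1)
      exact h4.sub h6
    apply le_of_tendsto h3
    filter_upwards [Ioo_mem_nhdsGT h1] with x hx
    have hx1 : 1 < x := hx.1
    have hxσ : x < σ := hx.2
    have h7 := Lf_lipschitz (NeZero.ne q) χ (hseg 0) (convex_hseg 0) (fun s hs => hs.1) D
      (fun s hs => norm_Lf_le' χ hχ 1 0 s hs) (x : ℂ) (σ : ℂ)
      ⟨by simpa using hx1, by simp; linarith, by simp⟩ ⟨by simpa using h1, by simpa using h2, by simp⟩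
    rw [Lf_eq_Lr hχ2 hχ σ h1, Lf_eq_Lr hχ2 hχ x hx1, ← Complex.ofReal_sub, ← Complex.ofReal_sub,
      Complex.norm_real, Complex.norm_real, Real.norm_eq_abs, Real.norm_eq_abs,
      abs_of_pos (by linarith : 0 < σ - x)] at h7
    have := (abs_le.mp h7).1
    linarith
  set η := L1 / (2 * D) with hη
  have hη0 : 0 < η := by positivity
  have hgoal : L1 / (2 * C1 * CJ 1 * LL q 0 ^ 2) = η / C1 := by
    rw [hη, hD]
    field_simp
  rw [hgoal]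
  rcases le_total (σ - 1) η with h | h
  · have h3 : L1 / 2 ≤ Lr (cre χ) σ := by
      have h4 : D * (σ - 1) ≤ D * η := by gcongr
      have h5 : D * η = L1 / 2 := by rw [hη]; field_simp
      linarith
    rw [Lf_eq_Lr hχ2 hχ σ h1, Complex.norm_real, Real.norm_eq_abs]
    refine le_trans ?_ (h3.trans (le_abs_self _))
    rw [hη, div_div, div_le_div_iff₀ (by positivity) (by norm_num)]
    have : 1 ≤ D * C1 := one_le_mul_of_one_le_of_one_le hD1 hC1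
    nlinarith
  · -- use 3-4-1 at t = 0
    have h3 := DirichletCharacter.norm_LSeries_product_ge_one χ (x := σ - 1) (by linarith) 0
    rw [norm_mul, norm_mul, norm_pow, norm_pow] at h3
    have e0 : (1 : ℂ) + ((σ - 1 : ℝ) : ℂ) = (σ : ℂ) := by push_cast; ring
    rw [e0] at h3
    have e1 : (σ : ℂ) + Complex.I * ((0 : ℝ) : ℂ) = (σ : ℂ) := by simp
    have e2 : (σ : ℂ) + 2 * Complex.I * ((0 : ℝ) : ℂ) = (σ : ℂ) := by simp
    rw [e1, e2, ← Lf_zero, ← Lf_zero, ← Lf_zero] at h3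
    have hx : 0 < σ - 1 := by linarith
    have h4 : ‖Lf (1 : DirichletCharacter ℂ q) 0 (σ : ℂ)‖ ≤ C1 / (σ - 1) := by
      have := norm_Lf_le_zeta (1 : DirichletCharacter ℂ q) (σ : ℂ) (by simpa using h1)
        (by simpa using h2)
      simpa using this
    have h5 : ‖Lf (χ ^ 2) 0 (σ : ℂ)‖ ≤ C1 / (σ - 1) := by
      have := norm_Lf_le_zeta (χ ^ 2) (σ : ℂ) (by simpa using h1) (by simpa using h2)
      simpa using this
    have h6 : 1 ≤ (C1 / (σ - 1)) ^ 3 * ‖Lf χ 0 (σ : ℂ)‖ ^ 4 * (C1 / (σ - 1)) := by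
      refine le_trans h3 ?_
      have : 0 ≤ C1 / (σ - 1) := by positivity
      gcongr
    have h7 : 1 ≤ ((C1 / (σ - 1)) * ‖Lf χ 0 (σ : ℂ)‖) ^ 4 := by
      calc 1 ≤ _ := h6
        _ = _ := by ring
    have h8 : 1 ≤ (C1 / (σ - 1)) * ‖Lf χ 0 (σ : ℂ)‖ := by
      by_contra hcon
      push Not at hcon
      have := pow_lt_one₀ (by positivity) hcon (n := 4) (by norm_num)
      linarith
    have h9 : (σ - 1) / C1 ≤ ‖Lf χ 0 (σ : ℂ)‖ := by
      rw [div_le_iff₀ (by linarith)]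
      rw [div_mul_eq_mul_div, le_div_iff₀ hx] at h8
      linarith
    refine le_trans ?_ h9
    gcongr

theorem LL_one_le (q t : ℝ) (hq : 1 ≤ q) : LL q 1 ≤ 2 * LL q t ∧ LL q 0 ≤ 2 * LL q t := by
  have h1 : LL q 0 ≤ LL q t := LL_mono q q 0 t hq le_rfl (by simp)
  have h2 := one_le_LL q 0 hq
  have h3 : LL q 1 ≤ 2 * LL q 0 := by
    unfold LL at *
    have h4 : q * (|1| + 3) ≤ 2 * (q * (|0| + 3)) := by
      rw [abs_one, abs_zero]
      linarith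
    calc Real.log (q * (|1| + 3)) ≤ Real.log (2 * (q * (|0| + 3))) :=
          Real.log_le_log (by positivity) h4
      _ = Real.log 2 + Real.log (q * (|0| + 3)) := Real.log_mul (by norm_num) (by positivity)
      _ ≤ _ := by linarith [Real.log_two_lt_d9]
  constructor <;> linarith

/-- The convex box around the real axis. -/
def box (τ : ℝ) : Set ℂ := {s | 1 < s.re ∧ s.re ≤ 2 ∧ |s.im| ≤ τ}

theorem convex_box (τ : ℝ) : Convex ℝ (box τ) := by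
  intro x hx y hy a b ha hb hab
  obtain ⟨h1, h2, h3⟩ := hx
  obtain ⟨h4, h5, h6⟩ := hy
  have e1 : (a • x + b • y).re = a * x.re + b * y.re := by simp
  have e2 : (a • x + b • y).im = a * x.im + b * y.im := by simp
  refine ⟨?_, ?_, ?_⟩
  · rw [e1]
    rcases eq_or_lt_of_le ha with h | h
    · rw [← h] at hab ⊢
      have : b = 1 := by linarith
      rw [this]
      linarith
    · nlinarith
  · rw [e1]
    nlinarith
  · rw [e2]
    calc |a * x.im + b * y.im| ≤ |a * x.im| + |b * y.im| := abs_add_le _ _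
      _ = a * |x.im| + b * |y.im| := by rw [abs_mul, abs_mul, abs_of_nonneg ha, abs_of_nonneg hb]
      _ ≤ a * τ + b * τ := by gcongr
      _ = τ := by rw [← add_mul, hab, one_mul]

/-- Real characters: lower bound in terms of `L(1, χ)`. -/
theorem lower_real {q : ℕ} [NeZero q] (χ : DirichletCharacter ℂ q) (hχ : χ ≠ 1)
    (hχ2 : χ ^ 2 = 1) (lam : ℝ) (hlam : 0 < lam) (hlam1 : lam ≤ 1) (hL : lam ≤ Lr (cre χ) 1)
    (s : ℂ) (h1 : 1 < s.re) (h2 : s.re ≤ 2) :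
    1 / (16 * C1 ^ 3 * CJ 1 ^ 3 * (2 * (CJ 0 + CZ 0) + 1)) / (64 * C1 * CJ 1 ^ 2) * lam
      / LL q s.im ^ 11 ≤ ‖Lf χ 0 s‖ := by
  have hq : (1 : ℝ) ≤ q := by exact_mod_cast Nat.pos_of_ne_zero (NeZero.ne q)
  have hLL := one_le_LL q s.im hq
  have hLL0 := one_le_LL q 0 hq
  have hLL1 := one_le_LL q 1 hq
  obtain ⟨hl1, hl0⟩ := LL_one_le q s.im hq
  have hC1 := C1_pos
  have hJ0 := CJ_pos 0
  have hJ1 := CJ_pos 1
  have hZ0 := CZ_pos 0
  set K := 16 * C1 ^ 3 * CJ 1 ^ 3 * (2 * (CJ 0 + CZ 0) + 1) with hK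
  have hK1 : 1 ≤ K := by
    have a1 : 1 ≤ C1 ^ 3 := one_le_pow₀ hC1
    have a2 : 1 ≤ CJ 1 ^ 3 := one_le_pow₀ hJ1
    have a3 : 1 ≤ C1 ^ 3 * CJ 1 ^ 3 := one_le_mul_of_one_le_of_one_le a1 a2
    have a4 : 1 ≤ C1 ^ 3 * CJ 1 ^ 3 * (2 * (CJ 0 + CZ 0) + 1) :=
      one_le_mul_of_one_le_of_one_le a3 (by linarith)
    rw [hK]
    nlinarith
  set ℓ := LL q s.im with hℓ
  set δ := lam / (2 * C1 * CJ 1 * LL q 0 ^ 2) with hδ
  have hδ0 : 0 < δ := by positivity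
  set τ := δ / (2 * (CJ 1 * LL q 1 ^ 2)) with hτ
  have hτ0 : 0 < τ := by positivity
  have hδ1 : δ ≤ 1 := by
    rw [hδ, div_le_one (by positivity)]
    have a1 : 1 ≤ C1 * CJ 1 := one_le_mul_of_one_le_of_one_le hC1 hJ1
    have a2 : 1 ≤ C1 * CJ 1 * LL q 0 ^ 2 := one_le_mul_of_one_le_of_one_le a1 (one_le_pow₀ hLL0)
    nlinarith
  have hτ1 : τ ≤ 1 := by
    rw [hτ, div_le_one (by positivity)]
    have a2 : 1 ≤ CJ 1 * LL q 1 ^ 2 := one_le_mul_of_one_le_of_one_le hJ1 (one_le_pow₀ hLL1)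
    nlinarith
  have hδlow : lam / (8 * C1 * CJ 1 * ℓ ^ 2) ≤ δ := by
    rw [hδ]
    apply div_le_div_of_nonneg_left hlam.le (by positivity)
    have : LL q 0 ^ 2 ≤ (2 * ℓ) ^ 2 := by gcongr
    calc 2 * C1 * CJ 1 * LL q 0 ^ 2 ≤ 2 * C1 * CJ 1 * (2 * ℓ) ^ 2 := by gcongr
      _ = _ := by ring
  have hτlow : lam / (64 * C1 * CJ 1 ^ 2 * ℓ ^ 4) ≤ τ := by
    have h3 : δ / (8 * CJ 1 * ℓ ^ 2) ≤ τ := by
      rw [hτ]
      apply div_le_div_of_nonneg_left hδ0.le (by positivity)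
      have : LL q 1 ^ 2 ≤ (2 * ℓ) ^ 2 := by gcongr
      calc 2 * (CJ 1 * LL q 1 ^ 2) ≤ 2 * (CJ 1 * (2 * ℓ) ^ 2) := by gcongr
        _ = _ := by ring
    refine le_trans ?_ h3
    calc lam / (64 * C1 * CJ 1 ^ 2 * ℓ ^ 4)
        = lam / (8 * C1 * CJ 1 * ℓ ^ 2) / (8 * CJ 1 * ℓ ^ 2) := by
          field_simp
          norm_num
      _ ≤ _ := by gcongr
  rcases le_total |s.im| τ with h | h
  · -- near the axis
    have h3 := Lf_lipschitz (NeZero.ne q) χ (box τ) (convex_box τ) (fun s hs => hs.1)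
      (CJ 1 * LL q 1 ^ 2) (fun z hz => by
        have h4 := norm_Lf_le χ hχ 1 z hz.1 hz.2.1
        refine h4.trans ?_
        have h5 : LL q z.im ≤ LL q 1 := LL_mono q q _ _ hq le_rfl (by
          rw [abs_one]
          exact hz.2.2.trans hτ1)
        have h6 := one_le_LL q z.im hq
        gcongr) (s.re : ℂ) s ⟨by simpa using h1, by simpa using h2, by simp; exact hτ0.le⟩
        ⟨h1, h2, h⟩
    have h4 := lower_real_axis χ hχ hχ2 s.re h1 h2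
    have h5 : δ ≤ ‖Lf χ 0 ((s.re : ℝ) : ℂ)‖ := by
      refine le_trans ?_ h4
      rw [hδ]
      gcongr
    have h6 : ‖s - ((s.re : ℝ) : ℂ)‖ ≤ τ := by
      have : s - ((s.re : ℝ) : ℂ) = ((s.im : ℝ) : ℂ) * Complex.I := by
        apply Complex.ext <;> simp
      rw [this, norm_mul, Complex.norm_real, Complex.norm_I, mul_one]
      exact h
    have h7 : ‖Lf χ 0 ((s.re : ℝ) : ℂ)‖ ≤ ‖Lf χ 0 s‖ + ‖Lf χ 0 s - Lf χ 0 ((s.re : ℝ) : ℂ)‖ := by
      have := norm_sub_le (Lf χ 0 s) (Lf χ 0 s - Lf χ 0 ((s.re : ℝ) : ℂ))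
      rwa [sub_sub_cancel] at this
    have h8 : (CJ 1 * LL q 1 ^ 2) * ‖s - ((s.re : ℝ) : ℂ)‖ ≤ δ / 2 := by
      calc _ ≤ (CJ 1 * LL q 1 ^ 2) * τ := by gcongr
        _ = δ / 2 := by rw [hτ]; field_simp
    have h9 : δ / 2 ≤ ‖Lf χ 0 s‖ := by linarith
    refine le_trans ?_ h9
    have h10 : lam / (8 * C1 * CJ 1 * ℓ ^ 2) / 2 ≤ δ / 2 := by gcongr
    refine le_trans ?_ h10
    have h11 : 1 / K / (64 * C1 * CJ 1 ^ 2) * lam / ℓ ^ 11
        = lam / (64 * C1 * CJ 1 ^ 2 * ℓ ^ 11 * K) := by field_simp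
    have h12 : lam / (8 * C1 * CJ 1 * ℓ ^ 2) / 2 = lam / (16 * C1 * CJ 1 * ℓ ^ 2) := by
      rw [div_div]; congr 1; ring
    rw [h11, h12]
    apply div_le_div_of_nonneg_left hlam.le (by positivity)
    have a1 : ℓ ^ 2 ≤ ℓ ^ 11 := pow_le_pow_right₀ hLL (by norm_num)
    have a2 : CJ 1 ≤ CJ 1 ^ 2 := by nlinarith
    calc 16 * C1 * CJ 1 * ℓ ^ 2 ≤ 64 * C1 * CJ 1 ^ 2 * ℓ ^ 11 := by
          gcongr
          norm_num
      _ ≤ 64 * C1 * CJ 1 ^ 2 * ℓ ^ 11 * K := by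
          apply le_mul_of_one_le_right (by positivity) hK1
  · have h3 := lower_real_far χ hχ hχ2 τ hτ0 hτ1 s h1 h2 h
    refine le_trans ?_ h3
    have h4 : 1 / K / (64 * C1 * CJ 1 ^ 2) * lam / ℓ ^ 11
        = 1 / K * (lam / (64 * C1 * CJ 1 ^ 2 * ℓ ^ 4)) / ℓ ^ 7 := by
      field_simp
    rw [h4]
    gcongr

/-- A universal constant. -/
noncomputable def c0 : ℝ :=
  min (1 / (32 * C1 ^ 3 * CJ 1 ^ 3 * CJ 0))
    (1 / (16 * C1 ^ 3 * CJ 1 ^ 3 * (2 * (CJ 0 + CZ 0) + 1)) / (64 * C1 * CJ 1 ^ 2))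

theorem c0_pos : 0 < c0 := by
  have hC1 := C1_pos
  have hJ0 := CJ_pos 0
  have hJ1 := CJ_pos 1
  have hZ0 := CZ_pos 0
  unfold c0
  apply lt_min <;> positivity

theorem c0_le_one : c0 ≤ 1 := by
  have hC1 := C1_pos
  have hJ0 := CJ_pos 0
  have hJ1 := CJ_pos 1
  refine (min_le_left _ _).trans ?_
  rw [div_le_one (by positivity)]
  have a1 : 1 ≤ C1 ^ 3 := one_le_pow₀ hC1
  have a2 : 1 ≤ CJ 1 ^ 3 := one_le_pow₀ hJ1
  have a3 : 1 ≤ C1 ^ 3 * CJ 1 ^ 3 := one_le_mul_of_one_le_of_one_le a1 a2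
  have a4 : 1 ≤ C1 ^ 3 * CJ 1 ^ 3 * CJ 0 := one_le_mul_of_one_le_of_one_le a3 hJ0
  nlinarith

/-- The unified lower bound: `lam` is `1` for complex characters, and a lower bound for
`L(1, χ)` for real ones. -/
theorem lower_all {q : ℕ} [NeZero q] (χ : DirichletCharacter ℂ q) (hχ : χ ≠ 1)
    (lam : ℝ) (hlam : 0 < lam) (hlam1 : lam ≤ 1) (hL : χ ^ 2 = 1 → lam ≤ Lr (cre χ) 1)
    (s : ℂ) (h1 : 1 < s.re) (h2 : s.re ≤ 2) : c0 * lam / LL q s.im ^ 11 ≤ ‖Lf χ 0 s‖ := by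
  have hq : (1 : ℝ) ≤ q := by exact_mod_cast Nat.pos_of_ne_zero (NeZero.ne q)
  have hLL := one_le_LL q s.im hq
  have hc0 := c0_pos
  by_cases hχ2 : χ ^ 2 = 1
  · refine le_trans ?_ (lower_real χ hχ hχ2 lam hlam hlam1 (hL hχ2) s h1 h2)
    gcongr
    exact min_le_right _ _
  · refine le_trans ?_ (lower_complex χ hχ hχ2 s h1 h2)
    have h3 : c0 * lam ≤ 1 / (32 * C1 ^ 3 * CJ 1 ^ 3 * CJ 0) * 1 := by
      have hC1 := C1_pos
      have hJ0 := CJ_pos 0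
      have hJ1 := CJ_pos 1
      apply mul_le_mul (min_le_left _ _) hlam1 hlam.le (by positivity)
    rw [mul_one] at h3
    have h4 : LL q s.im ^ 7 ≤ LL q s.im ^ 11 := pow_le_pow_right₀ hLL (by norm_num)
    calc c0 * lam / LL q s.im ^ 11 ≤ c0 * lam / LL q s.im ^ 7 := by gcongr
      _ ≤ _ := by gcongr

/-- Growth of `Af`. -/
theorem Af_growth (k : ℕ) : ∃ C : ℝ, 0 < C ∧ ∀ (q : ℕ) [NeZero q] (χ : DirichletCharacter ℂ q),
    χ ≠ 1 → ∀ lam : ℝ, 0 < lam → lam ≤ 1 → (χ ^ 2 = 1 → lam ≤ Lr (cre χ) 1) →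
    ∀ s : ℂ, 1 < s.re → s.re ≤ 2 →
      ‖Af χ k s‖ ≤ C / lam ^ (k + 1) * LL q s.im ^ ((k + 13) * (k + 1)) := by
  set CM : ℝ := ∑ j ∈ range (k + 2), CJ j with hCM
  have hCM1 : 1 ≤ CM := by
    rw [hCM]
    refine (CJ_pos 0).trans (single_le_sum (f := fun j => CJ j) (fun j _ => ?_) (by simp))
    linarith [CJ_pos j]
  have hc0 := c0_pos
  have hCA := CA_pos k
  refine ⟨CA k * (CM / c0) ^ (k + 1), by positivity, ?_⟩
  intro q _ χ hχ lam hlam hlam1 hL s h1 h2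
  have hq : (1 : ℝ) ≤ q := by exact_mod_cast Nat.pos_of_ne_zero (NeZero.ne q)
  have hLL := one_le_LL q s.im hq
  set ℓ := LL q s.im with hℓ
  have hlow := lower_all χ hχ lam hlam hlam1 hL s h1 h2
  have hδ0 : 0 < c0 * lam / ℓ ^ 11 := by positivity
  have hδ1 : c0 * lam / ℓ ^ 11 ≤ 1 := by
    rw [div_le_one (by positivity)]
    have a1 : 1 ≤ ℓ ^ 11 := one_le_pow₀ hLL
    have := c0_le_one
    nlinarith
  have h := Af_bound χ s h1 (CM * ℓ ^ (k + 2)) (c0 * lam / ℓ ^ 11)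
    (one_le_mul_of_one_le_of_one_le hCM1 (one_le_pow₀ hLL)) hδ0 hδ1 hlow k (fun j hj => by
      refine (norm_Lf_le χ hχ j s h1 h2).trans ?_
      have h3 : CJ j ≤ CM := single_le_sum (f := fun j => CJ j) (fun j _ => by
        linarith [CJ_pos j]) (by rw [mem_range]; omega)
      have h4 : ℓ ^ (j + 1) ≤ ℓ ^ (k + 2) := pow_le_pow_right₀ hLL (by omega)
      have h5 := CJ_pos j
      gcongr)
  refine h.trans (le_of_eq ?_)
  have h5 : CM * ℓ ^ (k + 2) / (c0 * lam / ℓ ^ 11) = CM / c0 / lam * ℓ ^ (k + 13) := by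
    rw [show k + 13 = (k + 2) + 11 by ring, pow_add ℓ (k + 2) 11]
    field_simp
  rw [h5, mul_pow, ← pow_mul, div_pow (CM / c0) lam]
  ring

/-- Powers of `LL` are small. -/
theorem LL_pow_le (m : ℕ) (ε : ℝ) (hε : 0 < ε) (hε1 : ε ≤ 1 / 2) :
    ∃ C : ℝ, 0 < C ∧ ∀ q t : ℝ, 1 ≤ q → LL q t ^ m ≤ C * q ^ ε * √(|t| + 3) := by
  set δ := ε / (m + 1) with hδ
  have hδ0 : 0 < δ := by positivity
  refine ⟨(1 / δ) ^ m, by positivity, ?_⟩
  intro q t hq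
  have hx : 1 ≤ q * (|t| + 3) := by nlinarith [abs_nonneg t]
  have hx0 : 0 < q * (|t| + 3) := by linarith
  have ht : 1 ≤ |t| + 3 := by linarith [abs_nonneg t]
  have h1 := Real.log_le_rpow_div hx0.le hδ0
  have hLL := one_le_LL q t hq
  have h2 : LL q t ≤ 1 / δ * (q * (|t| + 3)) ^ δ := by
    unfold LL
    refine h1.trans (le_of_eq ?_)
    field_simp
  calc LL q t ^ m ≤ (1 / δ * (q * (|t| + 3)) ^ δ) ^ m := by gcongr
    _ = (1 / δ) ^ m * (q * (|t| + 3)) ^ (δ * m) := by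
        rw [mul_pow, ← Real.rpow_natCast ((q * (|t| + 3)) ^ δ) m, ← Real.rpow_mul hx0.le]
    _ ≤ (1 / δ) ^ m * (q * (|t| + 3)) ^ ε := by
        gcongr
        rw [hδ, div_mul_eq_mul_div, div_le_iff₀ (by positivity)]
        nlinarith
    _ = (1 / δ) ^ m * (q ^ ε * (|t| + 3) ^ ε) := by
        rw [Real.mul_rpow (by linarith) (by linarith)]
    _ ≤ (1 / δ) ^ m * (q ^ ε * √(|t| + 3)) := by
        gcongr
        rw [Real.sqrt_eq_rpow]
        exact Real.rpow_le_rpow_of_exponent_le ht hε1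
    _ = _ := by ring

end Pool.Agent.SW
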