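import Pool.Agent.Work.SW.Abel

/-!
The Dirichlet hyperbola method with expansions.
-/

set_option autoImplicit false

namespace Pool.Agent.SW

open Finset ArithmeticFunction

/-- Summatory function. -/
noncomputable def Sm (u : ℕ → ℝ) (v : ℝ) : ℝ := ∑ n ∈ Ioc 0 ⌊v⌋₊, u n

theorem hyperbola (u w : ArithmeticFunction ℝ) (N y : ℕ) (hyN : y ≤ N) :
    ∑ n ∈ Ioc 0 N, (w * u) n = ∑ m ∈ Ioc 0 y, w m * ∑ n ∈ Ioc 0 (N / m), u n
      + ∑ n ∈ Ioc 0 (N / (y + 1)), u n * ∑ m ∈ Ioc y (N / n), w m := by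
  rw [sum_Ioc_mul_eq_sum_sum]
  have h1 : Ioc 0 N = Ioc 0 y ∪ Ioc y N := by
    rw [Ioc_union_Ioc_eq_Ioc (Nat.zero_le _) hyN]
  rw [h1, sum_union (Ioc_disjoint_Ioc_of_le le_rfl)]
  congr 1
  simp only [mul_sum]
  rw [sum_comm' (t' := Ioc 0 (N / (y + 1))) (s' := fun n => Ioc y (N / n))]
  · refine sum_congr rfl fun n _ => sum_congr rfl fun m _ => ?_
    ring
  · intro m n
    simp only [mem_Ioc]
    constructor
    · rintro ⟨⟨h2, h3⟩, h4, h5⟩
      have hm : 0 < m := by omega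
      have h6 : n * m ≤ N := (Nat.le_div_iff_mul_le hm).mp h5
      refine ⟨⟨h2, ?_⟩, h4, ?_⟩
      · rw [Nat.le_div_iff_mul_le h4]
        linarith [Nat.mul_comm n m]
      · rw [Nat.le_div_iff_mul_le (by omega)]
        nlinarith
    · rintro ⟨⟨h2, h3⟩, h4, h5⟩
      have hm : 0 < m := by omega
      have h6 : m * n ≤ N := (Nat.le_div_iff_mul_le h4).mp h3
      refine ⟨⟨h2, ?_⟩, h4, ?_⟩
      · nlinarith
      · rw [Nat.le_div_iff_mul_le hm]
        linarith [Nat.mul_comm n m]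

theorem rpow_neg_le_one {v θ : ℝ} (hv : 1 ≤ v) (hθ : 0 ≤ θ) : v ^ (-θ) ≤ 1 :=
  Real.rpow_le_one_of_one_le_of_nonpos hv (by linarith)

/-- The expansion lemma. -/
theorem hyp_expand (u w : ArithmeticFunction ℝ) (β θ α P K K' K'' E E' A A' : ℝ) (hα : 0 < α)
    (hαθ : α < θ) (hθ : θ ≤ 1) (hβ : 1 - β ≤ α / 2) (hE : 0 ≤ E) (hE' : 0 ≤ E')
    (hA0 : 0 ≤ A) (hA0' : 0 ≤ A')
    (hU : ∀ v : ℝ, 1 ≤ v → |Sm u v - (P * v ^ (1 - β) + K)| ≤ E * v ^ (-θ))
    (hW : ∀ v : ℝ, 1 ≤ v → |Sm w v - K'| ≤ E' * v ^ (-θ))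
    (hW1 : ∀ v : ℝ, 1 ≤ v → |Sm (fun m => w m * (m : ℝ) ^ (β - 1)) v - K''| ≤ E' * v ^ (-θ))
    (hA : ∀ v : ℝ, 1 ≤ v → Sm (fun n => |u n|) v ≤ A * v ^ α)
    (hA' : ∀ v : ℝ, 1 ≤ v → Sm (fun n => |w n|) v ≤ A' * v ^ α) (v : ℝ) (hv : 1 ≤ v) :
    |Sm (w * u : ArithmeticFunction ℝ) v - (P * K'' * v ^ (1 - β) + K * K')|
      ≤ (2 * |P| * E' + 2 * |K| * E' + E * A' + 4 * E' * A) * v ^ (-((θ - α) / 2)) := by
  have hv0 : 0 < v := by linarith
  have hθ0 : 0 < θ := by linarith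
  have hs1 : 1 ≤ √v := Real.le_sqrt_of_sq_le (by linarith)
  have hs0 : 0 < √v := by linarith
  have hsv : √v ≤ v := by
    rw [Real.sqrt_le_left hv0.le]
    nlinarith
  have hsq : √v * √v = v := Real.mul_self_sqrt hv0.le
  set y := ⌊√v⌋₊ with hy
  have hy1 : 1 ≤ y := Nat.le_floor (by simpa using hs1)
  have hys : (y : ℝ) ≤ √v := Nat.floor_le hs0.le
  have hsy : √v < y + 1 := Nat.lt_floor_add_one _
  have hy1' : (1 : ℝ) ≤ y := by exact_mod_cast hy1
  have hyh : √v / 2 ≤ y := by linarith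
  have hyN : y ≤ ⌊v⌋₊ := Nat.floor_mono hsv
  have hsqrt_pow : ∀ r : ℝ, (√v) ^ r = v ^ (r / 2) := by
    intro r
    rw [Real.sqrt_eq_rpow, ← Real.rpow_mul hv0.le]
    congr 1
    ring
  have hyθ : (y : ℝ) ^ (-θ) ≤ 2 * v ^ (-(θ / 2)) := by
    calc (y : ℝ) ^ (-θ) ≤ (√v / 2) ^ (-θ) :=
          Real.rpow_le_rpow_of_nonpos (by positivity) hyh (by linarith)
      _ = (√v) ^ (-θ) * 2 ^ θ := by
          rw [Real.div_rpow hs0.le (by norm_num), Real.rpow_neg (by norm_num : (0:ℝ) ≤ 2), div_inv_eq_mul]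
      _ ≤ (√v) ^ (-θ) * 2 ^ (1 : ℝ) := by
          gcongr
          norm_num
      _ = 2 * v ^ (-(θ / 2)) := by
          rw [hsqrt_pow, Real.rpow_one]
          rw [mul_comm]
          congr 2
          ring
  have hv1 : v ^ (-(θ / 2)) ≤ v ^ (-((θ - α) / 2)) :=
    Real.rpow_le_rpow_of_exponent_le hv (by linarith)
  have hsum := hyperbola u w ⌊v⌋₊ y hyN
  have hfl : ∀ m : ℕ, ⌊v⌋₊ / m = ⌊v / m⌋₊ := fun m => (Nat.floor_div_natCast v m).symm
  have hSm : Sm (w * u : ArithmeticFunction ℝ) v = ∑ m ∈ Ioc 0 y, w m * Sm u (v / m)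
      + ∑ n ∈ Ioc 0 (⌊v⌋₊ / (y + 1)), u n * (Sm w (v / n) - Sm w y) := by
    unfold Sm
    rw [hsum]
    congr 1
    · refine sum_congr rfl fun m _ => ?_
      rw [hfl]
    · refine sum_congr rfl fun n hn => ?_
      rw [mem_Ioc] at hn
      congr 1
      rw [hfl n, Nat.floor_natCast]
      have h2 : y ≤ ⌊v / n⌋₊ := by
        rw [← hfl, Nat.le_div_iff_mul_le hn.1]
        have := (Nat.le_div_iff_mul_le (show 0 < y + 1 by omega)).mp hn.2
        nlinarith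
      rw [← Ioc_union_Ioc_eq_Ioc (Nat.zero_le _) h2, sum_union (Ioc_disjoint_Ioc_of_le le_rfl)]
      ring
  rw [hSm]
  -- first term
  have hT1 : |∑ m ∈ Ioc 0 y, w m * Sm u (v / m) - (P * K'' * v ^ (1 - β) + K * K')|
      ≤ (2 * |P| * E' + 2 * |K| * E' + E * A') * v ^ (-((θ - α) / 2)) := by
    have h1 : ∑ m ∈ Ioc 0 y, w m * Sm u (v / m) - (P * K'' * v ^ (1 - β) + K * K')
        = P * v ^ (1 - β) * (Sm (fun m => w m * (m : ℝ) ^ (β - 1)) y - K'')
          + K * (Sm w y - K')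
          + ∑ m ∈ Ioc 0 y, w m * (Sm u (v / m) - (P * (v / m) ^ (1 - β) + K)) := by
      unfold Sm
      rw [Nat.floor_natCast]
      have h2 : ∀ m ∈ Ioc 0 y, w m * ((∑ n ∈ Ioc 0 ⌊v / (m : ℝ)⌋₊, u n)
          - (P * (v / m) ^ (1 - β) + K))
          = w m * (∑ n ∈ Ioc 0 ⌊v / (m : ℝ)⌋₊, u n)
            - (P * v ^ (1 - β) * (w m * (m : ℝ) ^ (β - 1)) + K * w m) := by
        intro m hm
        rw [mem_Ioc] at hm
        have hm0 : (0 : ℝ) < m := by exact_mod_cast hm.1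
        rw [Real.div_rpow hv0.le hm0.le, show β - 1 = -(1 - β) by ring, Real.rpow_neg hm0.le]
        ring
      rw [sum_congr rfl h2, sum_sub_distrib, sum_add_distrib, ← mul_sum, ← mul_sum]
      ring
    rw [h1]
    have h2 : |P * v ^ (1 - β) * (Sm (fun m => w m * (m : ℝ) ^ (β - 1)) y - K'')|
        ≤ 2 * |P| * E' * v ^ (-((θ - α) / 2)) := by
      rw [abs_mul, abs_mul, abs_of_nonneg (Real.rpow_nonneg hv0.le _)]
      calc |P| * v ^ (1 - β) * |Sm (fun m => w m * (m : ℝ) ^ (β - 1)) y - K''|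
          ≤ |P| * v ^ (α / 2) * (E' * (2 * v ^ (-(θ / 2)))) := by
            gcongr
            exact (hW1 y hy1').trans (by gcongr)
        _ = 2 * |P| * E' * (v ^ (α / 2) * v ^ (-(θ / 2))) := by ring
        _ = _ := by
            rw [← Real.rpow_add hv0]
            congr 2
            ring
    have h3 : |K * (Sm w y - K')| ≤ 2 * |K| * E' * v ^ (-((θ - α) / 2)) := by
      rw [abs_mul]
      calc |K| * |Sm w y - K'| ≤ |K| * (E' * (2 * v ^ (-((θ - α) / 2)))) := by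
            gcongr
            refine (hW y hy1').trans ?_
            gcongr
            exact hyθ.trans (by gcongr)
        _ = _ := by ring
    have h4 : |∑ m ∈ Ioc 0 y, w m * (Sm u (v / m) - (P * (v / m) ^ (1 - β) + K))|
        ≤ E * A' * v ^ (-((θ - α) / 2)) := by
      refine (abs_sum_le_sum_abs _ _).trans ?_
      have h5 : ∀ m ∈ Ioc 0 y, |w m * (Sm u (v / m) - (P * (v / m) ^ (1 - β) + K))|
          ≤ E * v ^ (-(θ / 2)) * |w m| := by
        intro m hm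
        rw [mem_Ioc] at hm
        have hm0 : (0 : ℝ) < m := by exact_mod_cast hm.1
        have hmy : (m : ℝ) ≤ y := by exact_mod_cast hm.2
        have h6 : √v ≤ v / m := by
          rw [le_div_iff₀ hm0]
          calc √v * m ≤ √v * √v := by gcongr; exact hmy.trans hys
            _ = v := hsq
        rw [abs_mul, mul_comm]
        gcongr
        refine (hU (v / m) (hs1.trans h6)).trans ?_
        gcongr
        calc (v / m) ^ (-θ) ≤ (√v) ^ (-θ) :=
              Real.rpow_le_rpow_of_nonpos hs0 h6 (by linarith)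
          _ = v ^ (-(θ / 2)) := by rw [hsqrt_pow]; congr 1; ring
      refine (sum_le_sum h5).trans ?_
      rw [← mul_sum]
      have h7 : ∑ m ∈ Ioc 0 y, |w m| ≤ A' * v ^ (α / 2) := by
        have := hA' y hy1'
        unfold Sm at this
        rw [Nat.floor_natCast] at this
        refine this.trans ?_
        gcongr
        calc (y : ℝ) ^ α ≤ (√v) ^ α := by gcongr
          _ = v ^ (α / 2) := hsqrt_pow α
      calc E * v ^ (-(θ / 2)) * ∑ m ∈ Ioc 0 y, |w m| ≤ E * v ^ (-(θ / 2)) * (A' * v ^ (α / 2)) := by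
            gcongr
        _ = E * A' * (v ^ (-(θ / 2)) * v ^ (α / 2)) := by ring
        _ = _ := by
            rw [← Real.rpow_add hv0]
            congr 2
            ring
    calc _ ≤ _ := (abs_add_le _ _).trans (add_le_add (abs_add_le _ _) le_rfl)
      _ ≤ 2 * |P| * E' * v ^ (-((θ - α) / 2)) + 2 * |K| * E' * v ^ (-((θ - α) / 2))
          + E * A' * v ^ (-((θ - α) / 2)) := add_le_add (add_le_add h2 h3) h4
      _ = _ := by ring
  -- second term
  have hT2 : |∑ n ∈ Ioc 0 (⌊v⌋₊ / (y + 1)), u n * (Sm w (v / n) - Sm w y)|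
      ≤ 4 * E' * A * v ^ (-((θ - α) / 2)) := by
    refine (abs_sum_le_sum_abs _ _).trans ?_
    have h5 : ∀ n ∈ Ioc 0 (⌊v⌋₊ / (y + 1)), |u n * (Sm w (v / n) - Sm w y)|
        ≤ (4 * E' * v ^ (-(θ / 2))) * |u n| := by
      intro n hn
      rw [mem_Ioc] at hn
      have hn0 : (0 : ℝ) < n := by exact_mod_cast hn.1
      have h6 : (y : ℝ) ≤ v / n := by
        rw [le_div_iff₀ hn0]
        have h7 := (Nat.le_div_iff_mul_le (show 0 < y + 1 by omega)).mp hn.2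
        have h8 : (n : ℝ) * (y + 1) ≤ ⌊v⌋₊ := by exact_mod_cast h7
        have h9 := Nat.floor_le hv0.le
        nlinarith
      rw [abs_mul, mul_comm]
      gcongr
      have h10 := hW (v / n) (hy1'.trans h6)
      have h11 := hW y hy1'
      have h12 : (v / n) ^ (-θ) ≤ (y : ℝ) ^ (-θ) :=
        Real.rpow_le_rpow_of_nonpos (by linarith) h6 (by linarith)
      have h13 : Sm w (v / n) - Sm w y = (Sm w (v / n) - K') - (Sm w y - K') := by ring
      rw [h13]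
      refine (abs_sub _ _).trans ?_
      calc _ ≤ E' * (v / n) ^ (-θ) + E' * (y : ℝ) ^ (-θ) := add_le_add h10 h11
        _ ≤ E' * (y : ℝ) ^ (-θ) + E' * (y : ℝ) ^ (-θ) := by gcongr
        _ ≤ E' * (2 * v ^ (-(θ / 2))) + E' * (2 * v ^ (-(θ / 2))) := by gcongr
        _ = _ := by ring
    refine (sum_le_sum h5).trans ?_
    rw [← mul_sum]
    have h7 : ∑ n ∈ Ioc 0 (⌊v⌋₊ / (y + 1)), |u n| ≤ A * v ^ (α / 2) := by
      have h8 : ⌊v⌋₊ / (y + 1) = ⌊v / ((y + 1 : ℕ) : ℝ)⌋₊ := hfl (y + 1)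
      rcases lt_or_ge (v / ((y + 1 : ℕ) : ℝ)) 1 with h | h
      · rw [h8, Nat.floor_eq_zero.mpr h]
        simp only [Ioc_self, sum_empty]
        positivity
      · have := hA _ h
        unfold Sm at this
        rw [h8]
        refine this.trans ?_
        gcongr
        have h9 : v / ((y + 1 : ℕ) : ℝ) ≤ √v := by
          rw [div_le_iff₀ (by positivity)]
          push_cast
          calc v = √v * √v := hsq.symm
            _ ≤ √v * (y + 1) := by gcongr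
        calc (v / ((y + 1 : ℕ) : ℝ)) ^ α ≤ (√v) ^ α := by gcongr
          _ = v ^ (α / 2) := hsqrt_pow α
    calc _ ≤ (4 * E' * v ^ (-(θ / 2))) * (A * v ^ (α / 2)) := by gcongr
      _ = 4 * E' * A * (v ^ (-(θ / 2)) * v ^ (α / 2)) := by ring
      _ = _ := by
          rw [← Real.rpow_add hv0]
          congr 2
          ring
  have hfinal : ∑ m ∈ Ioc 0 y, w m * Sm u (v / m)
      + ∑ n ∈ Ioc 0 (⌊v⌋₊ / (y + 1)), u n * (Sm w (v / n) - Sm w y)
      - (P * K'' * v ^ (1 - β) + K * K')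
      = (∑ m ∈ Ioc 0 y, w m * Sm u (v / m) - (P * K'' * v ^ (1 - β) + K * K'))
      + ∑ n ∈ Ioc 0 (⌊v⌋₊ / (y + 1)), u n * (Sm w (v / n) - Sm w y) := by ring
  rw [hfinal]
  refine (abs_add_le _ _).trans ((add_le_add hT1 hT2).trans (le_of_eq ?_))
  ring

/-- Absolute bounds for convolutions. -/
theorem abs_conv_bound (u w : ArithmeticFunction ℝ) (α A A' : ℝ) (hA0 : 0 ≤ A)
    (hA : ∀ v : ℝ, 1 ≤ v → Sm (fun n => |u n|) v ≤ A * v ^ α)
    (hA' : ∀ v : ℝ, 1 ≤ v → Sm (fun n => |w n|) v ≤ A' * v ^ α) (v : ℝ) (hv : 1 ≤ v) :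
    Sm (fun n => |(w * u) n|) v ≤ A * A' * v ^ (2 * α) := by
  have hv0 : 0 < v := by linarith
  set u' : ArithmeticFunction ℝ := ⟨fun n => |u n|, by simp⟩ with hu'
  set w' : ArithmeticFunction ℝ := ⟨fun n => |w n|, by simp⟩ with hw'
  have h1 : Sm (fun n => |(w * u) n|) v ≤ ∑ n ∈ Ioc 0 ⌊v⌋₊, (w' * u') n := by
    unfold Sm
    refine sum_le_sum fun n _ => ?_
    rw [mul_apply, mul_apply]
    refine (abs_sum_le_sum_abs _ _).trans (sum_le_sum fun p _ => ?_)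
    rw [abs_mul]
    exact le_rfl
  refine h1.trans ?_
  rw [sum_Ioc_mul_eq_sum_sum]
  have h2 : ∀ m ∈ Ioc 0 ⌊v⌋₊, w' m * ∑ n ∈ Ioc 0 (⌊v⌋₊ / m), u' n ≤ (A * v ^ α) * |w m| := by
    intro m hm
    rw [mem_Ioc] at hm
    have h3 : ∑ n ∈ Ioc 0 (⌊v⌋₊ / m), u' n ≤ A * v ^ α := by
      refine le_trans ?_ (hA v hv)
      unfold Sm
      apply sum_le_sum_of_subset_of_nonneg
      · exact Ioc_subset_Ioc_right (Nat.div_le_self _ _)
      · intro n _ _
        exact abs_nonneg _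
    calc w' m * ∑ n ∈ Ioc 0 (⌊v⌋₊ / m), u' n ≤ |w m| * (A * v ^ α) := by
          apply mul_le_mul_of_nonneg_left h3 (abs_nonneg _)
      _ = _ := by ring
  refine (sum_le_sum h2).trans ?_
  rw [← mul_sum]
  have h4 := hA' v hv
  unfold Sm at h4
  calc _ ≤ (A * v ^ α) * (A' * v ^ α) := by gcongr
    _ = A * A' * (v ^ α * v ^ α) := by ring
    _ = _ := by rw [← Real.rpow_add hv0]; congr 2; ring

end Pool.Agent.SW
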