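import Pool.Agent.Work.SW.Abel

/-!
Bounds for `∑ c(n) (log n)^j n^{-s}`, `Re s > 1`, when the partial sums of `c` are bounded.
-/

set_option autoImplicit false

namespace Pool.Agent.SW

open Finset

/-- `(log u)^j u^{-s}`. -/
noncomputable def gj (j : ℕ) (s : ℂ) (u : ℝ) : ℂ := (Real.log u : ℂ) ^ j * (u : ℂ) ^ (-s)

theorem norm_cpow_neg (u : ℝ) (hu : 0 < u) (s : ℂ) : ‖(u : ℂ) ^ (-s)‖ = u ^ (-s.re) := by
  rw [Complex.norm_cpow_eq_rpow_re_of_pos hu]
  simp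

theorem hasDerivAt_gj (j : ℕ) (s : ℂ) (u : ℝ) (hu : 0 < u) :
    HasDerivAt (gj j s) ((j * (Real.log u : ℂ) ^ (j - 1) * ((u : ℂ))⁻¹) * (u : ℂ) ^ (-s)
      + (Real.log u : ℂ) ^ j * (-s * (u : ℂ) ^ (-s - 1))) u := by
  have h1 : HasDerivAt (fun u : ℝ => (Real.log u : ℂ)) ((u⁻¹ : ℝ) : ℂ) u :=
    (Real.hasDerivAt_log hu.ne').ofReal_comp
  have h2 := h1.pow j
  have h3 : HasDerivAt (fun u : ℝ => (u : ℂ) ^ (-s)) (-s * (u : ℂ) ^ (-s - 1)) u := by
    have h4 : HasDerivAt (fun z : ℂ => z ^ (-s)) (-s * (u : ℂ) ^ (-s - 1)) (u : ℂ) := by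
      have := (hasDerivAt_id (u : ℂ)).cpow_const (c := -s) (Or.inl (by simpa using hu))
      simpa using this
    exact h4.comp_ofReal
  have h5 := h2.mul h3
  have h6 : (j * (Real.log u : ℂ) ^ (j - 1) * ((u : ℂ))⁻¹) * (u : ℂ) ^ (-s)
      + (Real.log u : ℂ) ^ j * (-s * (u : ℂ) ^ (-s - 1))
      = (j * (Real.log u : ℂ) ^ (j - 1) * ((u⁻¹ : ℝ) : ℂ)) * (u : ℂ) ^ (-s)
      + (Real.log u : ℂ) ^ j * (-s * (u : ℂ) ^ (-s - 1)) := by
    push_cast
    ring
  rw [h6]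
  exact h5

theorem norm_gj_le (j : ℕ) (s : ℂ) (hs : 1 ≤ s.re) (u v : ℝ) (hu : 1 ≤ u) (hv : u ≤ v) :
    ‖gj j s u‖ ≤ (Real.log v) ^ j * u⁻¹ := by
  have hu0 : 0 < u := by linarith
  have hlog : 0 ≤ Real.log u := Real.log_nonneg hu
  have hlog' : Real.log u ≤ Real.log v := Real.log_le_log hu0 hv
  unfold gj
  rw [norm_mul, norm_pow, Complex.norm_real, Real.norm_eq_abs, abs_of_nonneg hlog,
    norm_cpow_neg u hu0]
  have h1 : u ^ (-s.re) ≤ u⁻¹ := by
    rw [← Real.rpow_neg_one]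
    exact Real.rpow_le_rpow_of_exponent_le hu (by linarith)
  have h2 : 0 ≤ Real.log v := hlog.trans hlog'
  gcongr

theorem norm_deriv_gj_le (j : ℕ) (s : ℂ) (hs : 1 ≤ s.re) (u : ℝ) (hu : 3 ≤ u) :
    ‖(j * (Real.log u : ℂ) ^ (j - 1) * ((u : ℂ))⁻¹) * (u : ℂ) ^ (-s)
      + (Real.log u : ℂ) ^ j * (-s * (u : ℂ) ^ (-s - 1))‖
      ≤ (j + ‖s‖) * (Real.log u) ^ j * (u ^ 2)⁻¹ := by
  have hu0 : 0 < u := by linarith
  have hlog : 1 ≤ Real.log u := by
    rw [Real.le_log_iff_exp_le hu0]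
    linarith [Real.exp_one_lt_d9]
  have hlog0 : 0 ≤ Real.log u := by linarith
  have h1 : ‖(u : ℂ) ^ (-s)‖ ≤ u⁻¹ := by
    rw [norm_cpow_neg u hu0, ← Real.rpow_neg_one]
    exact Real.rpow_le_rpow_of_exponent_le (by linarith) (by linarith)
  have h2 : ‖(u : ℂ) ^ (-s - 1)‖ ≤ (u ^ 2)⁻¹ := by
    rw [Complex.norm_cpow_eq_rpow_re_of_pos hu0]
    have : (u ^ 2)⁻¹ = u ^ (-2 : ℝ) := by
      rw [Real.rpow_neg hu0.le]
      norm_num
    rw [this]
    apply Real.rpow_le_rpow_of_exponent_le (by linarith)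
    simp
    linarith
  refine (norm_add_le _ _).trans ?_
  have h3 : ‖(j * (Real.log u : ℂ) ^ (j - 1) * ((u : ℂ))⁻¹) * (u : ℂ) ^ (-s)‖
      ≤ j * (Real.log u) ^ j * (u ^ 2)⁻¹ := by
    rw [norm_mul, norm_mul, norm_mul, norm_pow, norm_inv, Complex.norm_real, Complex.norm_real,
      Real.norm_eq_abs, Real.norm_eq_abs, abs_of_nonneg hlog0, abs_of_pos hu0, Complex.norm_natCast]
    calc (j : ℝ) * (Real.log u) ^ (j - 1) * u⁻¹ * ‖(u : ℂ) ^ (-s)‖
        ≤ j * (Real.log u) ^ j * u⁻¹ * u⁻¹ := by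
          have h5 : (Real.log u) ^ (j - 1) ≤ (Real.log u) ^ j :=
            pow_le_pow_right₀ hlog (by omega)
          gcongr
      _ = _ := by rw [sq, mul_inv]; ring
  have h4 : ‖(Real.log u : ℂ) ^ j * (-s * (u : ℂ) ^ (-s - 1))‖
      ≤ ‖s‖ * (Real.log u) ^ j * (u ^ 2)⁻¹ := by
    rw [norm_mul, norm_mul, norm_pow, norm_neg, Complex.norm_real, Real.norm_eq_abs,
      abs_of_nonneg hlog0]
    calc (Real.log u) ^ j * (‖s‖ * ‖(u : ℂ) ^ (-s - 1)‖)
        ≤ (Real.log u) ^ j * (‖s‖ * (u ^ 2)⁻¹) := by gcongr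
      _ = _ := by ring
  calc _ ≤ _ := add_le_add h3 h4
    _ = _ := by ring

theorem norm_gj_sub_le (j : ℕ) (s : ℂ) (hs : 1 ≤ s.re) (n : ℕ) (hn : 3 ≤ n) :
    ‖gj j s n - gj j s ((n + 1 : ℕ) : ℝ)‖
      ≤ (j + ‖s‖) * (Real.log ((n + 1 : ℕ) : ℝ)) ^ j * ((n : ℝ) ^ 2)⁻¹ := by
  have hn' : (3 : ℝ) ≤ n := by exact_mod_cast hn
  rw [norm_sub_rev]
  have h := Convex.norm_image_sub_le_of_norm_hasDerivWithin_le (𝕜 := ℝ) (f := gj j s)
    (f' := fun u => (j * (Real.log u : ℂ) ^ (j - 1) * ((u : ℂ))⁻¹) * (u : ℂ) ^ (-s)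
      + (Real.log u : ℂ) ^ j * (-s * (u : ℂ) ^ (-s - 1)))
    (s := Set.Icc (n : ℝ) ((n + 1 : ℕ) : ℝ)) (x := (n : ℝ)) (y := ((n + 1 : ℕ) : ℝ))
    (C := (j + ‖s‖) * (Real.log ((n + 1 : ℕ) : ℝ)) ^ j * ((n : ℝ) ^ 2)⁻¹) ?_ ?_
    (convex_Icc _ _) ?_ ?_
  · refine h.trans (le_of_eq ?_)
    have : ‖(((n + 1 : ℕ) : ℝ)) - n‖ = 1 := by
      push_cast
      simp
    rw [this, mul_one]
  · intro u hu
    exact (hasDerivAt_gj j s u (by linarith [hu.1])).hasDerivWithinAt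
  · intro u hu
    refine (norm_deriv_gj_le j s hs u (by linarith [hu.1])).trans ?_
    have hu0 : 0 < u := by linarith [hu.1]
    have hu1 : 1 ≤ u := by linarith [hu.1]
    have h1 : 0 ≤ Real.log u := Real.log_nonneg hu1
    have h2 : Real.log u ≤ Real.log ((n + 1 : ℕ) : ℝ) := Real.log_le_log hu0 hu.2
    have h3 : (u ^ 2)⁻¹ ≤ ((n : ℝ) ^ 2)⁻¹ := by
      apply inv_anti₀ (by positivity)
      exact pow_le_pow_left₀ (by positivity) hu.1 2
    gcongr
  · constructor <;> push_cast <;> linarith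
  · constructor <;> push_cast <;> linarith

/-- Powers of `log` are smaller than the square root. -/
theorem log_pow_le_sqrt (j : ℕ) (x : ℝ) (hx : 1 ≤ x) :
    (Real.log x) ^ j ≤ (2 * ((j : ℝ) + 1)) ^ j * √x := by
  have hx0 : 0 < x := by linarith
  have hε : (0 : ℝ) < 1 / (2 * ((j : ℝ) + 1)) := by positivity
  have h1 := Real.log_le_rpow_div hx0.le hε
  have h2 : Real.log x ≤ (2 * ((j : ℝ) + 1)) * x ^ (1 / (2 * ((j : ℝ) + 1))) := by
    refine h1.trans (le_of_eq ?_)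
    field_simp
  calc (Real.log x) ^ j ≤ ((2 * ((j : ℝ) + 1)) * x ^ (1 / (2 * ((j : ℝ) + 1)))) ^ j :=
        pow_le_pow_left₀ (Real.log_nonneg hx) h2 j
    _ = (2 * ((j : ℝ) + 1)) ^ j * x ^ (1 / (2 * ((j : ℝ) + 1)) * j) := by
        rw [mul_pow, ← Real.rpow_natCast (x ^ _) j, ← Real.rpow_mul hx0.le]
    _ ≤ (2 * ((j : ℝ) + 1)) ^ j * √x := by
        gcongr
        rw [Real.sqrt_eq_rpow]
        apply Real.rpow_le_rpow_of_exponent_le hx
        rw [div_mul_eq_mul_div, div_le_div_iff₀ (by positivity) (by norm_num)]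
        linarith

/-- `∑_{N < n < K} n^{-3/2} ≤ 2/√N`. -/
theorem sum_inv_three_half (N K : ℕ) (hN : 0 < N) :
    ∑ n ∈ Ico (N + 1) K, √(n : ℝ) * ((n : ℝ) ^ 2)⁻¹ ≤ 2 / √N := by
  have key : ∀ K, N + 1 ≤ K → ∑ n ∈ Ico (N + 1) K, √(n : ℝ) * ((n : ℝ) ^ 2)⁻¹
      ≤ 2 / √N - 2 / √((K - 1 : ℕ) : ℝ) := by
    intro K hK
    induction K, hK using Nat.le_induction with
    | base => simp
    | succ K hK ih =>
      rw [sum_Ico_succ_top (by omega)]
      have hK0 : (0 : ℝ) < (K - 1 : ℕ) := by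
        have : 0 < K - 1 := by omega
        exact_mod_cast this
      have hK1 : (K : ℝ) = (K - 1 : ℕ) + 1 := by
        have : K = K - 1 + 1 := by omega
        exact_mod_cast this
      set y : ℝ := ((K - 1 : ℕ) : ℝ) with hy
      have e1 : ((K + 1 - 1 : ℕ) : ℝ) = y + 1 := by
        rw [← hK1]
        simp
      rw [e1, hK1]
      have hs1 : 0 < √y := Real.sqrt_pos.mpr hK0
      have hs2 : 0 < √(y + 1) := Real.sqrt_pos.mpr (by linarith)
      have q1 := Real.sq_sqrt hK0.le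
      have q2 := Real.sq_sqrt (show 0 ≤ y + 1 by linarith)
      have hle : √y ≤ √(y + 1) := Real.sqrt_le_sqrt (by linarith)
      have h5 : √(y + 1) * ((y + 1) ^ 2)⁻¹ ≤ 2 / √y - 2 / √(y + 1) := by
        set a := √y
        set b := √(y + 1)
        have hb : (y + 1) ^ 2 = b ^ 4 := by rw [← q2]; ring
        rw [hb]
        have h6 : b * (b ^ 4)⁻¹ = 1 / b ^ 3 := by field_simp
        rw [h6, div_sub_div _ _ hs1.ne' hs2.ne', div_le_div_iff₀ (by positivity) (by positivity)]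
        have h7 : b ^ 2 - a ^ 2 = 1 := by rw [q1, q2]; ring
        have h8 : (b - a) * (b + a) = 1 := by linarith
        -- goal: 1 * (a*b) ≤ (2*b - a*2... ) * b^3
        have h9 : a * b ≤ 2 * (b - a) * b ^ 3 := by
          have h10 : 0 ≤ b - a := by linarith
          have h11 : b + a ≤ 2 * b := by linarith
          have h12 : 1 ≤ (b - a) * (2 * b) := by
            calc 1 = (b - a) * (b + a) := h8.symm
              _ ≤ _ := by gcongr
          have h13 : a * b ≤ b ^ 2 := by nlinarith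
          calc a * b ≤ b ^ 2 * 1 := by linarith
            _ ≤ b ^ 2 * ((b - a) * (2 * b)) := by gcongr
            _ = _ := by ring
        nlinarith
      linarith
  rcases Nat.lt_or_ge K (N + 1) with h | h
  · rw [Ico_eq_empty (by omega), sum_empty]
    positivity
  · refine (key K h).trans ?_
    have : 0 ≤ 2 / √((K - 1 : ℕ) : ℝ) := by positivity
    linarith

/-- The basic bound for tails. -/
theorem tail_bound (j : ℕ) (c : ℕ → ℂ) (q : ℝ) (hq : 0 ≤ q)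
    (hc : ∀ M N, ‖∑ n ∈ Ioc M N, c n‖ ≤ q) (s : ℂ) (hs : 1 ≤ s.re) (N K : ℕ) (hN : 3 ≤ N)
    (hNK : N ≤ K) :
    ‖∑ n ∈ Ioc N K, c n * gj j s n‖
      ≤ q * ((2 * ((j : ℝ) + 1)) ^ j * (1 + 4 * (j + ‖s‖)) / √N) := by
  refine (abel_bound c (fun n => gj j s n) N K hNK q (fun n _ _ => hc N n)).trans ?_
  gcongr
  set C := (2 * ((j : ℝ) + 1)) ^ j with hC
  have hC0 : 0 ≤ C := by positivity
  have hN0 : (0 : ℝ) < N := by
    have : 0 < N := by omega
    exact_mod_cast this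
  have hK1 : (1 : ℝ) ≤ K := by
    have : 1 ≤ K := by omega
    exact_mod_cast this
  have h1 : ‖gj j s K‖ ≤ C * (1 / √N) := by
    refine (norm_gj_le j s hs K K hK1 le_rfl).trans ?_
    have h2 := log_pow_le_sqrt j K hK1
    have hK0 : (0 : ℝ) < K := by linarith
    calc _ ≤ (C * √K) * (K : ℝ)⁻¹ := by gcongr
      _ = C * (√K * (K : ℝ)⁻¹) := by ring
      _ = C * (1 / √K) := by
          congr 1
          have := Real.mul_self_sqrt hK0.le
          field_simp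
          nlinarith
      _ ≤ C * (1 / √N) := by
          gcongr
  have h2 : ∑ n ∈ Ico (N + 1) K, ‖gj j s n - gj j s ((n + 1 : ℕ) : ℝ)‖
      ≤ 2 * C * (j + ‖s‖) * (2 / √N) := by
    have h3 : ∀ n ∈ Ico (N + 1) K, ‖gj j s n - gj j s ((n + 1 : ℕ) : ℝ)‖
        ≤ 2 * C * (j + ‖s‖) * (√(n : ℝ) * ((n : ℝ) ^ 2)⁻¹) := by
      intro n hn
      rw [mem_Ico] at hn
      refine (norm_gj_sub_le j s hs n (by omega)).trans ?_
      have hn1 : (1 : ℝ) ≤ n := by
        have : 1 ≤ n := by omega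
        exact_mod_cast this
      have h4 := log_pow_le_sqrt j ((n + 1 : ℕ) : ℝ) (by push_cast; linarith)
      have h5 : √((n + 1 : ℕ) : ℝ) ≤ 2 * √(n : ℝ) := by
        rw [Real.sqrt_le_left (by positivity)]
        have := Real.sq_sqrt (show (0 : ℝ) ≤ n by linarith)
        push_cast
        nlinarith
      calc _ ≤ (j + ‖s‖) * (C * (2 * √(n : ℝ))) * ((n : ℝ) ^ 2)⁻¹ := by
            gcongr
            exact h4.trans (by gcongr)
        _ = _ := by ring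
    refine (sum_le_sum h3).trans ?_
    rw [← mul_sum]
    gcongr
    exact sum_inv_three_half N K (by omega)
  calc _ ≤ C * (1 / √N) + 2 * C * (j + ‖s‖) * (2 / √N) := add_le_add h1 h2
    _ = _ := by ring

/-- The logarithmic conductor. -/
noncomputable def LL (q t : ℝ) : ℝ := Real.log (q * (|t| + 3))

theorem one_le_LL (q t : ℝ) (hq : 1 ≤ q) : 1 ≤ LL q t := by
  unfold LL
  have h : 3 ≤ q * (|t| + 3) := by nlinarith [abs_nonneg t]
  rw [Real.le_log_iff_exp_le (by linarith)]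
  linarith [Real.exp_one_lt_d9]

theorem sum_inv_le' (X : ℕ) : ∑ a ∈ Ioc 0 X, (a : ℝ)⁻¹ ≤ 1 + Real.log X := by
  have h := harmonic_le_one_add_log X
  rw [harmonic] at h
  push_cast at h
  refine le_trans (le_of_eq ?_) h
  have h1 := sum_Ico_add' (fun k : ℕ => ((k : ℝ))⁻¹) 0 X 1
  rw [Nat.Ico_zero_eq_range] at h1
  push_cast at h1
  rw [h1]
  congr 1

/-- Bound for all partial sums. -/
theorem partial_bound (j : ℕ) (c : ℕ → ℂ) (q : ℝ) (hq : 1 ≤ q) (hc1 : ∀ n, ‖c n‖ ≤ 1)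
    (hc : ∀ M N, ‖∑ n ∈ Ioc M N, c n‖ ≤ q) (s : ℂ) (hs : 1 ≤ s.re) (hs2 : s.re ≤ 2) (K : ℕ) :
    ‖∑ n ∈ Ioc 0 K, c n * gj j s n‖
      ≤ (4 ^ (j + 1) + (2 * ((j : ℝ) + 1)) ^ j * (4 * j + 9)) * LL q s.im ^ (j + 1) := by
  set t := |s.im| with ht
  set X := q * (t + 3) with hX
  have ht0 : 0 ≤ t := abs_nonneg _
  have hX3 : 3 ≤ X := by nlinarith
  set ℓ := LL q s.im with hℓ
  have hℓ1 : 1 ≤ ℓ := one_le_LL q s.im hq
  have hℓX : ℓ = Real.log X := rfl
  set N := ⌈X ^ 2⌉₊ with hN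
  have hNX : X ^ 2 ≤ N := Nat.le_ceil _
  have hN9 : 9 ≤ N := by
    have : (9 : ℝ) ≤ N := by nlinarith
    exact_mod_cast this
  have hN2 : (N : ℝ) ≤ 2 * X ^ 2 := by
    have := Nat.ceil_lt_add_one (show 0 ≤ X ^ 2 by positivity)
    nlinarith
  have hN0 : (0 : ℝ) < N := by nlinarith
  have hlogN : 1 + Real.log N ≤ 4 * ℓ := by
    have h1 : Real.log N ≤ Real.log (2 * X ^ 2) := Real.log_le_log hN0 hN2
    rw [Real.log_mul (by norm_num) (by positivity), Real.log_pow] at h1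
    push_cast at h1
    have := Real.log_two_lt_d9
    linarith
  have hlogN0 : 0 ≤ Real.log N := Real.log_nonneg (by nlinarith)
  set C := (2 * ((j : ℝ) + 1)) ^ j with hC
  have hC0 : 0 ≤ C := by positivity
  -- head
  have hhead : ∀ K', K' ≤ N → ‖∑ n ∈ Ioc 0 K', c n * gj j s n‖ ≤ 4 ^ (j + 1) * ℓ ^ (j + 1) := by
    intro K' hK'
    refine (norm_sum_le _ _).trans ?_
    have h1 : ∀ n ∈ Ioc 0 K', ‖c n * gj j s n‖ ≤ (Real.log N) ^ j * (n : ℝ)⁻¹ := by
      intro n hn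
      rw [mem_Ioc] at hn
      rw [norm_mul]
      calc _ ≤ 1 * ((Real.log N) ^ j * (n : ℝ)⁻¹) := by
            gcongr
            · exact hc1 n
            · exact norm_gj_le j s hs n N (by exact_mod_cast hn.1) (by exact_mod_cast hn.2.trans hK')
        _ = _ := one_mul _
    refine (sum_le_sum h1).trans ?_
    rw [← mul_sum]
    have h2 : ∑ n ∈ Ioc 0 K', (n : ℝ)⁻¹ ≤ 1 + Real.log N := by
      refine le_trans (sum_le_sum_of_subset_of_nonneg (Ioc_subset_Ioc_right hK') ?_)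
        (sum_inv_le' N)
      intro n _ _
      positivity
    calc _ ≤ (Real.log N) ^ j * (1 + Real.log N) := by gcongr
      _ ≤ (1 + Real.log N) ^ j * (1 + Real.log N) := by
          gcongr
          linarith
      _ = (1 + Real.log N) ^ (j + 1) := by ring
      _ ≤ (4 * ℓ) ^ (j + 1) := by gcongr
      _ = _ := by rw [mul_pow]
  have hℓj : 1 ≤ ℓ ^ (j + 1) := one_le_pow₀ hℓ1
  rcases le_total K N with hKN | hKN
  · refine (hhead K hKN).trans ?_
    rw [add_mul]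
    have : 0 ≤ C * (4 * j + 9) * ℓ ^ (j + 1) := by positivity
    linarith
  · have hsplit : ∑ n ∈ Ioc 0 K, c n * gj j s n
        = ∑ n ∈ Ioc 0 N, c n * gj j s n + ∑ n ∈ Ioc N K, c n * gj j s n := by
      rw [← sum_union (Ioc_disjoint_Ioc_of_le le_rfl), Ioc_union_Ioc_eq_Ioc (Nat.zero_le _) hKN]
    rw [hsplit]
    refine (norm_add_le _ _).trans ?_
    rw [add_mul]
    apply add_le_add (hhead N le_rfl)
    refine (tail_bound j c q (by linarith) hc s hs N K (by omega) hKN).trans ?_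
    have hsqrt : X ≤ √N := by
      apply Real.le_sqrt_of_sq_le
      exact hNX
    have hnorm : ‖s‖ ≤ 2 + t := by
      refine (Complex.norm_le_abs_re_add_abs_im s).trans ?_
      rw [abs_of_nonneg (by linarith)]
      linarith
    have hX0 : 0 < X := by linarith
    calc q * (C * (1 + 4 * (j + ‖s‖)) / √N) ≤ q * (C * (1 + 4 * (j + (2 + t))) / X) := by
          gcongr
      _ = C * ((1 + 4 * (j + (2 + t))) / (t + 3)) := by
          rw [hX]
          field_simp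
      _ ≤ C * (4 * j + 9) := by
          gcongr
          rw [div_le_iff₀ (by linarith)]
          have : (0 : ℝ) ≤ j := Nat.cast_nonneg j
          nlinarith
      _ ≤ C * (4 * j + 9) * ℓ ^ (j + 1) := by
          apply le_mul_of_one_le_right (by positivity) hℓj

/-- The constant in the bound for the `j`-th derivative. -/
noncomputable def CJ (j : ℕ) : ℝ := 4 ^ (j + 1) + (2 * ((j : ℝ) + 1)) ^ j * (4 * j + 9)

theorem CJ_pos (j : ℕ) : 1 ≤ CJ j := by
  unfold CJ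
  have h1 : (1 : ℝ) ≤ 4 ^ (j + 1) := one_le_pow₀ (by norm_num)
  have h2 : (0 : ℝ) ≤ (2 * ((j : ℝ) + 1)) ^ j * (4 * j + 9) := by positivity
  linarith

/-- A limit argument: bounds for partial sums give bounds for `LSeries`. -/
theorem LSeries_le_of_partial (f : ℕ → ℂ) (s : ℂ) (B : ℝ) (hB0 : 0 ≤ B)
    (hB : ∀ K, ‖∑ n ∈ Ioc 0 K, LSeries.term f s n‖ ≤ B) : ‖LSeries f s‖ ≤ B := by
  by_cases h : LSeriesSummable f s
  · have h1 := h.hasSum.tendsto_sum_nat
    have h2 : Filter.Tendsto (fun n => ∑ i ∈ range (n + 1), LSeries.term f s i) Filter.atTop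
        (nhds (LSeries f s)) := (Filter.tendsto_add_atTop_iff_nat 1).mpr h1
    apply le_of_tendsto (h2.norm)
    filter_upwards with K
    have h3 : ∑ i ∈ range (K + 1), LSeries.term f s i = ∑ n ∈ Ioc 0 K, LSeries.term f s n := by
      rw [sum_range_succ']
      simp only [LSeries.term_zero, add_zero]
      rw [← Nat.Ico_zero_eq_range, sum_Ico_add' (fun k => LSeries.term f s k) 0 K 1]
      congr 1
    rw [h3]
    exact hB K
  · have : LSeries f s = 0 := tsum_eq_zero_of_not_summable h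
    rw [this, norm_zero]
    exact hB0

theorem term_eq_gj (c : ℕ → ℂ) (j : ℕ) (s : ℂ) (n : ℕ) (hn : n ≠ 0) :
    LSeries.term (fun n => c n * (Real.log n : ℂ) ^ j) s n = c n * gj j s n := by
  rw [LSeries.term_of_ne_zero hn]
  unfold gj
  rw [Complex.cpow_neg]
  push_cast
  ring

theorem LSeries_bound (j : ℕ) (c : ℕ → ℂ) (q : ℝ) (hq : 1 ≤ q) (hc1 : ∀ n, ‖c n‖ ≤ 1)
    (hc : ∀ M N, ‖∑ n ∈ Ioc M N, c n‖ ≤ q) (s : ℂ) (hs : 1 < s.re) (hs2 : s.re ≤ 2) :
    ‖LSeries (fun n => c n * (Real.log n : ℂ) ^ j) s‖ ≤ CJ j * LL q s.im ^ (j + 1) := by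
  have h1 := one_le_LL q s.im hq
  have h2 := CJ_pos j
  apply LSeries_le_of_partial _ _ _ (by positivity)
  intro K
  have h3 : ∀ n ∈ Ioc 0 K, LSeries.term (fun n => c n * (Real.log n : ℂ) ^ j) s n
      = c n * gj j s n := by
    intro n hn
    rw [mem_Ioc] at hn
    exact term_eq_gj c j s n (by omega)
  rw [sum_congr rfl h3]
  exact partial_bound j c q hq hc1 hc s hs.le hs2 K

end Pool.Agent.SW
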