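import Pool.Agent.Work.SW.Hyper

/-!
Real `L`-values as limits of partial sums, and the analogous expansion for `∑ n^{-β}`.
-/

set_option autoImplicit false

namespace Pool.Agent.SW

open Finset ArithmeticFunction Filter

theorem abel_real (c : ℕ → ℝ) (g : ℕ → ℝ) (M N : ℕ) (h : M ≤ N) (B : ℝ) (hB0 : 0 ≤ B)
    (hB : ∀ M N, |∑ k ∈ Ioc M N, c k| ≤ B)
    (hg : ∀ n, M < n → g (n + 1) ≤ g n) (hg0 : ∀ n, M < n → 0 ≤ g n) :
    |∑ n ∈ Ioc M N, c n * g n| ≤ B * g (M + 1) := by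
  have h1 := abel_bound_anti (fun n => (c n : ℂ)) g M N h B hB0 ?_ hg hg0
  · have h2 : (∑ n ∈ Ioc M N, (c n : ℂ) * (g n : ℂ)) = ((∑ n ∈ Ioc M N, c n * g n : ℝ) : ℂ) := by
      push_cast
      rfl
    rwa [h2, Complex.norm_real, Real.norm_eq_abs] at h1
  · intro n _ _
    have h2 : (∑ k ∈ Ioc M n, (c k : ℂ)) = ((∑ k ∈ Ioc M n, c k : ℝ) : ℂ) := by
      push_cast
      rfl
    rw [h2, Complex.norm_real, Real.norm_eq_abs]
    exact hB M n

/-- Partial sums `∑_{n ≤ N} c(n) n^{-β}`. -/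
noncomputable def Sp (c : ℕ → ℝ) (β : ℝ) (N : ℕ) : ℝ := ∑ n ∈ Ioc 0 N, c n * (n : ℝ) ^ (-β)

/-- The value `L(β, c)`. -/
noncomputable def Lr (c : ℕ → ℝ) (β : ℝ) : ℝ := limUnder atTop (Sp c β)

theorem Sp_tail (c : ℕ → ℝ) (Q : ℝ) (hQ : ∀ M N, |∑ k ∈ Ioc M N, c k| ≤ Q) (β : ℝ) (hβ : 0 < β)
    (N N' : ℕ) (h : N ≤ N') : |Sp c β N' - Sp c β N| ≤ Q * ((N : ℝ) + 1) ^ (-β) := by
  have hQ0 : 0 ≤ Q := (abs_nonneg _).trans (hQ 0 0)
  have h1 : Sp c β N' - Sp c β N = ∑ n ∈ Ioc N N', c n * (n : ℝ) ^ (-β) := by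
    unfold Sp
    rw [← Ioc_union_Ioc_eq_Ioc (Nat.zero_le _) h, sum_union (Ioc_disjoint_Ioc_of_le le_rfl)]
    ring
  rw [h1]
  have h2 := abel_real c (fun n => (n : ℝ) ^ (-β)) N N' h Q hQ0 hQ ?_ ?_
  · push_cast at h2
    exact h2
  · intro n hn
    apply Real.rpow_le_rpow_of_nonpos
    · have : 0 < n := by omega
      exact_mod_cast this
    · push_cast; linarith
    · linarith
  · intro n _
    positivity

theorem tendsto_rpow_neg (β : ℝ) (hβ : 0 < β) (Q : ℝ) :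
    Tendsto (fun N : ℕ => Q * ((N : ℝ) + 1) ^ (-β)) atTop (nhds 0) := by
  have h1 : Tendsto (fun x : ℝ => x ^ (-β)) atTop (nhds 0) := tendsto_rpow_neg_atTop hβ
  have h2 : Tendsto (fun N : ℕ => ((N : ℝ) + 1)) atTop atTop :=
    tendsto_atTop_add_const_right _ _ tendsto_natCast_atTop_atTop
  have h3 := (h1.comp h2).const_mul Q
  rw [mul_zero] at h3
  exact h3

theorem Sp_cauchy (c : ℕ → ℝ) (Q : ℝ) (hQ : ∀ M N, |∑ k ∈ Ioc M N, c k| ≤ Q) (β : ℝ)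
    (hβ : 0 < β) : CauchySeq (Sp c β) := by
  apply cauchySeq_of_le_tendsto_0 (fun N : ℕ => 2 * Q * ((N : ℝ) + 1) ^ (-β))
  · intro n m N hn hm
    rw [Real.dist_eq]
    have h1 := Sp_tail c Q hQ β hβ N n hn
    have h2 := Sp_tail c Q hQ β hβ N m hm
    have h3 : Sp c β n - Sp c β m = (Sp c β n - Sp c β N) - (Sp c β m - Sp c β N) := by ring
    rw [h3]
    refine (abs_sub _ _).trans ?_
    linarith
  · exact tendsto_rpow_neg β hβ (2 * Q)

theorem Sp_tendsto (c : ℕ → ℝ) (Q : ℝ) (hQ : ∀ M N, |∑ k ∈ Ioc M N, c k| ≤ Q) (β : ℝ)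
    (hβ : 0 < β) : Tendsto (Sp c β) atTop (nhds (Lr c β)) :=
  (Sp_cauchy c Q hQ β hβ).tendsto_limUnder

theorem Lr_spec (c : ℕ → ℝ) (Q : ℝ) (hQ : ∀ M N, |∑ k ∈ Ioc M N, c k| ≤ Q) (β : ℝ)
    (hβ : 0 < β) (N : ℕ) : |Sp c β N - Lr c β| ≤ Q * ((N : ℝ) + 1) ^ (-β) := by
  have h1 := Sp_tendsto c Q hQ β hβ
  have h2 : Tendsto (fun N' => |Sp c β N - Sp c β N'|) atTop (nhds |Sp c β N - Lr c β|) :=
    (h1.const_sub _).abs
  apply le_of_tendsto h2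
  filter_upwards [eventually_ge_atTop N] with N' hN'
  rw [abs_sub_comm]
  exact Sp_tail c Q hQ β hβ N N' hN'

theorem Lr_spec_real (c : ℕ → ℝ) (Q : ℝ) (hQ : ∀ M N, |∑ k ∈ Ioc M N, c k| ≤ Q) (β : ℝ)
    (hβ : 0 < β) (v : ℝ) (hv : 0 < v) : |Sp c β ⌊v⌋₊ - Lr c β| ≤ Q * v ^ (-β) := by
  have hQ0 : 0 ≤ Q := (abs_nonneg _).trans (hQ 0 0)
  refine (Lr_spec c Q hQ β hβ ⌊v⌋₊).trans ?_
  exact mul_le_mul_of_nonneg_left (Real.rpow_le_rpow_of_nonpos hv (Nat.lt_floor_add_one v).le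
    (by linarith)) hQ0

theorem Lr_continuousOn (c : ℕ → ℝ) (Q : ℝ) (hQ : ∀ M N, |∑ k ∈ Ioc M N, c k| ≤ Q) (b : ℝ)
    (hb : 0 < b) : ContinuousOn (Lr c) (Set.Ici b) := by
  have hQ0 : 0 ≤ Q := (abs_nonneg _).trans (hQ 0 0)
  have h1 : TendstoUniformlyOn (fun (N : ℕ) (β : ℝ) => Sp c β N) (Lr c) atTop (Set.Ici b) := by
    rw [Metric.tendstoUniformlyOn_iff]
    intro ε hε
    have h2 := tendsto_rpow_neg b hb Q
    filter_upwards [(tendsto_order.mp h2).2 ε hε] with N hN β hβ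
    rw [Real.dist_eq, abs_sub_comm]
    refine lt_of_le_of_lt (Lr_spec c Q hQ β (lt_of_lt_of_le hb hβ) N) (lt_of_le_of_lt ?_ hN)
    gcongr
    · linarith [Nat.cast_nonneg (α := ℝ) N]
    · exact hβ
  apply h1.continuousOn
  apply Frequently.of_forall
  intro N
  unfold Sp
  apply continuousOn_finsetSum
  intro n hn
  rw [mem_Ioc] at hn
  have hn0 : (n : ℝ) ≠ 0 := by
    have : n ≠ 0 := by omega
    exact_mod_cast this
  apply ContinuousOn.mul continuousOn_const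
  apply Continuous.continuousOn
  exact Continuous.rpow continuous_const continuous_neg (fun _ => Or.inl hn0)

/-! ### The case of `n^{-β}` -/

theorem rpow_diff_upper (x y p : ℝ) (hx : 0 < x) (hxy : x ≤ y) (hp0 : 0 ≤ p) (hp1 : p ≤ 1) :
    y ^ p - x ^ p ≤ p * x ^ (p - 1) * (y - x) := by
  have h1 : y = x * (1 + (y - x) / x) := by field_simp; ring
  have h2 := _root_.rpow_one_add_le_one_add_mul_self (s := (y - x) / x) (p := p)
    (by have : 0 ≤ (y - x) / x := div_nonneg (by linarith) hx.le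
        linarith) hp0 hp1
  have h3 : y ^ p = x ^ p * (1 + (y - x) / x) ^ p := by
    conv_lhs => rw [h1]
    rw [Real.mul_rpow hx.le]
    have : 0 ≤ (y - x) / x := div_nonneg (by linarith) hx.le
    linarith
  have h4 : 0 ≤ x ^ p := Real.rpow_nonneg hx.le p
  rw [h3]
  have h5 : x ^ p * (1 + (y - x) / x) ^ p ≤ x ^ p * (1 + p * ((y - x) / x)) := by gcongr
  have h6 : x ^ (p - 1) = x ^ p / x := by rw [Real.rpow_sub hx, Real.rpow_one]
  rw [h6]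
  have h7 : x ^ p * (1 + p * ((y - x) / x)) = x ^ p + p * (x ^ p / x) * (y - x) := by
    field_simp
  linarith

theorem rpow_diff_lower (x y p : ℝ) (hx : 0 < x) (hxy : x ≤ y) (hp0 : 0 ≤ p) (hp1 : p ≤ 1) :
    p * y ^ (p - 1) * (y - x) ≤ y ^ p - x ^ p := by
  have hy : 0 < y := by linarith
  have h1 : x = y * (1 + (x - y) / y) := by field_simp; ring
  have h0 : -1 ≤ (x - y) / y := by
    rw [le_div_iff₀ hy]
    linarith
  have h2 := _root_.rpow_one_add_le_one_add_mul_self (s := (x - y) / y) (p := p) h0 hp0 hp1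
  have h3 : x ^ p = y ^ p * (1 + (x - y) / y) ^ p := by
    conv_lhs => rw [h1]
    rw [Real.mul_rpow hy.le]
    linarith
  have h4 : 0 ≤ y ^ p := Real.rpow_nonneg hy.le p
  rw [h3]
  have h5 : y ^ p * (1 + (x - y) / y) ^ p ≤ y ^ p * (1 + p * ((x - y) / y)) := by gcongr
  have h6 : y ^ (p - 1) = y ^ p / y := by rw [Real.rpow_sub hy, Real.rpow_one]
  rw [h6]
  have h7 : y ^ p * (1 + p * ((x - y) / y)) = y ^ p + p * (y ^ p / y) * (x - y) := by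
    field_simp
  nlinarith

/-- `D_N = ∑_{n ≤ N} n^{-β} - N^{1-β}/(1-β)`. -/
noncomputable def Dz (β : ℝ) (N : ℕ) : ℝ :=
  ∑ n ∈ Ioc 0 N, (n : ℝ) ^ (-β) - (N : ℝ) ^ (1 - β) / (1 - β)

theorem Dz_step (β : ℝ) (hβ0 : 0 ≤ β) (hβ1 : β < 1) (N : ℕ) (hN : 1 ≤ N) :
    Dz β (N + 1) ≤ Dz β N ∧ Dz β N - Dz β (N + 1) ≤ (N : ℝ) ^ (-β) - ((N : ℝ) + 1) ^ (-β) := by
  have hN0 : (0 : ℝ) < N := by exact_mod_cast hN
  have hp : 0 < 1 - β := by linarith
  have h1 := rpow_diff_upper (N : ℝ) (N + 1) (1 - β) hN0 (by linarith) hp.le (by linarith)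
  have h2 := rpow_diff_lower (N : ℝ) (N + 1) (1 - β) hN0 (by linarith) hp.le (by linarith)
  have e1 : (1 : ℝ) - β - 1 = -β := by ring
  rw [e1] at h1 h2
  have h3 : Dz β (N + 1) - Dz β N = ((N : ℝ) + 1) ^ (-β)
      - (((N : ℝ) + 1) ^ (1 - β) - (N : ℝ) ^ (1 - β)) / (1 - β) := by
    unfold Dz
    rw [← Finset.insert_Ioc_right_eq_Ioc_add_one (by omega), sum_insert (by simp)]
    push_cast
    ring
  have h4 : ((N : ℝ) + 1) ^ (-β) ≤ (((N : ℝ) + 1) ^ (1 - β) - (N : ℝ) ^ (1 - β)) / (1 - β) := by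
    rw [le_div_iff₀ hp]
    linarith
  have h5 : (((N : ℝ) + 1) ^ (1 - β) - (N : ℝ) ^ (1 - β)) / (1 - β) ≤ (N : ℝ) ^ (-β) := by
    rw [div_le_iff₀ hp]
    linarith
  constructor <;> linarith

/-- The regularised value `ζ(β)`. -/
noncomputable def Zr (β : ℝ) : ℝ := limUnder atTop (Dz β)

theorem Dz_tail (β : ℝ) (hβ0 : 0 ≤ β) (hβ1 : β < 1) (N N' : ℕ) (hN : 1 ≤ N) (h : N ≤ N') :
    Dz β N' ≤ Dz β N ∧ Dz β N - Dz β N' ≤ (N : ℝ) ^ (-β) - (N' : ℝ) ^ (-β) := by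
  induction N', h using Nat.le_induction with
  | base => simp
  | succ m hm ih =>
    have h1 := Dz_step β hβ0 hβ1 m (by omega)
    push_cast
    constructor <;> linarith [ih.1, ih.2, h1.1, h1.2]

theorem Dz_tendsto (β : ℝ) (hβ0 : 0 < β) (hβ1 : β < 1) :
    Tendsto (Dz β) atTop (nhds (Zr β)) := by
  apply CauchySeq.tendsto_limUnder
  have hshift : CauchySeq (fun N => Dz β (N + 1)) := by
    apply cauchySeq_of_le_tendsto_0 (fun N : ℕ => 2 * ((N : ℝ) + 1) ^ (-β))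
    · intro n m N hn hm
      rw [Real.dist_eq]
      have h1 := Dz_tail β hβ0.le hβ1 (N + 1) (n + 1) (by omega) (by omega)
      have h2 := Dz_tail β hβ0.le hβ1 (N + 1) (m + 1) (by omega) (by omega)
      have h3 : (0 : ℝ) ≤ ((n + 1 : ℕ) : ℝ) ^ (-β) := by positivity
      have h4 : (0 : ℝ) ≤ ((m + 1 : ℕ) : ℝ) ^ (-β) := by positivity
      push_cast at h1 h2 h3 h4
      rw [abs_le]
      constructor <;> linarith [h1.1, h1.2, h2.1, h2.2]
    · exact tendsto_rpow_neg β hβ0 2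
  have h5 := (cauchySeq_tendsto_of_complete hshift)
  obtain ⟨x, hx⟩ := h5
  exact ((tendsto_add_atTop_iff_nat 1).mp hx).cauchySeq

theorem Zr_spec (β : ℝ) (hβ0 : 0 < β) (hβ1 : β < 1) (N : ℕ) (hN : 1 ≤ N) :
    |Dz β N - Zr β| ≤ (N : ℝ) ^ (-β) := by
  have h1 := Dz_tendsto β hβ0 hβ1
  have h2 : Tendsto (fun N' => |Dz β N - Dz β N'|) atTop (nhds |Dz β N - Zr β|) :=
    (h1.const_sub _).abs
  apply le_of_tendsto h2
  filter_upwards [eventually_ge_atTop N] with N' hN'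
  have h3 := Dz_tail β hβ0.le hβ1 N N' hN hN'
  have h4 : (0 : ℝ) ≤ (N' : ℝ) ^ (-β) := by positivity
  rw [abs_of_nonneg (by linarith [h3.1])]
  linarith [h3.2]

theorem Zr_nonpos (β : ℝ) (hβ0 : 0 < β) (hβ1 : β < 1) : Zr β ≤ 0 := by
  have h1 := Dz_tendsto β hβ0 hβ1
  apply le_of_tendsto h1
  filter_upwards [eventually_ge_atTop 1] with N hN
  have h2 := (Dz_tail β hβ0.le hβ1 1 N le_rfl hN).1
  have h3 : Dz β 1 ≤ 0 := by
    unfold Dz
    have : (1 : ℝ) ≤ 1 / (1 - β) := by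
      rw [le_div_iff₀ (by linarith)]
      linarith
    simp
    rw [← one_div]
    exact this
  linarith

theorem zeta_expand (β : ℝ) (hβ0 : 0 < β) (hβ1 : β < 1) (v : ℝ) (hv : 1 ≤ v) :
    |∑ n ∈ Ioc 0 ⌊v⌋₊, (n : ℝ) ^ (-β) - (1 / (1 - β) * v ^ (1 - β) + Zr β)| ≤ 4 * v ^ (-β) := by
  have hv0 : 0 < v := by linarith
  set N := ⌊v⌋₊ with hN
  have hN1 : 1 ≤ N := Nat.le_floor (by simpa using hv)
  have hN1' : (1 : ℝ) ≤ N := by exact_mod_cast hN1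
  have hN0 : (0 : ℝ) < N := by linarith
  have hNv : (N : ℝ) ≤ v := Nat.floor_le hv0.le
  have hvN : v < N + 1 := Nat.lt_floor_add_one v
  have hp : 0 < 1 - β := by linarith
  have h1 := Zr_spec β hβ0 hβ1 N hN1
  have h2 := rpow_diff_upper (N : ℝ) v (1 - β) hN0 hNv hp.le (by linarith)
  have e1 : (1 : ℝ) - β - 1 = -β := by ring
  rw [e1] at h2
  have h3 : (N : ℝ) ^ (1 - β) ≤ v ^ (1 - β) := by gcongr
  have h4 : (v ^ (1 - β) - (N : ℝ) ^ (1 - β)) / (1 - β) ≤ (N : ℝ) ^ (-β) := by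
    rw [div_le_iff₀ hp]
    have h5 : 0 ≤ (N : ℝ) ^ (-β) := by positivity
    have h6 : v - N ≤ 1 := by linarith
    nlinarith [mul_nonneg hp.le h5]
  have h5 : 0 ≤ (v ^ (1 - β) - (N : ℝ) ^ (1 - β)) / (1 - β) := div_nonneg (by linarith) hp.le
  have h6 : (N : ℝ) ^ (-β) ≤ 2 * v ^ (-β) := by
    have h7 : v / 2 ≤ N := by linarith
    calc (N : ℝ) ^ (-β) ≤ (v / 2) ^ (-β) :=
          Real.rpow_le_rpow_of_nonpos (by positivity) h7 (by linarith)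
      _ = v ^ (-β) * 2 ^ β := by
          rw [Real.div_rpow hv0.le (by norm_num), Real.rpow_neg (by norm_num : (0:ℝ) ≤ 2),
            div_inv_eq_mul]
      _ ≤ v ^ (-β) * 2 ^ (1 : ℝ) := by
          gcongr
          norm_num
      _ = _ := by rw [Real.rpow_one]; ring
  have h7 : ∑ n ∈ Ioc 0 N, (n : ℝ) ^ (-β) - (1 / (1 - β) * v ^ (1 - β) + Zr β)
      = (Dz β N - Zr β) - (v ^ (1 - β) - (N : ℝ) ^ (1 - β)) / (1 - β) := by
    unfold Dz
    ring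
  rw [h7]
  refine (abs_sub _ _).trans ?_
  rw [abs_of_nonneg h5]
  linarith

theorem abs_sum_bound (β : ℝ) (hβ : 15 / 16 ≤ β) (N : ℕ) :
    ∑ n ∈ Ioc 0 N, (n : ℝ) ^ (-β) ≤ 16 * (N : ℝ) ^ ((1 : ℝ) / 16) := by
  induction N with
  | zero => simp
  | succ N ih =>
    rw [← Finset.insert_Ioc_right_eq_Ioc_add_one (by omega), sum_insert (by simp)]
    rcases Nat.eq_zero_or_pos N with h | h
    · subst h
      simp
    · have hN0 : (0 : ℝ) < N := by exact_mod_cast h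
      have h1 := rpow_diff_lower (N : ℝ) (N + 1) ((1 : ℝ) / 16) hN0 (by linarith) (by norm_num)
        (by norm_num)
      have h2 : ((N : ℝ) + 1) ^ (-β) ≤ ((N : ℝ) + 1) ^ ((1 : ℝ) / 16 - 1) := by
        apply Real.rpow_le_rpow_of_exponent_le (by linarith)
        linarith
      push_cast
      linarith

end Pool.Agent.SW
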