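import Pool.Agent.Work.SW.RealL

/-!
The analytic heart of Siegel's theorem, by elementary means: for real completely multiplicative
`c₁, c₂, c₃ = c₁ c₂` with bounded partial sums, `L(1,c₁) L(1,c₂) L(1,c₃)` is bounded from below if
`L(β,c₁) L(β,c₂) L(β,c₃) ≥ 0` for some `β` close to `1`.
-/

set_option autoImplicit false

namespace Pool.Agent.SW

open Finset ArithmeticFunction
open scoped ArithmeticFunction.zeta

/-- Real completely multiplicative functions with bounded partial sums. -/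
structure RC (c : ℕ → ℝ) (Q : ℝ) : Prop where
  one : c 1 = 1
  mul : ∀ m n, c (m * n) = c m * c n
  abs : ∀ n, |c n| ≤ 1
  sum : ∀ M N, |∑ k ∈ Ioc M N, c k| ≤ Q

theorem RC.Q_nonneg {c : ℕ → ℝ} {Q : ℝ} (h : RC c Q) : 0 ≤ Q := (abs_nonneg _).trans (h.sum 0 0)

/-- `c` as an arithmetic function. -/
def cf (c : ℕ → ℝ) : ArithmeticFunction ℝ := ⟨fun n => if n = 0 then 0 else c n, by simp⟩

theorem cf_apply (c : ℕ → ℝ) (n : ℕ) : cf c n = if n = 0 then 0 else c n := rfl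

theorem cf_apply' (c : ℕ → ℝ) (n : ℕ) (hn : n ≠ 0) : cf c n = c n := by
  rw [cf_apply, if_neg hn]

/-- Weighting by `n^{-β}`. -/
noncomputable def wt (β : ℝ) (f : ArithmeticFunction ℝ) : ArithmeticFunction ℝ :=
  ⟨fun n => f n * (n : ℝ) ^ (-β), by simp⟩

theorem wt_apply (β : ℝ) (f : ArithmeticFunction ℝ) (n : ℕ) : wt β f n = f n * (n : ℝ) ^ (-β) := rfl

theorem wt_mul (β : ℝ) (f g : ArithmeticFunction ℝ) : wt β (f * g) = wt β f * wt β g := by
  ext n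
  rw [wt_apply, mul_apply, mul_apply, sum_mul]
  refine sum_congr rfl fun p hp => ?_
  rw [wt_apply, wt_apply, ← (Nat.mem_divisorsAntidiagonal.mp hp).1, Nat.cast_mul,
    Real.mul_rpow (Nat.cast_nonneg _) (Nat.cast_nonneg _)]
  ring

theorem wt_shift (β : ℝ) (f : ArithmeticFunction ℝ) (v : ℝ) :
    Sm (fun m => wt β f m * (m : ℝ) ^ (β - 1)) v = Sm (wt 1 f) v := by
  unfold Sm
  refine sum_congr rfl fun m hm => ?_
  rw [mem_Ioc] at hm
  have hm0 : (0 : ℝ) < m := by exact_mod_cast hm.1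
  change wt β f m * (m : ℝ) ^ (β - 1) = wt 1 f m
  rw [wt_apply, wt_apply, mul_assoc, ← Real.rpow_add hm0]
  congr 2
  ring

theorem Sm_cf (c : ℕ → ℝ) (β v : ℝ) : Sm (wt β (cf c)) v = Sp c β ⌊v⌋₊ := by
  unfold Sm Sp
  refine sum_congr rfl fun m hm => ?_
  rw [mem_Ioc] at hm
  rw [wt_apply, cf_apply' c m (by omega)]

theorem rpow_neg_mono {v θ β : ℝ} (hv : 1 ≤ v) (h : θ ≤ β) : v ^ (-β) ≤ v ^ (-θ) :=
  Real.rpow_le_rpow_of_exponent_le hv (by linarith)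

theorem cf_expand {c : ℕ → ℝ} {Q : ℝ} (h : RC c Q) (β : ℝ) (hβ : 15 / 16 ≤ β) (v : ℝ)
    (hv : 1 ≤ v) : |Sm (wt β (cf c)) v - Lr c β| ≤ Q * v ^ (-(15 / 16 : ℝ)) := by
  rw [Sm_cf]
  refine (Lr_spec_real c Q h.sum β (by linarith) v (by linarith)).trans ?_
  exact mul_le_mul_of_nonneg_left (rpow_neg_mono hv hβ) h.Q_nonneg

theorem cf_expand1 {c : ℕ → ℝ} {Q : ℝ} (h : RC c Q) (β : ℝ) (v : ℝ)
    (hv : 1 ≤ v) : |Sm (fun m => wt β (cf c) m * (m : ℝ) ^ (β - 1)) v - Lr c 1|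
      ≤ Q * v ^ (-(15 / 16 : ℝ)) := by
  rw [wt_shift]
  exact cf_expand h 1 (by norm_num) v hv

theorem floor_rpow_le (v α : ℝ) (hv : 1 ≤ v) (hα : 0 ≤ α) : (⌊v⌋₊ : ℝ) ^ α ≤ v ^ α := by
  apply Real.rpow_le_rpow (Nat.cast_nonneg _) (Nat.floor_le (by linarith)) hα

theorem cf_abs {c : ℕ → ℝ} {Q : ℝ} (h : RC c Q) (β : ℝ) (hβ : 15 / 16 ≤ β) (v : ℝ)
    (hv : 1 ≤ v) : Sm (fun n => |wt β (cf c) n|) v ≤ 16 * v ^ ((1 : ℝ) / 16) := by
  have h1 : Sm (fun n => |wt β (cf c) n|) v ≤ ∑ n ∈ Ioc 0 ⌊v⌋₊, (n : ℝ) ^ (-β) := by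
    unfold Sm
    refine sum_le_sum fun n hn => ?_
    rw [mem_Ioc] at hn
    rw [wt_apply, cf_apply' c n (by omega), abs_mul]
    have h2 : |(n : ℝ) ^ (-β)| = (n : ℝ) ^ (-β) := abs_of_nonneg (by positivity)
    rw [h2]
    calc |c n| * (n : ℝ) ^ (-β) ≤ 1 * (n : ℝ) ^ (-β) := by
          gcongr
          exact h.abs n
      _ = _ := one_mul _
  refine h1.trans ((abs_sum_bound β hβ _).trans ?_)
  exact mul_le_mul_of_nonneg_left (floor_rpow_le v _ hv (by norm_num)) (by norm_num)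

theorem zeta_abs (β : ℝ) (hβ : 15 / 16 ≤ β) (v : ℝ) (hv : 1 ≤ v) :
    Sm (fun n => |wt β (ζ : ArithmeticFunction ℝ) n|) v ≤ 16 * v ^ ((1 : ℝ) / 16) := by
  have h1 : Sm (fun n => |wt β (ζ : ArithmeticFunction ℝ) n|) v
      = ∑ n ∈ Ioc 0 ⌊v⌋₊, (n : ℝ) ^ (-β) := by
    unfold Sm
    refine sum_congr rfl fun n hn => ?_
    rw [mem_Ioc] at hn
    change |wt β (ζ : ArithmeticFunction ℝ) n| = (n : ℝ) ^ (-β)
    rw [wt_apply, natCoe_apply, zeta_apply, if_neg (by omega), Nat.cast_one, one_mul,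
      abs_of_nonneg (by positivity)]
  rw [h1]
  refine (abs_sum_bound β hβ _).trans ?_
  exact mul_le_mul_of_nonneg_left (floor_rpow_le v _ hv (by norm_num)) (by norm_num)

theorem zeta_expand' (β : ℝ) (hβ : 15 / 16 ≤ β) (hβ1 : β < 1) (v : ℝ) (hv : 1 ≤ v) :
    |Sm (wt β (ζ : ArithmeticFunction ℝ)) v - (1 / (1 - β) * v ^ (1 - β) + Zr β)|
      ≤ 4 * v ^ (-(15 / 16 : ℝ)) := by
  have h1 : Sm (wt β (ζ : ArithmeticFunction ℝ)) v = ∑ n ∈ Ioc 0 ⌊v⌋₊, (n : ℝ) ^ (-β) := by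
    unfold Sm
    refine sum_congr rfl fun n hn => ?_
    rw [mem_Ioc] at hn
    rw [wt_apply, natCoe_apply, zeta_apply, if_neg (by omega), Nat.cast_one, one_mul]
  rw [h1]
  refine (zeta_expand β (by linarith) hβ1 v hv).trans ?_
  exact mul_le_mul_of_nonneg_left (rpow_neg_mono hv hβ) (by norm_num)

theorem Lr_abs_le {c : ℕ → ℝ} {Q : ℝ} (h : RC c Q) (β : ℝ) (hβ : 0 < β) : |Lr c β| ≤ Q := by
  have h1 := Lr_spec c Q h.sum β hβ 0
  simpa [Sp] using h1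

/-- The expansion for `c₃ * c₂`. -/
theorem H_expand {c2 c3 : ℕ → ℝ} {Q2 Q3 : ℝ} (h2 : RC c2 Q2) (h3 : RC c3 Q3) (β : ℝ)
    (hβ : 31 / 32 ≤ β) (hβ1 : β ≤ 1) (v : ℝ) (hv : 1 ≤ v) :
    |Sm (wt β (cf c3 * cf c2)) v - Lr c2 β * Lr c3 β|
      ≤ (2 * Q2 * Q3 + 16 * Q2 + 64 * Q3) * v ^ (-(7 / 16 : ℝ)) := by
  have hQ2 := h2.Q_nonneg
  have hQ3 := h3.Q_nonneg
  have h := hyp_expand (wt β (cf c2)) (wt β (cf c3)) β (15 / 16) (1 / 16) 0 (Lr c2 β) (Lr c3 β)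
    (Lr c3 1) Q2 Q3 16 16 (by norm_num) (by norm_num) (by norm_num) (by linarith) hQ2 hQ3
    (by norm_num) (by norm_num)
    (fun v hv => by rw [zero_mul, zero_add]; exact cf_expand h2 β (by linarith) v hv)
    (fun v hv => cf_expand h3 β (by linarith) v hv)
    (fun v hv => cf_expand1 h3 β v hv)
    (fun v hv => cf_abs h2 β (by linarith) v hv)
    (fun v hv => cf_abs h3 β (by linarith) v hv) v hv
  rw [← wt_mul] at h
  have e1 : -(((15 : ℝ) / 16 - 1 / 16) / 2) = -(7 / 16) := by norm_num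
  rw [e1] at h
  simp only [zero_mul, zero_add, abs_zero, mul_zero] at h
  refine h.trans ?_
  have h4 := Lr_abs_le h2 β (by linarith)
  have h5 : 2 * |Lr c2 β| * Q3 ≤ 2 * Q2 * Q3 := by gcongr
  apply mul_le_mul_of_nonneg_right _ (by positivity)
  linarith

/-- The expansion for `c₁ * 1`. -/
theorem G_expand {c1 : ℕ → ℝ} {Q1 : ℝ} (h1 : RC c1 Q1) (β : ℝ)
    (hβ : 31 / 32 ≤ β) (hβ1 : β < 1) (v : ℝ) (hv : 1 ≤ v) :
    |Sm (wt β (cf c1 * (ζ : ArithmeticFunction ℝ))) v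
        - (1 / (1 - β) * Lr c1 1 * v ^ (1 - β) + Zr β * Lr c1 β)|
      ≤ (2 * |1 / (1 - β)| * Q1 + 2 * |Zr β| * Q1 + 4 * 16 + 4 * Q1 * 16)
        * v ^ (-(7 / 16 : ℝ)) := by
  have hQ1 := h1.Q_nonneg
  have h := hyp_expand (wt β (ζ : ArithmeticFunction ℝ)) (wt β (cf c1)) β (15 / 16) (1 / 16)
    (1 / (1 - β)) (Zr β) (Lr c1 β)
    (Lr c1 1) 4 Q1 16 16 (by norm_num) (by norm_num) (by norm_num) (by linarith) (by norm_num) hQ1
    (by norm_num) (by norm_num)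
    (fun v hv => zeta_expand' β (by linarith) hβ1 v hv)
    (fun v hv => cf_expand h1 β (by linarith) v hv)
    (fun v hv => cf_expand1 h1 β v hv)
    (fun v hv => zeta_abs β (by linarith) v hv)
    (fun v hv => cf_abs h1 β (by linarith) v hv) v hv
  rw [← wt_mul] at h
  have e1 : -(((15 : ℝ) / 16 - 1 / 16) / 2) = -(7 / 16) := by norm_num
  rwa [e1] at h

/-! ### Positivity -/

/-- Multiplication by `log`. -/
noncomputable def Dl (f : ArithmeticFunction ℝ) : ArithmeticFunction ℝ :=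
  ⟨fun n => f n * Real.log n, by simp⟩

theorem Dl_apply (f : ArithmeticFunction ℝ) (n : ℕ) : Dl f n = f n * Real.log n := rfl

theorem Dl_mul (f g : ArithmeticFunction ℝ) : Dl (f * g) = Dl f * g + f * Dl g := by
  ext n
  rw [Dl_apply, ArithmeticFunction.add_apply, mul_apply, mul_apply, mul_apply, sum_mul,
    ← sum_add_distrib]
  refine sum_congr rfl fun p hp => ?_
  obtain ⟨h1, h2⟩ := Nat.mem_divisorsAntidiagonal.mp hp
  rw [Dl_apply, Dl_apply, ← h1, Nat.cast_mul, Real.log_mul]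
  · ring
  · intro h
    have : p.1 = 0 := by exact_mod_cast h
    rw [this, zero_mul] at h1
    exact h2 h1.symm
  · intro h
    have : p.2 = 0 := by exact_mod_cast h
    rw [this, mul_zero] at h1
    exact h2 h1.symm

/-- `Λ c`. -/
noncomputable def Lc (c : ℕ → ℝ) : ArithmeticFunction ℝ := ⟨fun n => Λ n * c n, by simp⟩

theorem Lc_apply (c : ℕ → ℝ) (n : ℕ) : Lc c n = Λ n * c n := rfl

theorem Dl_cf {c : ℕ → ℝ} (hmul : ∀ m n, c (m * n) = c m * c n) : Dl (cf c) = Lc c * cf c := by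
  ext n
  rcases eq_or_ne n 0 with rfl | hn
  · simp
  rw [Dl_apply, mul_apply, cf_apply' c n hn]
  have h1 : ∀ p ∈ n.divisorsAntidiagonal, Lc c p.1 * cf c p.2 = c n * Λ p.1 := by
    intro p hp
    obtain ⟨h1, h2⟩ := Nat.mem_divisorsAntidiagonal.mp hp
    have h3 : p.2 ≠ 0 := by
      intro h
      rw [h, mul_zero] at h1
      exact h2 h1.symm
    rw [Lc_apply, cf_apply' c p.2 h3, ← h1, hmul]
    ring
  rw [sum_congr rfl h1, ← mul_sum, Nat.sum_divisorsAntidiagonal (fun i _ => Λ i), vonMangoldt_sum]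

theorem nonneg_of_deriv (f κ : ArithmeticFunction ℝ) (h1 : f 1 = 1) (hκ0 : κ 1 = 0)
    (hκ : ∀ n, 0 ≤ κ n) (hD : Dl f = κ * f) (n : ℕ) : 0 ≤ f n := by
  induction n using Nat.strong_induction_on with
  | _ n ih =>
    rcases eq_or_ne n 0 with rfl | hn
    · simp
    rcases eq_or_ne n 1 with rfl | hn1
    · rw [h1]; norm_num
    have hlog : 0 < Real.log n := by
      apply Real.log_pos
      have : 1 < n := by omega
      exact_mod_cast this
    have h2 : f n * Real.log n = ∑ p ∈ n.divisorsAntidiagonal, κ p.1 * f p.2 := by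
      rw [← Dl_apply, hD, mul_apply]
    have h3 : 0 ≤ f n * Real.log n := by
      rw [h2]
      refine sum_nonneg fun p hp => ?_
      obtain ⟨h4, h5⟩ := Nat.mem_divisorsAntidiagonal.mp hp
      rcases eq_or_ne p.1 1 with h | h
      · rw [h, hκ0, zero_mul]
      · apply mul_nonneg (hκ _)
        apply ih
        have h6 : p.1 ≠ 0 := by
          intro h'
          rw [h', zero_mul] at h4
          exact h5 h4.symm
        have h7 : p.2 ≠ 0 := by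
          intro h'
          rw [h', mul_zero] at h4
          exact h5 h4.symm
        have h8 : 2 ≤ p.1 := by omega
        have h9 : 0 < p.2 := Nat.pos_of_ne_zero h7
        nlinarith
    exact nonneg_of_mul_nonneg_left h3 hlog

theorem f_nonneg {c1 c2 c3 : ℕ → ℝ} {Q1 Q2 Q3 : ℝ} (h1 : RC c1 Q1) (h2 : RC c2 Q2)
    (h3 : RC c3 Q3) (h12 : ∀ n, c3 n = c1 n * c2 n) :
    (∀ n, 0 ≤ (cf c3 * cf c2 * (cf c1 * (ζ : ArithmeticFunction ℝ))) n)
      ∧ (cf c3 * cf c2 * (cf c1 * (ζ : ArithmeticFunction ℝ))) 1 = 1 := by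
  have hone : (cf c3 * cf c2 * (cf c1 * (ζ : ArithmeticFunction ℝ))) 1 = 1 := by
    simp [mul_apply, cf_apply, h1.one, h2.one, h3.one]
  refine ⟨?_, hone⟩
  set f := cf c3 * cf c2 * (cf c1 * (ζ : ArithmeticFunction ℝ)) with hf
  have hz : (ζ : ArithmeticFunction ℝ) = cf (fun _ => 1) := by
    ext n
    rw [natCoe_apply, zeta_apply, cf_apply]
    split_ifs <;> simp
  set κ : ArithmeticFunction ℝ := Lc c3 + Lc c2 + Lc c1 + Lc (fun _ => 1) with hκ
  have hD : Dl f = κ * f := by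
    rw [hf, hz, Dl_mul, Dl_mul, Dl_mul, Dl_cf h3.mul, Dl_cf h2.mul, Dl_cf h1.mul,
      Dl_cf (c := fun _ => 1) (fun _ _ => by ring), hκ]
    ring
  apply nonneg_of_deriv f κ hone _ _ hD
  · simp [hκ, ArithmeticFunction.add_apply, Lc_apply]
  · intro n
    simp only [hκ, ArithmeticFunction.add_apply, Lc_apply]
    have e : Λ n * c3 n + Λ n * c2 n + Λ n * c1 n + Λ n * 1 = Λ n * ((1 + c1 n) * (1 + c2 n)) := by
      rw [h12]
      ring
    rw [e]
    apply mul_nonneg vonMangoldt_nonneg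
    apply mul_nonneg
    · linarith [(abs_le.mp (h1.abs n)).1]
    · linarith [(abs_le.mp (h2.abs n)).1]

/-- The error constants. -/
noncomputable def EG (β Q1 : ℝ) : ℝ :=
  2 * |1 / (1 - β)| * Q1 + 2 * |Zr β| * Q1 + 4 * 16 + 4 * Q1 * 16

noncomputable def EH (Q2 Q3 : ℝ) : ℝ := 2 * Q2 * Q3 + 16 * Q2 + 64 * Q3

noncomputable def EW (β Q1 Q2 Q3 : ℝ) : ℝ :=
  2 * (|1 / (1 - β)| * Q1) * EH Q2 Q3 + 2 * (|Zr β| * Q1) * EH Q2 Q3 + EG β Q1 * (16 * 16)
    + 4 * EH Q2 Q3 * (16 * 16)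

/-- The lower bound for `L(1,c₁) L(1,c₂) L(1,c₃)`. -/
theorem siegel_core {c1 c2 c3 : ℕ → ℝ} {Q1 Q2 Q3 : ℝ} (h1 : RC c1 Q1) (h2 : RC c2 Q2)
    (h3 : RC c3 Q3) (h12 : ∀ n, c3 n = c1 n * c2 n) (β : ℝ) (hβ : 31 / 32 ≤ β) (hβ1 : β < 1)
    (hsign : 0 ≤ Lr c1 β * (Lr c2 β * Lr c3 β)) :
    (1 - β) / 2 * (2 * EW β Q1 Q2 Q3) ^ (-(32 / 5 * (1 - β)))
      ≤ Lr c1 1 * (Lr c2 1 * Lr c3 1) := by
  have hQ1 := h1.Q_nonneg
  have hQ2 := h2.Q_nonneg
  have hQ3 := h3.Q_nonneg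
  have hβ' : 0 < 1 - β := by linarith
  have hEH : 0 ≤ EH Q2 Q3 := by unfold EH; positivity
  have hEG : 64 ≤ EG β Q1 := by
    unfold EG
    have : 0 ≤ 2 * |1 / (1 - β)| * Q1 + 2 * |Zr β| * Q1 + 4 * Q1 * 16 := by positivity
    linarith
  have hEW : 1 ≤ EW β Q1 Q2 Q3 := by
    unfold EW
    have : 0 ≤ 2 * (|1 / (1 - β)| * Q1) * EH Q2 Q3 + 2 * (|Zr β| * Q1) * EH Q2 Q3
      + 4 * EH Q2 Q3 * (16 * 16) := by positivity
    linarith
  -- the expansion of `W`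
  have hW : ∀ v : ℝ, 1 ≤ v →
      |Sm (wt β (cf c3 * cf c2) * wt β (cf c1 * (ζ : ArithmeticFunction ℝ))
          : ArithmeticFunction ℝ) v
        - (1 / (1 - β) * Lr c1 1 * (Lr c2 1 * Lr c3 1) * v ^ (1 - β)
          + Zr β * Lr c1 β * (Lr c2 β * Lr c3 β))|
        ≤ EW β Q1 Q2 Q3 * v ^ (-(5 / 32 : ℝ)) := by
    intro v hv
    have h := hyp_expand (wt β (cf c1 * (ζ : ArithmeticFunction ℝ))) (wt β (cf c3 * cf c2)) β
      (7 / 16) (1 / 8) (1 / (1 - β) * Lr c1 1) (Zr β * Lr c1 β) (Lr c2 β * Lr c3 β)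
      (Lr c2 1 * Lr c3 1) (EG β Q1) (EH Q2 Q3) (16 * 16) (16 * 16) (by norm_num) (by norm_num)
      (by norm_num) (by linarith) (by linarith) hEH (by norm_num) (by norm_num)
      (fun v hv => G_expand h1 β hβ hβ1 v hv)
      (fun v hv => H_expand h2 h3 β hβ hβ1.le v hv)
      (fun v hv => by rw [wt_shift]; exact H_expand h2 h3 1 (by norm_num) le_rfl v hv)
      (fun v hv => by
        have := abs_conv_bound (wt β (ζ : ArithmeticFunction ℝ)) (wt β (cf c1)) (1 / 16) 16 16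
          (by norm_num) (fun v hv => zeta_abs β (by linarith) v hv)
          (fun v hv => cf_abs h1 β (by linarith) v hv) v hv
        rw [← wt_mul] at this
        norm_num at this ⊢
        exact this)
      (fun v hv => by
        have := abs_conv_bound (wt β (cf c2)) (wt β (cf c3)) (1 / 16) 16 16
          (by norm_num) (fun v hv => cf_abs h2 β (by linarith) v hv)
          (fun v hv => cf_abs h3 β (by linarith) v hv) v hv
        rw [← wt_mul] at this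
        norm_num at this ⊢
        exact this) v hv
    have e1 : -(((7 : ℝ) / 16 - 1 / 8) / 2) = -(5 / 32) := by norm_num
    rw [e1] at h
    refine h.trans ?_
    have h4 := Lr_abs_le h1 1 (by norm_num)
    have h5 := Lr_abs_le h1 β (by linarith)
    have h6 : |1 / (1 - β) * Lr c1 1| ≤ |1 / (1 - β)| * Q1 := by
      rw [abs_mul]; gcongr
    have h7 : |Zr β * Lr c1 β| ≤ |Zr β| * Q1 := by
      rw [abs_mul]; gcongr
    unfold EW
    gcongr
  -- positivity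
  obtain ⟨hpos, hone⟩ := f_nonneg h1 h2 h3 h12
  have hlow : ∀ v : ℝ, 1 ≤ v → 1 ≤ Sm (wt β (cf c3 * cf c2) * wt β (cf c1 *
      (ζ : ArithmeticFunction ℝ)) : ArithmeticFunction ℝ) v := by
    intro v hv
    rw [← wt_mul]
    unfold Sm
    have hmem : 1 ∈ Ioc 0 ⌊v⌋₊ := by
      rw [mem_Ioc]
      exact ⟨by norm_num, Nat.le_floor (by simpa using hv)⟩
    have h4 := single_le_sum (f := fun n => (wt β (cf c3 * cf c2 * (cf c1 *
      (ζ : ArithmeticFunction ℝ)))) n) (s := Ioc 0 ⌊v⌋₊) (fun n _ => by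
        rw [wt_apply]
        exact mul_nonneg (hpos n) (by positivity)) hmem
    refine le_trans (le_of_eq ?_) h4
    rw [wt_apply, hone]
    simp
  set Lam := Lr c1 1 * (Lr c2 1 * Lr c3 1) with hLam
  set v := (2 * EW β Q1 Q2 Q3) ^ ((32 : ℝ) / 5) with hv
  have h2E : 1 ≤ 2 * EW β Q1 Q2 Q3 := by linarith
  have hv1 : 1 ≤ v := Real.one_le_rpow h2E (by norm_num)
  have hv0 : 0 < v := by linarith
  have hA := hW v hv1
  have hB := hlow v hv1
  have hK : Zr β * Lr c1 β * (Lr c2 β * Lr c3 β) ≤ 0 := by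
    have := Zr_nonpos β (by linarith) hβ1
    rw [mul_assoc]
    exact mul_nonpos_of_nonpos_of_nonneg this hsign
  have hE2 : EW β Q1 Q2 Q3 * v ^ (-(5 / 32 : ℝ)) = 1 / 2 := by
    rw [hv, ← Real.rpow_mul (by linarith)]
    norm_num
    rw [Real.rpow_neg_one]
    field_simp
  have hC : 1 / 2 ≤ 1 / (1 - β) * Lam * v ^ (1 - β) := by
    have h4 := (abs_le.mp hA).2
    rw [hE2] at h4
    have h5 : 1 / (1 - β) * Lr c1 1 * (Lr c2 1 * Lr c3 1) * v ^ (1 - β)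
        = 1 / (1 - β) * Lam * v ^ (1 - β) := by rw [hLam]; ring
    rw [h5] at h4
    linarith
  have hvpow : (2 * EW β Q1 Q2 Q3) ^ (-(32 / 5 * (1 - β))) = (v ^ (1 - β))⁻¹ := by
    rw [hv, ← Real.rpow_mul (by linarith), ← Real.rpow_neg (by linarith)]
  rw [hvpow]
  have hvp : 0 < v ^ (1 - β) := Real.rpow_pos_of_pos hv0 _
  rw [← div_eq_mul_inv, div_le_iff₀ hvp]
  have h6 : 1 / (1 - β) * Lam * v ^ (1 - β) = Lam * v ^ (1 - β) / (1 - β) := by
    field_simp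
  rw [h6, le_div_iff₀ hβ'] at hC
  linarith

end Pool.Agent.SW
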