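import Pool.Agent.Work.SW.LBound

/-!
Bounds for `∑ (log n)^j n^{-s}`, `Re s > 1` (derivatives of the Riemann zeta function).
-/

set_option autoImplicit false

namespace Pool.Agent.SW

open Finset

/-- An antiderivative of `(log u)^j u^{-s}`. -/
noncomputable def Gj (s : ℂ) : ℕ → ℝ → ℂ
  | 0 => fun u => -((u : ℂ) ^ (1 - s)) / (s - 1)
  | (j + 1) => fun u => -((Real.log u : ℂ) ^ (j + 1) * (u : ℂ) ^ (1 - s)) / (s - 1)
      + ((j + 1 : ℕ) : ℂ) / (s - 1) * Gj s j u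

theorem hasDerivAt_Gj (s : ℂ) (hs : s ≠ 1) (j : ℕ) (u : ℝ) (hu : 0 < u) :
    HasDerivAt (Gj s j) (gj j s u) u := by
  have hs' : s - 1 ≠ 0 := sub_ne_zero.mpr hs
  have hu' : (u : ℂ) ≠ 0 := by exact_mod_cast hu.ne'
  have h3 : HasDerivAt (fun u : ℝ => (u : ℂ) ^ (1 - s)) ((1 - s) * (u : ℂ) ^ (-s)) u := by
    have h4 : HasDerivAt (fun z : ℂ => z ^ (1 - s)) ((1 - s) * (u : ℂ) ^ (1 - s - 1)) (u : ℂ) := by
      have := (hasDerivAt_id (u : ℂ)).cpow_const (c := 1 - s) (Or.inl (by simpa using hu))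
      simpa using this
    have h5 := h4.comp_ofReal
    rwa [show (1 : ℂ) - s - 1 = -s by ring] at h5
  induction j with
  | zero =>
    have h5 := (h3.neg).div_const (s - 1)
    have h6 : gj 0 s u = -((1 - s) * (u : ℂ) ^ (-s)) / (s - 1) := by
      unfold gj
      field_simp
      ring
    rw [h6]
    exact h5
  | succ j ih =>
    have h1 : HasDerivAt (fun u : ℝ => (Real.log u : ℂ)) ((u⁻¹ : ℝ) : ℂ) u :=
      (Real.hasDerivAt_log hu.ne').ofReal_comp
    have h2 := h1.pow (j + 1)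
    have h4 := (((h2.mul h3).neg).div_const (s - 1)).add (ih.const_mul (((j + 1 : ℕ) : ℂ) / (s - 1)))
    have h5 : (u : ℂ) ^ (1 - s) = u * (u : ℂ) ^ (-s) := by
      rw [show (1 : ℂ) - s = 1 + -s by ring, Complex.cpow_add _ _ hu', Complex.cpow_one]
    have h6 : gj (j + 1) s u = -((((j + 1 : ℕ) : ℂ) * (Real.log u : ℂ) ^ (j + 1 - 1)
        * ((u⁻¹ : ℝ) : ℂ)) * (u : ℂ) ^ (1 - s)
        + (Real.log u : ℂ) ^ (j + 1) * ((1 - s) * (u : ℂ) ^ (-s))) / (s - 1)
        + ((j + 1 : ℕ) : ℂ) / (s - 1) * gj j s u := by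
      unfold gj
      rw [h5, Nat.add_sub_cancel]
      push_cast
      field_simp
      ring
    rw [h6]
    exact h4

theorem norm_Gj_one (s : ℂ) (j : ℕ) :
    ‖Gj s j 1‖ = (j.factorial : ℝ) / ‖s - 1‖ ^ (j + 1) := by
  induction j with
  | zero => simp [Gj]
  | succ j ih =>
    have : Gj s (j + 1) 1 = ((j + 1 : ℕ) : ℂ) / (s - 1) * Gj s j 1 := by
      simp [Gj]
    rw [this, norm_mul, norm_div, ih, Complex.norm_natCast, Nat.factorial_succ]
    push_cast
    rw [pow_succ (‖s - 1‖) (j + 1)]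
    rw [div_mul_div_comm, mul_comm (‖s - 1‖) _]

theorem tendsto_Gj (s : ℂ) (hs : 1 < s.re) (j : ℕ) :
    Filter.Tendsto (Gj s j) Filter.atTop (nhds 0) := by
  have key : ∀ i : ℕ, Filter.Tendsto (fun u : ℝ => (Real.log u : ℂ) ^ i * (u : ℂ) ^ (1 - s))
      Filter.atTop (nhds 0) := by
    intro i
    rw [tendsto_zero_iff_norm_tendsto_zero]
    have h1 : Filter.Tendsto (fun u : ℝ => (Real.log u) ^ i * u ^ (-(s.re - 1))) Filter.atTop
        (nhds 0) := by
      have h2 := isLittleO_log_rpow_rpow_atTop (i : ℝ) (show 0 < s.re - 1 by linarith)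
      have h3 := h2.tendsto_div_nhds_zero
      refine h3.congr' ?_
      filter_upwards [Filter.eventually_gt_atTop 0] with u hu
      rw [Real.rpow_natCast, Real.rpow_neg hu.le]
      rfl
    refine h1.congr' ?_
    filter_upwards [Filter.eventually_ge_atTop 1] with u hu
    have hu0 : 0 < u := by linarith
    rw [norm_mul, norm_pow, Complex.norm_real, Real.norm_eq_abs,
      abs_of_nonneg (Real.log_nonneg hu), Complex.norm_cpow_eq_rpow_re_of_pos hu0]
    congr 2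
    simp
  induction j with
  | zero =>
    have h := ((key 0).neg).div_const (s - 1)
    simp only [pow_zero, one_mul, neg_zero, zero_div] at h
    exact h
  | succ j ih =>
    have h := (((key (j + 1)).neg).div_const (s - 1)).add
      (ih.const_mul (((j + 1 : ℕ) : ℂ) / (s - 1)))
    simp only [neg_zero, zero_div, mul_zero, add_zero] at h
    exact h

theorem norm_Gj_sub_le (j : ℕ) (s : ℂ) (hs : 1 ≤ s.re) (hs1 : s ≠ 1) (n : ℕ) (hn : 1 ≤ n) :
    ‖Gj s j ((n + 1 : ℕ) : ℝ) - Gj s j n‖ ≤ (Real.log ((n + 1 : ℕ) : ℝ)) ^ j * (n : ℝ)⁻¹ := by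
  have hn' : (1 : ℝ) ≤ n := by exact_mod_cast hn
  have h := Convex.norm_image_sub_le_of_norm_hasDerivWithin_le (𝕜 := ℝ) (f := Gj s j)
    (f' := fun u => gj j s u)
    (s := Set.Icc (n : ℝ) ((n + 1 : ℕ) : ℝ)) (x := (n : ℝ)) (y := ((n + 1 : ℕ) : ℝ))
    (C := (Real.log ((n + 1 : ℕ) : ℝ)) ^ j * (n : ℝ)⁻¹) ?_ ?_
    (convex_Icc _ _) ?_ ?_
  · refine h.trans (le_of_eq ?_)
    have : ‖(((n + 1 : ℕ) : ℝ)) - n‖ = 1 := by
      push_cast
      simp
    rw [this, mul_one]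
  · intro u hu
    exact (hasDerivAt_Gj s hs1 j u (by linarith [hu.1])).hasDerivWithinAt
  · intro u hu
    refine (norm_gj_le j s hs u ((n + 1 : ℕ) : ℝ) (by linarith [hu.1]) hu.2).trans ?_
    have h1 : u⁻¹ ≤ (n : ℝ)⁻¹ := inv_anti₀ (by linarith) hu.1
    have : 0 ≤ Real.log ((n + 1 : ℕ) : ℝ) := Real.log_natCast_nonneg _
    gcongr
  · constructor <;> push_cast <;> linarith
  · constructor <;> push_cast <;> linarith

theorem norm_d_le (j : ℕ) (s : ℂ) (hs : 1 ≤ s.re) (hs1 : s ≠ 1) (n : ℕ) (hn : 3 ≤ n) :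
    ‖gj j s n - (Gj s j ((n + 1 : ℕ) : ℝ) - Gj s j n)‖
      ≤ (j + ‖s‖) * (Real.log ((n + 1 : ℕ) : ℝ)) ^ j * ((n : ℝ) ^ 2)⁻¹ := by
  have hn' : (3 : ℝ) ≤ n := by exact_mod_cast hn
  set D := (j + ‖s‖) * (Real.log ((n + 1 : ℕ) : ℝ)) ^ j * ((n : ℝ) ^ 2)⁻¹ with hD
  have hgd : ∀ u ∈ Set.Icc (n : ℝ) ((n + 1 : ℕ) : ℝ), ‖gj j s u - gj j s n‖ ≤ D := by
    intro u hu
    have h := Convex.norm_image_sub_le_of_norm_hasDerivWithin_le (𝕜 := ℝ) (f := gj j s)
      (f' := fun u => (j * (Real.log u : ℂ) ^ (j - 1) * ((u : ℂ))⁻¹) * (u : ℂ) ^ (-s)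
        + (Real.log u : ℂ) ^ j * (-s * (u : ℂ) ^ (-s - 1)))
      (s := Set.Icc (n : ℝ) ((n + 1 : ℕ) : ℝ)) (x := (n : ℝ)) (y := u)
      (C := D) ?_ ?_ (convex_Icc _ _) ?_ hu
    · refine h.trans ?_
      have h1 : ‖u - n‖ ≤ 1 := by
        rw [Real.norm_eq_abs, abs_of_nonneg (by linarith [hu.1])]
        have := hu.2
        push_cast at this
        linarith
      have hD0 : 0 ≤ D := by
        rw [hD]
        have : 0 ≤ Real.log ((n + 1 : ℕ) : ℝ) := Real.log_natCast_nonneg _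
        positivity
      calc D * ‖u - n‖ ≤ D * 1 := by gcongr
        _ = D := mul_one D
    · intro u hu
      exact (hasDerivAt_gj j s u (by linarith [hu.1])).hasDerivWithinAt
    · intro u hu
      refine (norm_deriv_gj_le j s hs u (by linarith [hu.1])).trans ?_
      have hu0 : 0 < u := by linarith [hu.1]
      have hu1 : 1 ≤ u := by linarith [hu.1]
      have h1 : 0 ≤ Real.log u := Real.log_nonneg hu1
      have h2 : Real.log u ≤ Real.log ((n + 1 : ℕ) : ℝ) := Real.log_le_log hu0 hu.2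
      have h3 : (u ^ 2)⁻¹ ≤ ((n : ℝ) ^ 2)⁻¹ := by
        apply inv_anti₀ (by positivity)
        exact pow_le_pow_left₀ (by positivity) hu.1 2
      rw [hD]
      gcongr
    · constructor <;> push_cast <;> linarith
  have h := Convex.norm_image_sub_le_of_norm_hasDerivWithin_le (𝕜 := ℝ)
    (f := fun u : ℝ => Gj s j u - (u : ℂ) * gj j s n)
    (f' := fun u => gj j s u - gj j s n)
    (s := Set.Icc (n : ℝ) ((n + 1 : ℕ) : ℝ)) (x := (n : ℝ)) (y := ((n + 1 : ℕ) : ℝ))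
    (C := D) ?_ hgd (convex_Icc _ _) ?_ ?_
  · have h1 : ‖(((n + 1 : ℕ) : ℝ)) - n‖ = 1 := by
      push_cast
      simp
    rw [h1, mul_one] at h
    rw [norm_sub_rev]
    refine le_trans (le_of_eq ?_) h
    congr 1
    push_cast
    ring
  · intro u hu
    have h1 := (hasDerivAt_Gj s hs1 j u (by linarith [hu.1]))
    have h2 : HasDerivAt (fun u : ℝ => (u : ℂ) * gj j s n) (gj j s n) u := by
      have := (hasDerivAt_id u).ofReal_comp.mul_const (gj j s n)
      simpa using this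
    exact (h1.sub h2).hasDerivWithinAt
  · constructor <;> push_cast <;> linarith
  · constructor <;> push_cast <;> linarith

theorem norm_d_le' (j : ℕ) (s : ℂ) (hs : 1 ≤ s.re) (hs1 : s ≠ 1) (n : ℕ) (hn : 1 ≤ n) :
    ‖gj j s n - (Gj s j ((n + 1 : ℕ) : ℝ) - Gj s j n)‖
      ≤ 2 * (Real.log ((n + 1 : ℕ) : ℝ)) ^ j * (n : ℝ)⁻¹ := by
  have h1 := norm_Gj_sub_le j s hs hs1 n hn
  have h2 := norm_gj_le j s hs n ((n + 1 : ℕ) : ℝ) (by exact_mod_cast hn) (by push_cast; linarith)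
  refine (norm_sub_le _ _).trans ?_
  linarith

/-- The constant in the bound for the `j`-th derivative of zeta. -/
noncomputable def CZ (j : ℕ) : ℝ := 2 * 4 ^ (j + 1) + (2 * ((j : ℝ) + 1)) ^ j * (4 * j + 9)

theorem CZ_pos (j : ℕ) : 1 ≤ CZ j := by
  unfold CZ
  have h1 : (1 : ℝ) ≤ 4 ^ (j + 1) := one_le_pow₀ (by norm_num)
  have h2 : (0 : ℝ) ≤ (2 * ((j : ℝ) + 1)) ^ j * (4 * j + 9) := by positivity
  linarith

theorem sum_d_bound (j : ℕ) (s : ℂ) (hs : 1 ≤ s.re) (hs1 : s ≠ 1) (hs2 : s.re ≤ 2) (K : ℕ) :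
    ∑ n ∈ Ioc 0 K, ‖gj j s n - (Gj s j ((n + 1 : ℕ) : ℝ) - Gj s j n)‖
      ≤ CZ j * LL 1 s.im ^ (j + 1) := by
  set t := |s.im| with ht
  set X := t + 3 with hX
  have ht0 : 0 ≤ t := abs_nonneg _
  have hX3 : 3 ≤ X := by linarith
  set ℓ := LL 1 s.im with hℓ
  have hℓ1 : 1 ≤ ℓ := one_le_LL 1 s.im le_rfl
  have hℓX : ℓ = Real.log X := by rw [hℓ, LL, one_mul]
  set N := ⌈X ^ 2⌉₊ with hN
  have hNX : X ^ 2 ≤ N := Nat.le_ceil _
  have hN9 : 9 ≤ N := by
    have : (9 : ℝ) ≤ N := by nlinarith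
    exact_mod_cast this
  have hN2 : (N : ℝ) + 1 ≤ 2 * X ^ 2 := by
    have := Nat.ceil_lt_add_one (show 0 ≤ X ^ 2 by positivity)
    nlinarith
  have hN0 : (0 : ℝ) < N := by nlinarith
  have hlogN1 : 1 + Real.log ((N + 1 : ℕ) : ℝ) ≤ 4 * ℓ := by
    have h1 : Real.log ((N + 1 : ℕ) : ℝ) ≤ Real.log (2 * X ^ 2) :=
      Real.log_le_log (by positivity) (by push_cast; exact hN2)
    rw [Real.log_mul (by norm_num) (by positivity), Real.log_pow] at h1
    have := Real.log_two_lt_d9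
    push_cast at h1 ⊢
    linarith
  have hlogN : 1 + Real.log N ≤ 4 * ℓ := by
    have : Real.log N ≤ Real.log ((N + 1 : ℕ) : ℝ) :=
      Real.log_le_log hN0 (by push_cast; linarith)
    linarith
  have hlogN0 : 0 ≤ Real.log ((N + 1 : ℕ) : ℝ) := Real.log_natCast_nonneg _
  have hlogN00 : 0 ≤ Real.log (N : ℝ) := Real.log_natCast_nonneg _
  set C := (2 * ((j : ℝ) + 1)) ^ j with hC
  have hC0 : 0 ≤ C := by positivity
  set d : ℕ → ℝ := fun n => ‖gj j s n - (Gj s j ((n + 1 : ℕ) : ℝ) - Gj s j n)‖ with hd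
  have hhead : ∀ K', K' ≤ N → ∑ n ∈ Ioc 0 K', d n ≤ 2 * 4 ^ (j + 1) * ℓ ^ (j + 1) := by
    intro K' hK'
    have h1 : ∀ n ∈ Ioc 0 K', d n ≤ 2 * (Real.log ((N + 1 : ℕ) : ℝ)) ^ j * (n : ℝ)⁻¹ := by
      intro n hn
      rw [mem_Ioc] at hn
      refine (norm_d_le' j s hs hs1 n hn.1).trans ?_
      have h2 : 0 ≤ Real.log ((n + 1 : ℕ) : ℝ) := Real.log_natCast_nonneg _
      have h3 : Real.log ((n + 1 : ℕ) : ℝ) ≤ Real.log ((N + 1 : ℕ) : ℝ) := by
        apply Real.log_le_log (by positivity)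
        exact_mod_cast (by omega : n + 1 ≤ N + 1)
      gcongr
    refine (sum_le_sum h1).trans ?_
    rw [← mul_sum]
    have h2 : ∑ n ∈ Ioc 0 K', (n : ℝ)⁻¹ ≤ 1 + Real.log N := by
      refine le_trans (sum_le_sum_of_subset_of_nonneg (Ioc_subset_Ioc_right hK') ?_)
        (sum_inv_le' N)
      intro n _ _
      positivity
    calc _ ≤ 2 * (Real.log ((N + 1 : ℕ) : ℝ)) ^ j * (1 + Real.log N) := by gcongr
      _ ≤ 2 * (4 * ℓ) ^ j * (4 * ℓ) := by
          gcongr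
          linarith
      _ = _ := by rw [mul_pow]; ring
  have hℓj : 1 ≤ ℓ ^ (j + 1) := one_le_pow₀ hℓ1
  have htail : ∑ n ∈ Ico (N + 1) (K + 1), d n ≤ C * (4 * j + 9) * ℓ ^ (j + 1) := by
    have h3 : ∀ n ∈ Ico (N + 1) (K + 1), d n
        ≤ 2 * C * (j + ‖s‖) * (√(n : ℝ) * ((n : ℝ) ^ 2)⁻¹) := by
      intro n hn
      rw [mem_Ico] at hn
      refine (norm_d_le j s hs hs1 n (by omega)).trans ?_
      have hn1 : (1 : ℝ) ≤ n := by
        have : 1 ≤ n := by omega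
        exact_mod_cast this
      have h4 := log_pow_le_sqrt j ((n + 1 : ℕ) : ℝ) (by push_cast; linarith)
      have h5 : √((n + 1 : ℕ) : ℝ) ≤ 2 * √(n : ℝ) := by
        rw [Real.sqrt_le_left (by positivity)]
        have := Real.sq_sqrt (show (0 : ℝ) ≤ n by linarith)
        push_cast
        nlinarith
      calc _ ≤ (j + ‖s‖) * (C * (2 * √(n : ℝ))) * ((n : ℝ) ^ 2)⁻¹ := by
            gcongr
            exact h4.trans (by gcongr)
        _ = _ := by ring
    refine (sum_le_sum h3).trans ?_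
    rw [← mul_sum]
    have h6 := sum_inv_three_half N (K + 1) (by omega)
    have hsqrt : X ≤ √N := Real.le_sqrt_of_sq_le hNX
    have hnorm : ‖s‖ ≤ 2 + t := by
      refine (Complex.norm_le_abs_re_add_abs_im s).trans ?_
      rw [abs_of_nonneg (by linarith)]
      linarith
    calc _ ≤ 2 * C * (j + ‖s‖) * (2 / √N) := by gcongr
      _ ≤ 2 * C * (j + (2 + t)) * (2 / X) := by gcongr
      _ = C * ((4 * (j + (2 + t))) / X) := by ring
      _ ≤ C * (4 * j + 9) := by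
          gcongr
          rw [div_le_iff₀ (by linarith), hX]
          have : (0 : ℝ) ≤ j := Nat.cast_nonneg j
          nlinarith
      _ ≤ C * (4 * j + 9) * ℓ ^ (j + 1) := by
          apply le_mul_of_one_le_right (by positivity) hℓj
  have hCZ : CZ j * ℓ ^ (j + 1) = 2 * 4 ^ (j + 1) * ℓ ^ (j + 1) + C * (4 * j + 9) * ℓ ^ (j + 1) := by
    rw [CZ, ← hC]
    ring
  rw [hCZ]
  rcases le_total K N with hKN | hKN
  · have := hhead K hKN
    have : 0 ≤ C * (4 * j + 9) * ℓ ^ (j + 1) := by positivity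
    linarith
  · have hsplit : ∑ n ∈ Ioc 0 K, d n = ∑ n ∈ Ioc 0 N, d n + ∑ n ∈ Ico (N + 1) (K + 1), d n := by
      have h7 : Ico (N + 1) (K + 1) = Ioc N K := by
        ext n; simp only [mem_Ioc, mem_Ico]; omega
      rw [h7, ← sum_union (Ioc_disjoint_Ioc_of_le le_rfl), Ioc_union_Ioc_eq_Ioc (Nat.zero_le _) hKN]
    rw [hsplit]
    exact add_le_add (hhead N le_rfl) htail

theorem sum_gj_eq (j : ℕ) (s : ℂ) (K : ℕ) :
    ∑ n ∈ Ioc 0 K, gj j s n = ∑ n ∈ Ioc 0 K, (gj j s n - (Gj s j ((n + 1 : ℕ) : ℝ) - Gj s j n))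
      + Gj s j ((K + 1 : ℕ) : ℝ) - Gj s j 1 := by
  induction K with
  | zero => simp
  | succ K ih =>
    rw [← Finset.insert_Ioc_right_eq_Ioc_add_one (by omega), sum_insert (by simp),
      sum_insert (by simp), ih]
    ring

theorem LSeries_zeta_bound (j : ℕ) (s : ℂ) (hs : 1 < s.re) (hs2 : s.re ≤ 2) :
    ‖LSeries (fun n => (1 : ℂ) * (Real.log n : ℂ) ^ j) s‖
      ≤ CZ j * LL 1 s.im ^ (j + 1) + (j.factorial : ℝ) / ‖s - 1‖ ^ (j + 1) := by
  have h1 := one_le_LL 1 s.im le_rfl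
  have h2 := CZ_pos j
  have hs1 : s ≠ 1 := by
    intro h
    rw [h] at hs
    simp at hs
  set f : ℕ → ℂ := fun n => (1 : ℂ) * (Real.log n : ℂ) ^ j with hf
  by_cases h : LSeriesSummable f s
  · have h3 := h.hasSum.tendsto_sum_nat
    have h4 : Filter.Tendsto (fun n => ∑ i ∈ range (n + 1), LSeries.term f s i) Filter.atTop
        (nhds (LSeries f s)) := (Filter.tendsto_add_atTop_iff_nat 1).mpr h3
    have h5 : Filter.Tendsto (fun K : ℕ => CZ j * LL 1 s.im ^ (j + 1)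
        + ‖Gj s j ((K + 1 : ℕ) : ℝ)‖ + (j.factorial : ℝ) / ‖s - 1‖ ^ (j + 1)) Filter.atTop
        (nhds (CZ j * LL 1 s.im ^ (j + 1) + ‖(0 : ℂ)‖
          + (j.factorial : ℝ) / ‖s - 1‖ ^ (j + 1))) := by
      have h6 : Filter.Tendsto (fun K : ℕ => Gj s j ((K + 1 : ℕ) : ℝ)) Filter.atTop (nhds 0) :=
        (tendsto_Gj s hs j).comp (tendsto_natCast_atTop_atTop.comp (Filter.tendsto_add_atTop_nat 1))
      exact (h6.norm.const_add _).add_const _
    rw [norm_zero, add_zero] at h5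
    apply le_of_tendsto_of_tendsto h4.norm h5
    filter_upwards with K
    have h7 : ∑ i ∈ range (K + 1), LSeries.term f s i = ∑ n ∈ Ioc 0 K, gj j s n := by
      rw [sum_range_succ']
      simp only [LSeries.term_zero, add_zero]
      rw [← Nat.Ico_zero_eq_range, sum_Ico_add' (fun k => LSeries.term f s k) 0 K 1]
      have h8 : Ico (0 + 1) (K + 1) = Ioc 0 K := by
        ext n; simp only [mem_Ioc, mem_Ico]; omega
      rw [h8]
      refine sum_congr rfl fun n hn => ?_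
      rw [mem_Ioc] at hn
      rw [hf, term_eq_gj (fun _ => 1) j s n (by omega), one_mul]
    rw [h7, sum_gj_eq]
    refine (norm_sub_le _ _).trans ?_
    rw [norm_Gj_one]
    gcongr
    refine (norm_add_le _ _).trans ?_
    gcongr
    exact (norm_sum_le _ _).trans (sum_d_bound j s hs.le hs1 hs2 K)
  · have : LSeries f s = 0 := tsum_eq_zero_of_not_summable h
    rw [this, norm_zero]
    positivity

end Pool.Agent.SW
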